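import Pool.Agent.W660.TP.ChainP

/-! Representation of small functionals with nonnegative functionals. -/

set_option autoImplicit false
open Polynomial Matrix Filter Topology ENNReal
open scoped ComplexOrder

namespace Pool.Agent.W660.TP

open Pool.Agent.W736.TC

variable {N : ℕ} {p : ℝ≥0∞} [Fact (1 ≤ p)]

/-- the four parts of a complex number -/
noncomputable def part4 (a : ℂ) (c : ℕ) : ℝ :=
  if c = 0 then max a.re 0 else if c = 1 then max a.im 0 else if c = 2 then max (-a.re) 0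
    else max (-a.im) 0

theorem part4_nonneg (a : ℂ) (c : ℕ) : 0 ≤ part4 a c := by
  unfold part4
  split_ifs <;> exact le_max_right _ _

theorem part4_le (a : ℂ) (c : ℕ) : part4 a c ≤ ‖a‖ := by
  have h1 := Complex.abs_re_le_norm a
  have h2 := Complex.abs_im_le_norm a
  unfold part4
  split_ifs
  · exact max_le ((le_abs_self _).trans h1) (norm_nonneg _)
  · exact max_le ((le_abs_self _).trans h2) (norm_nonneg _)
  · exact max_le ((neg_le_abs _).trans h1) (norm_nonneg _)
  · exact max_le ((neg_le_abs _).trans h2) (norm_nonneg _)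

theorem max_sub (x : ℝ) : max x 0 - max (-x) 0 = x := by
  rcases le_total 0 x with h | h
  · rw [max_eq_left h, max_eq_right (by linarith)]
    ring
  · rw [max_eq_right h, max_eq_left (by linarith)]
    ring

theorem part4_sum (a : ℂ) : (part4 a 0 : ℂ) + Complex.I * (part4 a 1 : ℂ)
    + Complex.I ^ 2 * (part4 a 2 : ℂ) + Complex.I ^ 3 * (part4 a 3 : ℂ) = a := by
  have h3 : Complex.I ^ 3 = -Complex.I := by
    rw [pow_succ, Complex.I_sq]
    ring
  rw [Complex.I_sq, h3]
  have e0 : part4 a 0 = max a.re 0 := by simp [part4]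
  have e1 : part4 a 1 = max a.im 0 := by simp [part4]
  have e2 : part4 a 2 = max (-a.re) 0 := by simp [part4]
  have e3 : part4 a 3 = max (-a.im) 0 := by simp [part4]
  rw [e0, e1, e2, e3]
  have f1 := max_sub a.re
  have f2 := max_sub a.im
  apply Complex.ext
  · simp
    linarith
  · simp
    linarith

/-- the parts of a functional -/
noncomputable def partF (f : ellm ℂ p N →L[ℂ] ℂ) (c : ℕ) : ellm ℂ p N →L[ℂ] ℂ :=
  mkF p (fun i => (part4 (f (PiLp.single p i (1:ℂ))) c : ℂ))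

theorem mkF_single (b : Fin N → ℂ) (i : Fin N) : mkF p b (PiLp.single p i (1:ℂ)) = b i := by
  rw [mkF_apply, Finset.sum_eq_single i]
  · simp
  · intro j _ hj
    rw [PiLp.single_eq_of_ne p hj, mul_zero]
  · intro h
    exact absurd (Finset.mem_univ _) h

theorem partF_nn (f : ellm ℂ p N →L[ℂ] ℂ) (c : ℕ) : NNf (partF f c) := by
  intro i
  rw [partF, mkF_single]
  exact Complex.zero_le_real.2 (part4_nonneg _ _)

theorem partF_le (hp : p ≠ ⊤) (f : ellm ℂ p N →L[ℂ] ℂ) (c : ℕ) : ‖partF f c‖ ≤ ‖f‖ := by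
  conv_rhs => rw [mkF_of f]
  apply mkF_mono hp
  intro i
  rw [Complex.norm_real, Real.norm_of_nonneg (part4_nonneg _ _)]
  exact part4_le _ _

theorem partF_sum (f : ellm ℂ p N →L[ℂ] ℂ) (v : ellm ℂ p N) :
    partF f 0 v + Complex.I * partF f 1 v + Complex.I ^ 2 * partF f 2 v
      + Complex.I ^ 3 * partF f 3 v = f v := by
  conv_rhs => rw [mkF_of f]
  simp only [partF, mkF_apply]
  rw [Finset.mul_sum, Finset.mul_sum, Finset.mul_sum, ← Finset.sum_add_distrib,
    ← Finset.sum_add_distrib, ← Finset.sum_add_distrib]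
  refine Finset.sum_congr rfl fun i _ => ?_
  conv_rhs => rw [← part4_sum (f (PiLp.single p i (1:ℂ)))]
  ring

theorem sum4 {M : Type} [AddCommMonoid M] (f : ℕ → M) (n : ℕ) : ∑ m ∈ Finset.range (4 * n), f m
    = ∑ j ∈ Finset.range n, (f (4 * j) + f (4 * j + 1) + f (4 * j + 2) + f (4 * j + 3)) := by
  induction n with
  | zero => simp
  | succ n ih =>
    rw [Finset.sum_range_succ, ← ih, show 4 * (n + 1) = 4 * n + 1 + 1 + 1 + 1 by ring,
      Finset.sum_range_succ, Finset.sum_range_succ, Finset.sum_range_succ, Finset.sum_range_succ]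
    simp only [add_assoc]

/-- the correction lemma with nonnegative functionals -/
theorem corr_pos (hp : p ≠ ⊤) {t : ellm ℂ p N →L[ℂ] ellm ℂ p N} {Λ : Finset ℂ} (hΛ : Λ.Nonempty)
    (hd : Diag t Λ) (x0 : ellm ℂ p N) (y0 : ellm ℂ p N →L[ℂ] ℂ) (c : ℝ) (hc : 0 < c)
    (h : ∀ q : ℂ[X], ‖y0 ((aeval t q) x0)‖ ≤ c * ‖aeval t q‖) :
    ∃ (n : ℕ) (w : ℕ → ℝ) (u : ℕ → ellm ℂ p N) (v : ℕ → (ellm ℂ p N →L[ℂ] ℂ)), (∀ j, 0 ≤ w j) ∧
      ∑ j ∈ Finset.range n, w j ≤ 8 * c ∧ (∀ j, ‖u j‖ ≤ 1) ∧ (∀ j, ‖v j‖ ≤ 1) ∧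
      (∀ j, NNf (v j)) ∧
      ∀ q : ℂ[X], y0 ((aeval t q) x0) +
        ∑ j ∈ Finset.range n, (w j : ℂ) * v j ((aeval t q) (u j)) = 0 := by
  obtain ⟨n, w, u, v, a1, a2, a3, a4, a5⟩ := corr hΛ hd x0 y0 c hc h
  refine ⟨4 * n, fun m => w (m / 4), fun m => Complex.I ^ (m % 4) • u (m / 4),
    fun m => partF (v (m / 4)) (m % 4), fun m => a1 _, ?_, fun m => ?_, fun m => ?_, fun m => ?_,
    fun q => ?_⟩
  · rw [sum4]
    have e : ∀ j, (w (4 * j / 4) + w ((4 * j + 1) / 4) + w ((4 * j + 2) / 4)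
        + w ((4 * j + 3) / 4)) = 4 * w j := by
      intro j
      rw [show 4 * j / 4 = j by omega, show (4 * j + 1) / 4 = j by omega,
        show (4 * j + 2) / 4 = j by omega, show (4 * j + 3) / 4 = j by omega]
      ring
    simp only [e]
    rw [← Finset.mul_sum]
    linarith
  · dsimp only
    rw [norm_smul, norm_pow, Complex.norm_I, one_pow, one_mul]
    exact a3 _
  · exact (partF_le hp _ _).trans (a4 _)
  · exact partF_nn _ _
  · rw [sum4, ← a5 q]
    congr 1
    refine Finset.sum_congr rfl fun j _ => ?_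
    dsimp only
    rw [show 4 * j / 4 = j by omega, show (4 * j + 1) / 4 = j by omega,
        show (4 * j + 2) / 4 = j by omega, show (4 * j + 3) / 4 = j by omega,
        show 4 * j % 4 = 0 by omega, show (4 * j + 1) % 4 = 1 by omega,
        show (4 * j + 2) % 4 = 2 by omega, show (4 * j + 3) % 4 = 3 by omega]
    simp only [map_smul, smul_eq_mul]
    rw [← partF_sum (v j)]
    ring

end Pool.Agent.W660.TP
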