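import Pool.Agent.W660.TP.DefsP
import Pool.Agent.W660.TP.CorrP

/-! Density of positive block operators. -/

set_option autoImplicit false
open Filter Topology Polynomial ENNReal Matrix
open scoped ComplexOrder

namespace Pool.Agent.W660.TP

open Pool.Agent.W736.TC

variable {N : ℕ} {p : ℝ≥0∞} [Fact (1 ≤ p)]

theorem id_le : ‖ContinuousLinearMap.id ℂ ℂ‖ ≤ 1 := ContinuousLinearMap.norm_id_le

/-- the blocks -/
noncomputable abbrev JJ (p : ℝ≥0∞) [Fact (1 ≤ p)] (N : ℕ) : ℕ → ellm ℂ p N →L[ℂ] ell ℂ p :=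
  Jm p (ContinuousLinearMap.id ℂ ℂ) N

noncomputable abbrev RQ (p : ℝ≥0∞) [Fact (1 ≤ p)] (htop : p ≠ ⊤) (N : ℕ) :
    ℕ → ell ℂ p →L[ℂ] ellm ℂ p N :=
  Rm p htop (ContinuousLinearMap.id ℂ ℂ) id_le N

theorem blk (htop : p ≠ ⊤) (N : ℕ) : Blk p.toReal (JJ p N) (RQ p htop N) :=
  blk_m htop id_le id_le (fun _ => rfl) N

theorem JR (htop : p ≠ ⊤) (N : ℕ) (x : ell ℂ p) : JJ p N 0 (RQ p htop N 0 x) = Pn ℂ p N x := by
  rw [Jm_apply, Pn_apply, Finset.sum_range]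
  refine Finset.sum_congr rfl fun i _ => ?_
  rw [Rm_apply]
  simp

theorem JJ_nn (k : ℕ) (v : ellm ℂ p N) (hv : NNv v) (n : ℕ) : 0 ≤ (JJ p N k v) n := by
  rw [Jm_apply, lp.coeFn_sum, Finset.sum_apply]
  exact Finset.sum_nonneg fun i _ => single_nn _ _ (hv i) n

theorem RQ_nn (htop : p ≠ ⊤) (k : ℕ) (x : ell ℂ p) (hx : ∀ n, 0 ≤ x n) : NNv (RQ p htop N k x) :=
  fun i => by
    rw [Rm_apply]
    exact hx _

theorem pos_JMR (htop : p ≠ ⊤) (k l : ℕ) (M : Matrix (Fin N) (Fin N) ℝ) (hM : ∀ i j, 0 ≤ M i j) :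
    PosOp ((JJ p N k).comp ((opM p N (cm M)).comp (RQ p htop N l))) := fun x hx n =>
  JJ_nn k _ (opM_nn M hM _ (RQ_nn htop l x hx)) n

theorem pos_sum {ι : Type} (s : Finset ι) (T : ι → ell ℂ p →L[ℂ] ell ℂ p)
    (h : ∀ i ∈ s, PosOp (T i)) : PosOp (∑ i ∈ s, T i) := fun x hx n => by
  have : (∑ i ∈ s, T i) x n = ∑ i ∈ s, T i x n := by
    rw [_root_.sum_apply, lp.coeFn_sum, Finset.sum_apply]
  rw [this]
  exact Finset.sum_nonneg fun i hi => h i hi x hx n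

theorem pos_bOp (htop : p ≠ ⊤) (s : Finset ℕ) (M : Matrix (Fin N) (Fin N) ℝ)
    (hM : ∀ i j, 0 ≤ M i j) : PosOp (bOp (JJ p N) (RQ p htop N) s (opM p N (cm M))) :=
  pos_sum s _ fun k _ => pos_JMR htop k k M hM

theorem J_le' (htop : p ≠ ⊤) (k : ℕ) (v : ellm ℂ p N) : ‖JJ p N k v‖ ≤ ‖v‖ :=
  (blk htop N).J_le (pos_r htop) k v

theorem R_le' (htop : p ≠ ⊤) (k : ℕ) (x : ell ℂ p) : ‖RQ p htop N k x‖ ≤ ‖x‖ :=
  (blk htop N).R_le (pos_r htop) k x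

/-- a nonnegative matrix approximated by an admissible one -/
theorem exists_mat (A0 : Matrix (Fin N) (Fin N) ℝ) (h0 : ∀ i j, 0 ≤ A0 i j) (δ : ℝ) (hδ : 0 < δ) :
    ∃ A : Matrix (Fin N) (Fin N) ℝ, (∀ i j, 0 < A i j) ∧ (xchi A).Separable ∧
      ‖opM p N (cm A) - opM p N (cm A0)‖ ≤ δ := by
  obtain ⟨A, h1, h2, h3⟩ := exists_sep A0 h0 (δ / ((N:ℝ) * N + 1)) (by positivity)
  refine ⟨A, h1, h3, ?_⟩
  rw [← map_sub]
  refine (opM_norm _).trans ?_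
  calc ∑ i, ∑ j, ‖(cm A - cm A0) i j‖ ≤ ∑ _i : Fin N, ∑ _j : Fin N, δ / ((N:ℝ) * N + 1) := by
        refine Finset.sum_le_sum fun i _ => Finset.sum_le_sum fun j _ => ?_
        have : (cm A - cm A0) i j = ((A i j - A0 i j : ℝ) : ℂ) := by
          simp
        rw [this, Complex.norm_real]
        exact h2 i j
    _ = (N * N : ℝ) * (δ / ((N:ℝ) * N + 1)) := by
        simp
        ring
    _ ≤ ((N:ℝ) * N + 1) * (δ / ((N:ℝ) * N + 1)) := by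
        gcongr
        linarith
    _ = δ := by field_simp

end Pool.Agent.W660.TP
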