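import Pool.Agent.W660.TP.ApproxP

/-! Density of positive block operators: the approximation theorem. -/

set_option autoImplicit false
open Filter Topology Polynomial ENNReal Matrix
open scoped ComplexOrder

namespace Pool.Agent.W660.TP

open Pool.Agent.W736.TC

variable {N : ℕ} {p : ℝ≥0∞} [Fact (1 ≤ p)]

theorem approxP (h1p : 1 < p) (htop : p ≠ ⊤) (U : Set (PosContr p)) (hU : IsOpen U)
    (T : PosContr p) (hT : T ∈ U) (x0 : ell ℂ p) (y0 : ell ℂ p →L[ℂ] ℂ) (ε0 : ℝ) (hε0 : 0 < ε0) :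
    ∃ (N : ℕ) (A : Matrix (Fin N) (Fin N) ℝ), 0 < N ∧ (∀ i j, 0 < A i j) ∧ (xchi A).Separable ∧
      ‖opM p N (cm A)‖ < 1 ∧
      (∀ s : Finset ℕ, 0 ∈ s → ∃ h h',
        mkP (bOp (JJ p N) (RQ p htop N) s (opM p N (cm A))) h h' ∈ U) ∧
      ‖x0 - Pn ℂ p N x0‖ < ε0 ∧ ‖y0 - y0.comp (Pn ℂ p N)‖ < ε0 := by
  classical
  have hp := pos_r (p := p) htop
  obtain ⟨F, G, ε, hε, hFG⟩ := exists_nbhdP U hU T hT
  set M : ℝ := ∑ x ∈ F, ‖x‖ + ∑ y ∈ G, ‖y‖ with hM
  have hM0 : 0 ≤ M := by positivity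
  have hMF : ∀ x ∈ F, ‖x‖ ≤ M := by
    intro x hx
    have h1 : ‖x‖ ≤ ∑ x ∈ F, ‖x‖ := Finset.single_le_sum (fun z _ => norm_nonneg z) hx
    have h2 : 0 ≤ ∑ y ∈ G, ‖y‖ := Finset.sum_nonneg fun y _ => norm_nonneg y
    linarith
  have hMG : ∀ y ∈ G, ‖y‖ ≤ M := by
    intro y hy
    have h1 : ‖y‖ ≤ ∑ y ∈ G, ‖y‖ :=
      Finset.single_le_sum (f := fun y : ell ℂ p →L[ℂ] ℂ => ‖y‖) (fun z _ => norm_nonneg z) hy
    have h2 : 0 ≤ ∑ x ∈ F, ‖x‖ := Finset.sum_nonneg fun y _ => norm_nonneg y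
    linarith
  set δ : ℝ := min (1 / 2) (ε / (8 * (M + 1))) with hδ
  have hδ0 : 0 < δ := lt_min (by norm_num) (by positivity)
  have hδ1 : δ ≤ 1 / 2 := min_le_left _ _
  have hδM : ∀ a : ℝ, 0 ≤ a → a ≤ M → δ * a ≤ ε / 8 := by
    intro a ha haM
    calc δ * a ≤ (ε / (8 * (M + 1))) * (M + 1) := by
          gcongr
          · exact min_le_right _ _
          · linarith
      _ = ε / 8 := by field_simp
  set ε' : ℝ := min (ε / 8) ε0 with hε'
  have hε'0 : 0 < ε' := lt_min (by positivity) hε0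
  have hε'8 : ε' ≤ ε / 8 := min_le_left _ _
  have hF' : ∀ᶠ n in atTop, ∀ x ∈ F ∪ F.image (fun x => T.op x) ∪ {x0}, ‖x - Pn ℂ p n x‖ < ε' := by
    rw [Filter.eventually_all_finset]
    intro x _
    have := (Pn_tendsto htop x).eventually (Metric.ball_mem_nhds x hε'0)
    filter_upwards [this] with n hn
    rw [dist_eq_norm, norm_sub_rev] at hn
    exact hn
  have hG' : ∀ᶠ n in atTop, ∀ y ∈ G ∪ G.image (fun y => y.comp T.op) ∪ {y0}, ‖tl y n‖ < ε' := by
    rw [Filter.eventually_all_finset]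
    intro y _
    exact tl_tendsto h1p htop y _ hε'0
  obtain ⟨N, ⟨hF', hG'⟩, hN⟩ := ((hF'.and hG').and (eventually_gt_atTop 0)).exists
  have hB := blk (p := p) htop N
  set J := JJ p N with hJ
  set R := RQ p htop N with hR
  set P : ell ℂ p →L[ℂ] ell ℂ p := Pn ℂ p N with hP
  have hPx : ∀ x, P x = J 0 (R 0 x) := fun x => (JR htop N x).symm
  have hPle : ∀ x, ‖P x‖ ≤ ‖x‖ := fun x => Pn_le htop N x
  have hFx : ∀ x ∈ F, ‖x - P x‖ < ε' := fun x hx => hF' x (by simp [hx])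
  have hFTx : ∀ x ∈ F, ‖T.op x - P (T.op x)‖ < ε' := fun x hx => hF' _ (by
    simp only [Finset.mem_union, Finset.mem_image, Finset.mem_singleton]
    exact Or.inl (Or.inr ⟨x, hx, rfl⟩))
  have hGy : ∀ y ∈ G, ‖y - y.comp P‖ < ε' :=
    fun y hy => hG' y (by simp [hy])
  have hGTy : ∀ y ∈ G, ‖y.comp T.op - (y.comp T.op).comp P‖ < ε' :=
    fun y hy => hG' _ (by
      simp only [Finset.mem_union, Finset.mem_image, Finset.mem_singleton]
      exact Or.inl (Or.inr ⟨y, hy, rfl⟩))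
  have hPn : ‖P‖ ≤ 1 := P.opNorm_le_bound zero_le_one fun x => by rw [one_mul]; exact hPle x
  -- the operator `t0`
  set t1 : ellm ℂ p N →L[ℂ] ellm ℂ p N := (R 0).comp (T.op.comp (J 0)) with ht1
  have ht1n : ‖t1‖ ≤ 1 := by
    apply t1.opNorm_le_bound zero_le_one
    intro v
    have e : t1 v = R 0 (T.op (J 0 v)) := rfl
    rw [e, one_mul]
    calc _ ≤ ‖T.op (J 0 v)‖ := hB.R_le hp 0 _
      _ ≤ ‖J 0 v‖ := T.app_le _
      _ ≤ ‖v‖ := hB.J_le hp 0 _
  have ht1pos : ∀ i j, 0 ≤ t1 (PiLp.single p j (1:ℂ)) i := by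
    intro i j
    refine RQ_nn htop 0 _ (T.pos _ (JJ_nn 0 _ ?_)) i
    intro k
    rw [PiLp.single_apply]
    split_ifs
    · exact zero_le_one
    · exact le_rfl
  set A0 : Matrix (Fin N) (Fin N) ℝ := fun i j => (1 - δ) * (t1 (PiLp.single p j (1:ℂ)) i).re
    with hA0
  have hA0n : ∀ i j, 0 ≤ A0 i j := fun i j => mul_nonneg (by linarith) (ht1pos i j).1
  set t0 : ellm ℂ p N →L[ℂ] ellm ℂ p N := ((1 - δ : ℝ) : ℂ) • t1 with ht0
  have ht0A : t0 = opM p N (cm A0) := by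
    rw [opM_of t0]
    congr 1
    ext i j
    have e : t0 (PiLp.single p j (1:ℂ)) i = ((1 - δ : ℝ) : ℂ) * t1 (PiLp.single p j (1:ℂ)) i := rfl
    have e2 : (cm A0) i j = ((A0 i j : ℝ) : ℂ) := rfl
    rw [e, e2, hA0]
    simp only
    push_cast
    congr 1
    apply Complex.ext
    · simp
    · have := (ht1pos i j).2
      simpa using this.symm
  have ht0n : ‖t0‖ ≤ 1 - δ := by
    rw [ht0, norm_smul, Complex.norm_real, Real.norm_of_nonneg (by linarith)]
    calc (1 - δ) * ‖t1‖ ≤ (1 - δ) * 1 := by gcongr; linarith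
      _ = 1 - δ := mul_one _
  obtain ⟨A, hA, hAs, ht⟩ := exists_mat (p := p) A0 hA0n (δ / 2) (by positivity)
  rw [← ht0A] at ht
  set t : ellm ℂ p N →L[ℂ] ellm ℂ p N := opM p N (cm A) with htd
  have htn : ‖t‖ < 1 := by
    have : ‖t‖ ≤ ‖t - t0‖ + ‖t0‖ := by
      calc ‖t‖ = ‖(t - t0) + t0‖ := by rw [sub_add_cancel]
        _ ≤ _ := norm_add_le _ _
    linarith
  -- comparison
  have hRJ : ∀ v, R 0 (J 0 v) = v := fun v => hB.rj 0 v
  have hPTP : ∀ x, J 0 (t0 (R 0 x)) = ((1 - δ : ℝ) : ℂ) • P (T.op (P x)) := by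
    intro x
    have e : t0 (R 0 x) = ((1 - δ : ℝ) : ℂ) • R 0 (T.op (J 0 (R 0 x))) := rfl
    rw [e, map_smul, hPx (T.op (P x)), hPx x]
  have hts : ∀ x : ell ℂ p, ‖x‖ ≤ M → ‖t - t0‖ * ‖x‖ ≤ ε / 8 := by
    intro x hx
    calc ‖t - t0‖ * ‖x‖ ≤ δ * ‖x‖ := by gcongr; linarith
      _ ≤ ε / 8 := hδM _ (norm_nonneg _) hx
  refine ⟨N, A, hN, hA, hAs, htn, fun s hs => ?_, ?_, ?_⟩
  · refine ⟨(hB.bOp_le hp s t).trans htn.le, pos_bOp htop s A (fun i j => (hA i j).le),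
      hFG _ (fun x hx => ?_) (fun y hy => ?_)⟩
    · rw [mkP_op]
      have hxM := hMF x hx
      have e1 : bOp J R s t x - T.op x = bOp J R s t (x - P x)
          + (J 0 ((t - t0) (R 0 x)))
          + ((P (T.op (P x - x))) - (T.op x - P (T.op x)) - (δ : ℂ) • P (T.op (P x))) := by
        have a1 : bOp J R s t (P x) = J 0 (t (R 0 x)) := by
          rw [hPx, hB.bOp_J s t 0 hs]
        have a2 : J 0 ((t - t0) (R 0 x)) = J 0 (t (R 0 x)) - J 0 (t0 (R 0 x)) := by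
          rw [_root_.sub_apply, map_sub]
        rw [map_sub, a1, a2, hPTP, map_sub, map_sub]
        push_cast
        rw [sub_smul, one_smul]
        abel
      have b1 : ‖bOp J R s t (x - P x)‖ ≤ ε / 8 := by
        calc _ ≤ ‖t‖ * ‖x - P x‖ := hB.bOp_app_le hp s t _
          _ ≤ 1 * ε' := by
              gcongr
              exact (hFx x hx).le
          _ ≤ ε / 8 := by linarith
      have b2 : ‖J 0 ((t - t0) (R 0 x))‖ ≤ ε / 8 := by
        calc _ ≤ ‖(t - t0) (R 0 x)‖ := hB.J_le hp 0 _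
          _ ≤ ‖t - t0‖ * ‖R 0 x‖ := (t - t0).le_opNorm _
          _ ≤ ‖t - t0‖ * ‖x‖ := by
              gcongr
              exact hB.R_le hp 0 x
          _ ≤ ε / 8 := hts x hxM
      have b3 : ‖P (T.op (P x - x))‖ ≤ ε / 8 := by
        calc _ ≤ ‖T.op (P x - x)‖ := hPle _
          _ ≤ ‖P x - x‖ := T.app_le _
          _ = ‖x - P x‖ := norm_sub_rev _ _
          _ ≤ ε' := (hFx x hx).le
          _ ≤ ε / 8 := hε'8
      have b4 : ‖T.op x - P (T.op x)‖ ≤ ε / 8 := (hFTx x hx).le.trans hε'8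
      have b5 : ‖(δ : ℂ) • P (T.op (P x))‖ ≤ ε / 8 := by
        rw [norm_smul, Complex.norm_real, Real.norm_of_nonneg hδ0.le]
        calc δ * ‖P (T.op (P x))‖ ≤ δ * ‖x‖ := by
              gcongr
              exact (hPle _).trans ((T.app_le _).trans (hPle _))
          _ ≤ ε / 8 := hδM _ (norm_nonneg _) hxM
      rw [e1]
      calc _ ≤ ‖bOp J R s t (x - P x)‖ + ‖J 0 ((t - t0) (R 0 x))‖
            + (‖P (T.op (P x - x))‖ + ‖T.op x - P (T.op x)‖ + ‖(δ : ℂ) • P (T.op (P x))‖) := by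
            refine (norm_add_le _ _).trans (add_le_add (norm_add_le _ _) ?_)
            exact (norm_sub_le _ _).trans (add_le_add (norm_sub_le _ _) le_rfl)
        _ ≤ ε / 8 + ε / 8 + (ε / 8 + ε / 8 + ε / 8) := by gcongr
        _ < ε := by linarith
    · rw [mkP_op]
      have hyM := hMG y hy
      refine lt_of_le_of_lt (b := 5 * (ε / 8)) ?_ (by linarith)
      apply ContinuousLinearMap.opNorm_le_bound _ (by positivity)
      intro x
      have e1 : (y.comp (bOp J R s t) - y.comp T.op) x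
          = (y - y.comp P) (bOp J R s t x) + y (J 0 ((t - t0) (R 0 x)))
            + ((-((y - y.comp P) (T.op (P x)))) - ((y.comp T.op - (y.comp T.op).comp P) x)
              - (δ : ℂ) * y (P (T.op (P x)))) := by
        have a1 : P (bOp J R s t x) = J 0 (t (R 0 x)) := by
          rw [hPx, hB.R_bOp, if_pos hs]
        have a2 : J 0 ((t - t0) (R 0 x)) = J 0 (t (R 0 x)) - J 0 (t0 (R 0 x)) := by
          rw [_root_.sub_apply, map_sub]
        rw [a2]
        simp only [_root_.sub_apply, ContinuousLinearMap.comp_apply]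
        rw [a1, hPTP, map_sub, map_smul]
        push_cast
        rw [smul_eq_mul]
        ring
      have b1 : ‖(y - y.comp P) (bOp J R s t x)‖ ≤ ε / 8 * ‖x‖ := by
        calc _ ≤ ‖y - y.comp P‖ * ‖bOp J R s t x‖ := ContinuousLinearMap.le_opNorm _ _
          _ ≤ ε' * (‖t‖ * ‖x‖) := by
              gcongr
              · exact (hGy y hy).le
              · exact hB.bOp_app_le hp s t x
          _ ≤ ε / 8 * (1 * ‖x‖) := by gcongr
          _ = ε / 8 * ‖x‖ := by ring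
      have b2 : ‖y (J 0 ((t - t0) (R 0 x)))‖ ≤ ε / 8 * ‖x‖ := by
        calc _ ≤ ‖y‖ * ‖J 0 ((t - t0) (R 0 x))‖ := y.le_opNorm _
          _ ≤ M * (‖t - t0‖ * ‖x‖) := by
              gcongr
              calc _ ≤ ‖(t - t0) (R 0 x)‖ := hB.J_le hp 0 _
                _ ≤ ‖t - t0‖ * ‖R 0 x‖ := (t - t0).le_opNorm _
                _ ≤ ‖t - t0‖ * ‖x‖ := by gcongr; exact hB.R_le hp 0 x
          _ ≤ M * (δ * ‖x‖) := by gcongr; linarith
          _ = (δ * M) * ‖x‖ := by ring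
          _ ≤ ε / 8 * ‖x‖ := by gcongr; exact hδM M hM0 le_rfl
      have b3 : ‖(y - y.comp P) (T.op (P x))‖ ≤ ε / 8 * ‖x‖ := by
        calc _ ≤ ‖y - y.comp P‖ * ‖T.op (P x)‖ := ContinuousLinearMap.le_opNorm _ _
          _ ≤ ε' * ‖x‖ := by
              gcongr
              · exact (hGy y hy).le
              · exact (T.app_le _).trans (hPle _)
          _ ≤ ε / 8 * ‖x‖ := by gcongr
      have b4 : ‖(y.comp T.op - (y.comp T.op).comp P) x‖ ≤ ε / 8 * ‖x‖ := by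
        calc _ ≤ ‖y.comp T.op - (y.comp T.op).comp P‖ * ‖x‖ := ContinuousLinearMap.le_opNorm _ _
          _ ≤ ε' * ‖x‖ := by
              gcongr
              exact (hGTy y hy).le
          _ ≤ ε / 8 * ‖x‖ := by gcongr
      have b5 : ‖(δ : ℂ) * y (P (T.op (P x)))‖ ≤ ε / 8 * ‖x‖ := by
        rw [norm_mul, Complex.norm_real, Real.norm_of_nonneg hδ0.le]
        calc δ * ‖y (P (T.op (P x)))‖ ≤ δ * (M * ‖x‖) := by
              gcongr
              calc _ ≤ ‖y‖ * ‖P (T.op (P x))‖ := y.le_opNorm _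
                _ ≤ M * ‖x‖ := by
                    gcongr
                    exact (hPle _).trans ((T.app_le _).trans (hPle _))
          _ = (δ * M) * ‖x‖ := by ring
          _ ≤ ε / 8 * ‖x‖ := by gcongr; exact hδM M hM0 le_rfl
      rw [e1]
      calc _ ≤ ε / 8 * ‖x‖ + ε / 8 * ‖x‖ + (ε / 8 * ‖x‖ + ε / 8 * ‖x‖ + ε / 8 * ‖x‖) := by
            refine (norm_add_le _ _).trans (add_le_add ((norm_add_le _ _).trans
              (add_le_add b1 b2)) ?_)
            refine (norm_sub_le _ _).trans (add_le_add ((norm_sub_le _ _).trans ?_) b5)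
            rw [norm_neg]
            exact add_le_add b3 b4
        _ = 5 * (ε / 8) * ‖x‖ := by ring
  · exact (hF' x0 (by simp)).trans_le (min_le_right _ _)
  · exact (hG' y0 (by simp)).trans_le (min_le_right _ _)

/-- small positive perturbations stay in an open set -/
theorem perturbP (U : Set (PosContr p)) (hU : IsOpen U) (T : PosContr p) (hT : T ∈ U)
    (hT1 : ‖T.op‖ < 1) (NN : ell ℂ p →L[ℂ] ell ℂ p) (hNN : PosOp NN) :
    ∃ (κ : ℝ), 0 < κ ∧ ∃ h h', mkP (T.op + (κ : ℂ) • NN) h h' ∈ U := by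
  obtain ⟨W, hW, rfl⟩ := isInducing_toC.isOpen_iff.1 hU
  obtain ⟨κ, hκ, h, hmem⟩ := perturb W hW T.toC hT hT1 NN
  exact ⟨κ, hκ, h, T.pos.add (hNN.smul κ hκ.le), hmem⟩

end Pool.Agent.W660.TP
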