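import Pool.Agent.W660.TP.Op2

/-! The one-step chain with a positive operator. -/

set_option autoImplicit false
open Polynomial Matrix Filter Topology ENNReal
open scoped ComplexOrder

namespace Pool.Agent.W660.TP

open Pool.Agent.W736.TC

variable {N : ℕ} {p : ℝ≥0∞} [Fact (1 ≤ p)] {X : Type} [NormedAddCommGroup X] [NormedSpace ℂ X]

/-- nonnegative functionals -/
def NNf (f : ellm ℂ p N →L[ℂ] ℂ) : Prop := ∀ i, 0 ≤ f (PiLp.single p i (1:ℂ))

theorem ofLp_opM (B : Matrix (Fin N) (Fin N) ℂ) (v : ellm ℂ p N) :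
    WithLp.ofLp (opM p N B v) = B.mulVec (WithLp.ofLp v) := rfl

theorem pow_R {pr : ℝ} {J : ℕ → ellm ℂ p N →L[ℂ] X} {R : ℕ → X →L[ℂ] ellm ℂ p N}
    (h : Blk pr J R) (s : Finset ℕ) (t : ellm ℂ p N →L[ℂ] ellm ℂ p N) (k : ℕ) (hk : k ∈ s)
    (n : ℕ) (x : X) : R k (((bOp J R s t) ^ n) x) = (t ^ n) (R k x) := by
  induction n generalizing x with
  | zero => simp
  | succ n ih =>
    rw [pow_succ, pow_succ]
    show R k (((bOp J R s t) ^ n) (bOp J R s t x)) = (t ^ n) (t (R k x))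
    rw [ih, h.R_bOp, if_pos hk]

/-- The chain for block operators with a positive matrix. -/
theorem chain_pos (hN : 0 < N) {pr : ℝ} {J : ℕ → ellm ℂ p N →L[ℂ] X}
    {R : ℕ → X →L[ℂ] ellm ℂ p N} (h : Blk pr J R) (A : Matrix (Fin N) (Fin N) ℝ)
    (hA : ∀ i j, 0 < A i j) (hs : (xchi A).Separable) (s s' : Finset ℕ) (hss : s' ⊆ s) (m : ℕ)
    (hm : m ∈ s) (hms : m ∉ s') (x : X) (yk : ℕ → (ellm ℂ p N →L[ℂ] ℂ))
    (hyk : ∀ k ∈ s', NNf (yk k))
    (hxy : ∀ q : ℂ[X], (∑ k ∈ s', (yk k).comp (R k))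
      ((aeval (bOp J R s (opM p N (cm A))) q) x) = 0) :
    ∃ M : ℕ → Matrix (Fin N) (Fin N) ℝ, (∀ k ∈ s', ∀ i j, 0 ≤ M k i j) ∧
      ∀ κ : ℝ, 0 < κ → ∀ ρ : ℝ, 0 < ρ →
      RR ρ (bOp J R s (opM p N (cm A)) + (κ : ℂ) •
        ((J m).comp (∑ k ∈ s', (opM p N (cm (M k))).comp (R k)))) x
        (∑ k ∈ s', (yk k).comp (R k)) := by
  classical
  set t : ellm ℂ p N →L[ℂ] ellm ℂ p N := opM p N (cm A) with ht
  set τ : X →L[ℂ] X := bOp J R s t with hτ
  obtain ⟨z, M, hM1, hM2, hM3, hcyc⟩ := pf_main hN A hA hs s'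
    (fun k i => (yk k (PiLp.single p i (1:ℂ))).re) (fun k hk i => (hyk k hk i).1)
  refine ⟨M, hM2, fun κ hκ ρ hρ => ?_⟩
  set T : X →L[ℂ] ellm ℂ p N := ∑ k ∈ s', (opM p N (cm (M k))).comp (R k) with hT
  set NN : X →L[ℂ] X := (J m).comp T with hNN
  set zc : ellm ℂ p N →L[ℂ] ℂ := mkF p (fun i => (z i : ℂ)) with hzc
  have hTx : ∀ v, T v = ∑ k ∈ s', opM p N (cm (M k)) (R k v) := by
    intro v
    simp [hT]
  -- `zc ∘ M k = y k`
  have hzM : ∀ k ∈ s', ∀ v, zc (opM p N (cm (M k)) v) = yk k v := by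
    intro k hk v
    have h1 : zc (opM p N (cm (M k)) v) = ∑ i, ((vecMul z (M k) i : ℝ) : ℂ) * v i := by
      rw [hzc, mkF_apply, vecMul_c]
      rfl
    rw [h1, hM1 k hk]
    conv_rhs => rw [mkF_of (yk k)]
    rw [mkF_apply]
    refine Finset.sum_congr rfl fun i _ => ?_
    congr 1
    have h2 := (hyk k hk i).2
    apply Complex.ext
    · simp
    · simpa using h2
  have hzT : ∀ v, zc (T v) = (∑ k ∈ s', (yk k).comp (R k)) v := by
    intro v
    rw [hTx, map_sum]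
    rw [_root_.sum_apply]
    exact Finset.sum_congr rfl fun k hk => hzM k hk _
  have hcm : ∀ k, opM p N (cm (M k)) * t = t * opM p N (cm (M k)) := by
    intro k
    rw [ht, ← map_mul, ← map_mul, ← cm_mul, ← cm_mul, hM3]
  have hTτ : ∀ v, T (τ v) = t (T v) := by
    intro v
    rw [hTx, hTx, map_sum]
    refine Finset.sum_congr rfl fun k hk => ?_
    rw [hτ, h.R_bOp, if_pos (hss hk)]
    exact congrArg (fun B : ellm ℂ p N →L[ℂ] ellm ℂ p N => B (R k v)) (hcm k)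
  have hTpow : ∀ (n : ℕ) v, T ((τ ^ n) v) = (t ^ n) (T v) := by
    intro n
    induction n with
    | zero => intro v; simp
    | succ n ih =>
      intro v
      rw [pow_succ, pow_succ]
      show T ((τ ^ n) (τ v)) = (t ^ n) (t (T v))
      rw [ih, hTτ]
  have hTx0 : T x = 0 := by
    have h1 : WithLp.ofLp (T x) = 0 := by
      apply hcyc
      intro n
      have h2 := hxy (Polynomial.X ^ n)
      rw [aeval_X_pow, ← hzT, hTpow, hzc, mkF_apply] at h2
      rw [← h2]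
      refine Finset.sum_congr rfl fun i _ => ?_
      congr 1
      rw [ht, ← map_pow]
      rfl
    ext i
    exact congrFun h1 i
  have hcomm : τ * NN = NN * τ := by
    ext v
    show τ (J m (T v)) = J m (T (τ v))
    rw [hTτ, hτ, h.bOp_J s t m hm]
  have hTJ : ∀ a, T (J m a) = 0 := by
    intro a
    rw [hTx]
    refine Finset.sum_eq_zero fun k hk => ?_
    rw [h.rj' k m (fun e => hms (e ▸ hk)), map_zero]
  have hNN2 : NN * NN = 0 := by
    ext v
    show J m (T (J m (T v))) = 0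
    rw [hTJ, map_zero]
  -- the polynomial
  set μ : ℂ[X] := (xchi A).map (algebraMap ℝ ℂ) with hμ
  have hμs : μ.Separable := hs.map
  obtain ⟨a, b, hab⟩ := hμs
  have hμe : μ = Polynomial.X * (cm A).charpoly := by
    rw [hμ, xchi_map]
    rfl
  have hμt : aeval t μ = 0 := by
    rw [hμe, ht, opM_aeval, map_mul, aeval_self_charpoly, mul_zero, map_zero]
  have hμ0 : μ.eval 0 = 0 := by
    rw [hμe, eval_mul, eval_X, zero_mul]
  have hμτ : aeval τ μ = 0 := by
    rw [hτ, h.aeval_bOp, hμ0, hμt, zero_smul, zero_add]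
    ext v
    simp [bOp_apply]
  have hbt : ∀ v, (aeval t b) ((aeval t (derivative μ)) v) = v := by
    intro v
    have h1 := congrArg (aeval t) hab
    rw [map_add, map_mul, map_mul, hμt, mul_zero, zero_add, map_one] at h1
    exact congrArg (fun B : ellm ℂ p N →L[ℂ] ellm ℂ p N => B v) h1
  have hκ' : (κ : ℂ) ≠ 0 := by exact_mod_cast hκ.ne'
  have hmu : aeval (τ + (κ : ℂ) • NN) μ = (κ : ℂ) • (aeval τ (derivative μ) * NN) := by
    rw [aeval_add_nil τ ((κ : ℂ) • NN) (by rw [mul_smul_comm, smul_mul_assoc, hcomm])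
      (by rw [smul_mul_smul_comm, hNN2, smul_zero]), hμτ, zero_add, mul_smul_comm]
  have hmuv : ∀ v, (aeval (τ + (κ : ℂ) • NN) μ) v
      = (κ : ℂ) • J m ((aeval t (derivative μ)) (T v)) := by
    intro v
    rw [hmu]
    show (κ : ℂ) • (aeval τ (derivative μ)) (J m (T v)) = _
    rw [hτ, h.aeval_J s t _ m hm]
  refine ⟨μ, (κ : ℂ)⁻¹ • (zc.comp ((aeval t b).comp (R m))), ?_, ?_⟩
  · have : (∑ k ∈ s', (yk k).comp (R k)) - ((κ : ℂ)⁻¹ • (zc.comp ((aeval t b).comp (R m)))).comp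
        (aeval (τ + (κ : ℂ) • NN) μ) = 0 := by
      rw [sub_eq_zero]
      ext v
      rw [← hzT]
      show zc (T v) = (κ : ℂ)⁻¹ * zc ((aeval t b) (R m ((aeval (τ + (κ : ℂ) • NN) μ) v)))
      rw [hmuv, map_smul, h.rj, map_smul, hbt, map_smul, smul_eq_mul, ← mul_assoc,
        inv_mul_cancel₀ hκ', one_mul]
    rw [this, norm_zero]
    exact hρ
  · rw [hmuv, hTx0, map_zero, map_zero, smul_zero, norm_zero, zero_mul]
    exact hρ

end Pool.Agent.W660.TP
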