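import Mathlib
import Pool.Agent.W736.TC.Typical
import Pool.Agent.W736.TC.Ell

/-! Positive contractions of `ℓ_p` and their topologies. -/

set_option autoImplicit false
open Filter Topology ENNReal
open scoped ComplexOrder

namespace Pool.Agent.W660.TP

open Pool.Agent.W736.TC

variable {p : ℝ≥0∞} [Fact (1 ≤ p)]

/-- `T` maps nonnegative sequences to nonnegative sequences. -/
def PosOp (T : ell ℂ p →L[ℂ] ell ℂ p) : Prop :=
  ∀ x : ell ℂ p, (∀ n, 0 ≤ x n) → ∀ n, 0 ≤ T x n

/-- The positive contractions of `ℓ_p`. -/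
def PosContr (p : ℝ≥0∞) [Fact (1 ≤ p)] : Type :=
  {T : ell ℂ p →L[ℂ] ell ℂ p // ‖T‖ ≤ 1 ∧ PosOp T}

/-- The operator. -/
def PosContr.op (T : PosContr p) : ell ℂ p →L[ℂ] ell ℂ p := T.1

/-- The weak operator topology: the coarsest topology for which all the maps `T ↦ y (T x)` are
continuous. -/
noncomputable abbrev wot (p : ℝ≥0∞) [Fact (1 ≤ p)] : TopologicalSpace (PosContr p) :=
  TopologicalSpace.induced
    (fun (T : PosContr p) (a : ell ℂ p × (ell ℂ p →L[ℂ] ℂ)) => a.2 (T.op a.1)) inferInstance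

/-- The strong* operator topology: the coarsest topology for which all the maps `T ↦ T x` and
`T ↦ y ∘ T` (norm topologies) are continuous. -/
noncomputable abbrev sots (p : ℝ≥0∞) [Fact (1 ≤ p)] : TopologicalSpace (PosContr p) :=
  TopologicalSpace.induced
    (fun T : PosContr p => ((fun x : ell ℂ p => T.op x),
      (fun y : ell ℂ p →L[ℂ] ℂ => y.comp T.op))) inferInstance

noncomputable instance : TopologicalSpace (PosContr p) := sots p

/-- the underlying contraction -/
noncomputable def PosContr.toC (T : PosContr p) : Contr (ell ℂ p) := mkC T.1 T.2.1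

theorem toC_op (T : PosContr p) : T.toC.op = T.op := rfl

theorem PosContr.pos (T : PosContr p) : PosOp T.op := T.2.2

/-- the constructor -/
def mkP (T : ell ℂ p →L[ℂ] ell ℂ p) (h : ‖T‖ ≤ 1) (h' : PosOp T) : PosContr p := ⟨T, h, h'⟩

@[simp] theorem mkP_op (T : ell ℂ p →L[ℂ] ell ℂ p) (h : ‖T‖ ≤ 1) (h' : PosOp T) :
    (mkP T h h').op = T := rfl

theorem isInducing_toC : IsInducing (PosContr.toC : PosContr p → Contr (ell ℂ p)) := by
  constructor
  show sots p = TopologicalSpace.induced _ (TopologicalSpace.induced _ _)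
  rw [induced_compose]
  rfl

theorem exists_nbhdP (U : Set (PosContr p)) (hU : IsOpen U) (T : PosContr p) (hT : T ∈ U) :
    ∃ (F : Finset (ell ℂ p)) (G : Finset (ell ℂ p →L[ℂ] ℂ)) (ε : ℝ), 0 < ε ∧
      ∀ T' : PosContr p,
      (∀ x ∈ F, ‖T'.op x - T.op x‖ < ε) → (∀ y ∈ G, ‖y.comp T'.op - y.comp T.op‖ < ε) →
      T' ∈ U := by
  obtain ⟨W, hW, rfl⟩ := isInducing_toC.isOpen_iff.1 hU
  obtain ⟨F, G, ε, hε, h⟩ := exists_nbhd W hW T.toC hT
  exact ⟨F, G, ε, hε, fun T' h1 h2 => h T'.toC h1 h2⟩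

theorem isOpen_RRP (ρ : ℝ) (x : ell ℂ p) (y : ell ℂ p →L[ℂ] ℂ) :
    IsOpen {T : PosContr p | RR ρ T.op x y} :=
  (isOpen_RR ρ x y).preimage isInducing_toC.continuous

theorem PosContr.norm_le (T : PosContr p) : ‖T.op‖ ≤ 1 := T.2.1

theorem PosContr.app_le (T : PosContr p) (x : ell ℂ p) : ‖T.op x‖ ≤ ‖x‖ := T.toC.app_le x

theorem PosOp.add {S T : ell ℂ p →L[ℂ] ell ℂ p} (hS : PosOp S) (hT : PosOp T) :
    PosOp (S + T) := fun x hx n => by
  have : (S + T) x n = S x n + T x n := rfl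
  rw [this]
  exact add_nonneg (hS x hx n) (hT x hx n)

theorem PosOp.smul {T : ell ℂ p →L[ℂ] ell ℂ p} (hT : PosOp T) (c : ℝ) (hc : 0 ≤ c) :
    PosOp ((c : ℂ) • T) := fun x hx n => by
  have : ((c : ℂ) • T) x n = (c : ℂ) * T x n := rfl
  rw [this]
  exact mul_nonneg (Complex.zero_le_real.2 hc) (hT x hx n)

theorem single_nn (i : ℕ) (a : ℂ) (ha : 0 ≤ a) (n : ℕ) : 0 ≤ (lp.single p i a : ell ℂ p) n := by
  rw [lp.single_apply, Pi.single_apply]
  split_ifs
  · exact ha
  · exact le_rfl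

/-- the set of the positive operators is closed under norm-pointwise limits -/
theorem isClosed_range_toC : IsClosed (Set.range (PosContr.toC : PosContr p → Contr (ell ℂ p))) := by
  have : Set.range (PosContr.toC : PosContr p → Contr (ell ℂ p))
      = ⋂ (x : ell ℂ p) (_ : ∀ n, 0 ≤ x n) (n : ℕ), {T : Contr (ell ℂ p) | 0 ≤ T.op x n} := by
    ext T
    simp only [Set.mem_range, Set.mem_iInter, Set.mem_ofPred_eq]
    constructor
    · rintro ⟨S, rfl⟩ x hx n
      exact S.pos x hx n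
    · intro h
      exact ⟨⟨T.1, T.2, h⟩, rfl⟩
  rw [this]
  refine isClosed_iInter fun x => isClosed_iInter fun _ => isClosed_iInter fun n => ?_
  have hc : Continuous (fun T : Contr (ell ℂ p) => T.op x n) :=
    (lp.evalCLM ℂ (fun _ : ℕ => ℂ) p n).continuous.comp (continuous_app x)
  have hcl : IsClosed {z : ℂ | 0 ≤ z} := by
    have : {z : ℂ | 0 ≤ z} = {z : ℂ | 0 ≤ z.re} ∩ {z : ℂ | 0 = z.im} := by
      ext z
      exact Complex.le_def
    rw [this]
    exact (isClosed_le continuous_const Complex.continuous_re).inter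
      (isClosed_eq continuous_const Complex.continuous_im)
  exact hcl.preimage hc

theorem toC_inj : Function.Injective (PosContr.toC : PosContr p → Contr (ell ℂ p)) := by
  intro S T h
  apply Subtype.ext
  exact congrArg Contr.op h

theorem isClosedEmbedding_toC :
    IsClosedEmbedding (PosContr.toC : PosContr p → Contr (ell ℂ p)) :=
  ⟨⟨isInducing_toC, toC_inj⟩, isClosed_range_toC⟩

end Pool.Agent.W660.TP
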