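import Mathlib

/-! Real matrices with positive entries and simple nonzero spectrum are dense in the
nonnegative matrices. -/

set_option autoImplicit false
open Polynomial Matrix

namespace Pool.Agent.W660.TP

variable {N : ℕ}

/-- the segment between two matrices, with the variable as parameter -/
noncomputable def pathM (A D : Matrix (Fin N) (Fin N) ℝ) : Matrix (Fin N) (Fin N) ℝ[X] :=
  fun i j => (1 - X) * C (A i j) + X * C (D i j)

theorem pathM_eval (A D : Matrix (Fin N) (Fin N) ℝ) (s : ℝ) :
    (pathM A D).map (evalRingHom s) = (1 - s) • A + s • D := by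
  ext i j
  simp [pathM]
  ring

/-- the polynomial `X χ` -/
noncomputable def xchi {R : Type*} [CommRing R] (A : Matrix (Fin N) (Fin N) R) : R[X] :=
  X * A.charpoly

theorem xchi_map {R S : Type*} [CommRing R] [CommRing S] (A : Matrix (Fin N) (Fin N) R)
    (f : R →+* S) : (xchi A).map f = xchi (A.map f) := by
  rw [xchi, xchi, Polynomial.map_mul, Polynomial.map_X, Matrix.charpoly_map]

theorem xchi_natDegree (A : Matrix (Fin N) (Fin N) ℝ) : (xchi A).natDegree = N + 1 := by
  rw [xchi, natDegree_X_mul (A.charpoly_monic.ne_zero), charpoly_natDegree_eq_dim,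
    Fintype.card_fin]

theorem xchi_deriv_natDegree (A : Matrix (Fin N) (Fin N) ℝ) :
    (derivative (xchi A)).natDegree = N := by
  have h := degree_derivative (p := xchi A) (by rw [xchi_natDegree]; omega)
  rw [xchi_natDegree] at h
  exact natDegree_eq_of_degree_eq_some h

theorem xchi_ne_zero (A : Matrix (Fin N) (Fin N) ℝ) : xchi A ≠ 0 :=
  mul_ne_zero X_ne_zero A.charpoly_monic.ne_zero

theorem sep_iff (A : Matrix (Fin N) (Fin N) ℝ) : (xchi A).Separable ↔
    resultant (xchi A) (derivative (xchi A)) (N + 1) N ≠ 0 := by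
  have h := resultant_eq_zero_iff (f := xchi A) (g := derivative (xchi A))
  rw [xchi_natDegree, xchi_deriv_natDegree] at h
  rw [Ne, h, Polynomial.Separable]
  constructor
  · intro h1 h2
    exact h2.2 h1
  · intro h1
    by_contra h2
    exact h1 ⟨Or.inl (xchi_ne_zero A), h2⟩

/-- the resultant along the segment -/
noncomputable def resP (A D : Matrix (Fin N) (Fin N) ℝ) : ℝ[X] :=
  resultant (xchi (pathM A D)) (derivative (xchi (pathM A D))) (N + 1) N

theorem resP_eval (A D : Matrix (Fin N) (Fin N) ℝ) (s : ℝ) : (resP A D).eval s =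
    resultant (xchi ((1 - s) • A + s • D)) (derivative (xchi ((1 - s) • A + s • D))) (N + 1) N := by
  have h := resultant_map_map (xchi (pathM A D)) (derivative (xchi (pathM A D))) (N + 1) N
    (evalRingHom s)
  rw [← derivative_map, xchi_map, pathM_eval] at h
  rw [h]
  rfl

theorem sep_diag : (xchi (Matrix.diagonal (fun i : Fin N => ((i : ℕ) : ℝ) + 1))).Separable := by
  have h : xchi (Matrix.diagonal (fun i : Fin N => ((i : ℕ) : ℝ) + 1))
      = ∏ i ∈ Finset.range (N + 1), (X - C ((i : ℕ) : ℝ)) := by
    rw [xchi, charpoly_diagonal, Finset.prod_range_succ', Finset.prod_range, mul_comm]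
    simp
  rw [h, separable_prod_X_sub_C_iff']
  intro i _ j _ hij
  exact_mod_cast hij

/-- density -/
theorem exists_sep (A : Matrix (Fin N) (Fin N) ℝ) (hA : ∀ i j, 0 ≤ A i j) (η : ℝ) (hη : 0 < η) :
    ∃ B : Matrix (Fin N) (Fin N) ℝ, (∀ i j, 0 < B i j) ∧ (∀ i j, |B i j - A i j| ≤ η) ∧
      (xchi B).Separable := by
  classical
  set D : Matrix (Fin N) (Fin N) ℝ := Matrix.diagonal (fun i : Fin N => ((i : ℕ) : ℝ) + 1) with hD
  set A1 : Matrix (Fin N) (Fin N) ℝ := fun i j => A i j + η / 2 with hA1
  have h1 : (resP A1 D).eval 1 ≠ 0 := by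
    rw [resP_eval, ← sep_iff]
    simpa using (sep_diag (N := N))
  have h0 : resP A1 D ≠ 0 := by
    intro h
    rw [h] at h1
    simp at h1
  set M : ℝ := ∑ i, ∑ j, (|A1 i j| + |D i j|) with hM
  have hM0 : 0 ≤ M := by positivity
  have hMij : ∀ i j, |A1 i j| + |D i j| ≤ M := by
    intro i j
    calc |A1 i j| + |D i j| ≤ ∑ j, (|A1 i j| + |D i j|) :=
          Finset.single_le_sum (f := fun j => |A1 i j| + |D i j|) (fun _ _ => by positivity)
            (Finset.mem_univ j)
      _ ≤ M := Finset.single_le_sum (f := fun i => ∑ j, (|A1 i j| + |D i j|))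
            (fun _ _ => by positivity) (Finset.mem_univ i)
  set s1 : ℝ := min 1 (η / (4 * (M + 1))) with hs1
  have hs10 : 0 < s1 := lt_min one_pos (by positivity)
  obtain ⟨s, hs, hsr⟩ : ∃ s ∈ Set.Ioo 0 s1, s ∉ ((resP A1 D).roots.toFinset : Set ℝ) :=
    (Set.Ioo_infinite hs10).exists_notMem_finset _
  have hsr' : (resP A1 D).eval s ≠ 0 := by
    intro h
    apply hsr
    rw [Finset.mem_coe, Multiset.mem_toFinset, mem_roots h0]
    exact h
  have hs1' : s ≤ 1 := hs.2.le.trans (min_le_left _ _)
  have hsM : s * M ≤ η / 4 := by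
    calc s * M ≤ (η / (4 * (M + 1))) * (M + 1) := by
          have := hs.2.le.trans (min_le_right _ _)
          have := hs.1
          gcongr
          linarith
      _ = η / 4 := by field_simp
  refine ⟨(1 - s) • A1 + s • D, fun i j => ?_, fun i j => ?_, ?_⟩
  · have e : ((1 - s) • A1 + s • D) i j = A i j + η / 2 + s * (D i j - A1 i j) := by
      simp [hA1]
      ring
    have hb : |s * (D i j - A1 i j)| ≤ η / 4 := by
      rw [abs_mul, abs_of_pos hs.1]
      refine le_trans ?_ hsM
      have := hMij i j
      have h3 := abs_sub (D i j) (A1 i j)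
      have := hs.1
      gcongr
      linarith
    have := (abs_le.1 hb).1
    rw [e]
    linarith [hA i j]
  · have e : ((1 - s) • A1 + s • D) i j - A i j = η / 2 + s * (D i j - A1 i j) := by
      simp [hA1]
      ring
    have hb : |s * (D i j - A1 i j)| ≤ η / 4 := by
      rw [abs_mul, abs_of_pos hs.1]
      refine le_trans ?_ hsM
      have := hMij i j
      have h3 := abs_sub (D i j) (A1 i j)
      have := hs.1
      gcongr
      linarith
    have := abs_le.1 hb
    rw [e, abs_le]
    constructor <;> linarith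
  · rw [sep_iff, ← resP_eval]
    exact hsr'

end Pool.Agent.W660.TP
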