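import Pool.Agent.W660.TP.PFc
import Pool.Agent.W736.TC.Typical
import Pool.Agent.W736.TC.EllHP

/-! Operators of matrices on finite-dimensional `ℓ_p` spaces. -/

set_option autoImplicit false
open Polynomial Matrix Filter Topology ENNReal
open scoped ComplexOrder

namespace Pool.Agent.W660.TP

open Pool.Agent.W736.TC

variable {N : ℕ} {p : ℝ≥0∞} [Fact (1 ≤ p)]

/-- the operator of a matrix -/
noncomputable def opL (p : ℝ≥0∞) [Fact (1 ≤ p)] (B : Matrix (Fin N) (Fin N) ℂ) :
    ellm ℂ p N →L[ℂ] ellm ℂ p N :=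
  LinearMap.toContinuousLinearMap
    { toFun := fun v => WithLp.toLp p (B.mulVec (WithLp.ofLp v))
      map_add' := by
        intro a b
        rw [WithLp.ofLp_add, mulVec_add, WithLp.toLp_add]
      map_smul' := by
        intro c a
        rw [WithLp.ofLp_smul, mulVec_smul, WithLp.toLp_smul]
        rfl }

theorem opL_apply (B : Matrix (Fin N) (Fin N) ℂ) (v : ellm ℂ p N) (i : Fin N) :
    opL p B v i = (B.mulVec (WithLp.ofLp v)) i := rfl

theorem opL_apply' (B : Matrix (Fin N) (Fin N) ℂ) (v : ellm ℂ p N) (i : Fin N) :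
    opL p B v i = ∑ j, B i j * v j := rfl

/-- the operator of a matrix, as a homomorphism of algebras -/
noncomputable def opM (p : ℝ≥0∞) [Fact (1 ≤ p)] (N : ℕ) :
    Matrix (Fin N) (Fin N) ℂ →ₐ[ℂ] (ellm ℂ p N →L[ℂ] ellm ℂ p N) where
  toFun B := opL p B
  map_one' := by
    ext v i
    rw [opL_apply, one_mulVec]
    rfl
  map_mul' A B := by
    ext v i
    show opL p (A * B) v i = opL p A (opL p B v) i
    rw [opL_apply, ← mulVec_mulVec]
    rfl
  map_zero' := by
    ext v i
    rw [opL_apply, zero_mulVec]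
    rfl
  map_add' A B := by
    ext v i
    show opL p (A + B) v i = opL p A v i + opL p B v i
    rw [opL_apply, add_mulVec]
    rfl
  commutes' c := by
    ext v i
    rw [opL_apply, Algebra.algebraMap_eq_smul_one, smul_mulVec, one_mulVec,
      Algebra.algebraMap_eq_smul_one]
    rfl

theorem opM_apply (B : Matrix (Fin N) (Fin N) ℂ) (v : ellm ℂ p N) (i : Fin N) :
    opM p N B v i = (B.mulVec (WithLp.ofLp v)) i := rfl

theorem opM_apply' (B : Matrix (Fin N) (Fin N) ℂ) (v : ellm ℂ p N) (i : Fin N) :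
    opM p N B v i = ∑ j, B i j * v j := rfl

theorem opM_aeval (B : Matrix (Fin N) (Fin N) ℂ) (q : ℂ[X]) :
    aeval (opM p N B) q = opM p N (aeval B q) := by
  rw [Polynomial.aeval_algHom_apply]

theorem sum_ap {ι : Type*} (s : Finset ι) (f : ι → ellm ℂ p N) (i : Fin N) :
    (∑ j ∈ s, f j) i = ∑ j ∈ s, f j i :=
  map_sum (PiLp.proj (𝕜 := ℂ) p (fun _ : Fin N => ℂ) i) f s

theorem decomp_v (v : ellm ℂ p N) : v = ∑ j, v j • PiLp.single p j (1:ℂ) := by
  ext i
  rw [sum_ap, Finset.sum_eq_single i]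
  · simp
  · intro j _ hj
    rw [PiLp.smul_apply, PiLp.single_eq_of_ne p (Ne.symm hj), smul_zero]
  · intro h
    exact absurd (Finset.mem_univ _) h

/-- every operator comes from its matrix -/
theorem opM_of (t : ellm ℂ p N →L[ℂ] ellm ℂ p N) :
    t = opM p N (fun i j => t (PiLp.single p j (1:ℂ)) i) := by
  ext v i
  rw [opM_apply']
  conv_lhs => rw [decomp_v v]
  rw [map_sum, sum_ap]
  refine Finset.sum_congr rfl fun j _ => ?_
  rw [map_smul, PiLp.smul_apply, smul_eq_mul, mul_comm]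

/-- a functional given by coordinates -/
noncomputable def mkF (p : ℝ≥0∞) [Fact (1 ≤ p)] (b : Fin N → ℂ) : ellm ℂ p N →L[ℂ] ℂ :=
  ∑ i, b i • PiLp.proj (𝕜 := ℂ) p (fun _ : Fin N => ℂ) i

theorem mkF_apply (b : Fin N → ℂ) (v : ellm ℂ p N) : mkF p b v = ∑ i, b i * v i := by
  simp [mkF]

theorem mkF_of (f : ellm ℂ p N →L[ℂ] ℂ) : f = mkF p (fun i => f (PiLp.single p i (1:ℂ))) := by
  ext v
  rw [mkF_apply]
  conv_lhs => rw [decomp_v v]
  rw [map_sum]
  refine Finset.sum_congr rfl fun j _ => ?_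
  rw [map_smul, smul_eq_mul, mul_comm]

end Pool.Agent.W660.TP
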