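import Pool.Agent.W660.TP.Op

/-! Operators of matrices: norms, positivity, spectrum. -/

set_option autoImplicit false
open Polynomial Matrix Filter Topology ENNReal
open scoped ComplexOrder

namespace Pool.Agent.W660.TP

open Pool.Agent.W736.TC

variable {N : ℕ} {p : ℝ≥0∞} [Fact (1 ≤ p)]

theorem coord_le (v : ellm ℂ p N) (i : Fin N) : ‖v i‖ ≤ ‖v‖ := PiLp.norm_apply_le v i

theorem norm_sg (i : Fin N) (a : ℂ) : ‖(PiLp.single p i a : ellm ℂ p N)‖ = ‖a‖ :=
  PiLp.norm_single p (fun _ : Fin N => ℂ) i a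

theorem opM_norm (B : Matrix (Fin N) (Fin N) ℂ) : ‖opM p N B‖ ≤ ∑ i, ∑ j, ‖B i j‖ := by
  apply ContinuousLinearMap.opNorm_le_bound _ (by positivity)
  intro v
  rw [decomp_v (opM p N B v), Finset.sum_mul]
  refine (norm_sum_le _ _).trans (Finset.sum_le_sum fun i _ => ?_)
  rw [norm_smul, norm_sg, norm_one, mul_one, opM_apply', Finset.sum_mul]
  refine (norm_sum_le _ _).trans (Finset.sum_le_sum fun j _ => ?_)
  rw [norm_mul]
  gcongr
  exact coord_le v j

/-- nonnegative vectors -/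
def NNv (v : ellm ℂ p N) : Prop := ∀ i, 0 ≤ v i

/-- nonnegative matrices -/
theorem opM_nn (M : Matrix (Fin N) (Fin N) ℝ) (hM : ∀ i j, 0 ≤ M i j) (v : ellm ℂ p N)
    (hv : NNv v) : NNv (opM p N (cm M) v) := by
  intro i
  rw [opM_apply']
  refine Finset.sum_nonneg fun j _ => mul_nonneg ?_ (hv j)
  have : (cm M) i j = ((M i j : ℝ) : ℂ) := rfl
  rw [this]
  exact Complex.zero_le_real.2 (hM i j)

theorem mkF_mono (hp : p ≠ ⊤) (a b : Fin N → ℂ) (h : ∀ i, ‖b i‖ ≤ ‖a i‖) :
    ‖mkF p b‖ ≤ ‖mkF p a‖ := by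
  apply ContinuousLinearMap.opNorm_le_bound _ (norm_nonneg _)
  intro x
  have hph := fun i => phase (a i)
  choose u hu1 hu2 using hph
  set x' : ellm ℂ p N := WithLp.toLp p (fun i => u i * (‖x i‖ : ℂ)) with hx'
  have hx'i : ∀ i, x' i = u i * (‖x i‖ : ℂ) := fun i => rfl
  have hn : ‖x'‖ = ‖x‖ := by
    have hr := pos_r (p := p) hp
    have h1 : ‖x'‖ ^ p.toReal = ‖x‖ ^ p.toReal := by
      rw [ellm_norm hr, ellm_norm hr]
      refine Finset.sum_congr rfl fun i _ => ?_
      rw [hx'i, norm_mul, hu1, one_mul, Complex.norm_real, norm_norm]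
    exact (Real.rpow_left_inj (norm_nonneg _) (norm_nonneg _) hr.ne').1 h1
  have h2 : mkF p a x' = ((∑ i, ‖a i‖ * ‖x i‖ : ℝ) : ℂ) := by
    rw [mkF_apply]
    push_cast
    refine Finset.sum_congr rfl fun i _ => ?_
    rw [hx'i, ← mul_assoc, mul_comm (a i), hu2]
  calc ‖mkF p b x‖ ≤ ∑ i, ‖b i * x i‖ := by
        rw [mkF_apply]
        exact norm_sum_le _ _
    _ ≤ ∑ i, ‖a i‖ * ‖x i‖ := by
        refine Finset.sum_le_sum fun i _ => ?_
        rw [norm_mul]
        gcongr
        exact h i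
    _ = ‖mkF p a x'‖ := by
        rw [h2, Complex.norm_real, Real.norm_of_nonneg (by positivity)]
    _ ≤ ‖mkF p a‖ * ‖x'‖ := (mkF p a).le_opNorm _
    _ = ‖mkF p a‖ * ‖x‖ := by rw [hn]

/-- the roots of the characteristic polynomial -/
noncomputable def rts (A : Matrix (Fin N) (Fin N) ℝ) : Finset ℂ := (cm A).charpoly.roots.toFinset

theorem mu_rts (A : Matrix (Fin N) (Fin N) ℝ) (hs : (xchi A).Separable) :
    mu (rts A) = (cm A).charpoly := by
  classical
  have hsc := sep_c A hs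
  have hsp : (cm A).charpoly.Splits := IsAlgClosed.splits _
  have h1 := hsp.eq_prod_roots
  rw [(cm A).charpoly_monic.leadingCoeff, C_1, one_mul] at h1
  rw [mu, rts]
  conv_rhs => rw [h1]
  rw [Finset.prod_multiset_map_count, Finset.prod_congr rfl]
  intro m hm
  rw [Multiset.count_eq_one_of_mem (nodup_roots hsc) (Multiset.mem_toFinset.1 hm), pow_one]

theorem diag_opM (A : Matrix (Fin N) (Fin N) ℝ) (hs : (xchi A).Separable) :
    Diag (opM p N (cm A)) (rts A) := by
  refine ⟨?_, ?_⟩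
  · rw [mu_rts A hs, opM_aeval, aeval_self_charpoly, map_zero]
  · intro m hm
    rw [rts, Multiset.mem_toFinset, mem_roots (cm A).charpoly_monic.ne_zero, ← charpoly_toLin',
      ← Module.End.hasEigenvalue_iff_isRoot_charpoly] at hm
    obtain ⟨w, hw⟩ := hm.exists_hasEigenvector
    have h1 := hw.1
    rw [Module.End.mem_eigenspace_iff, toLin'_apply] at h1
    refine ⟨WithLp.toLp p w, ?_, ?_⟩
    · intro h
      apply hw.2
      funext i
      exact congrFun (congrArg WithLp.ofLp h) i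
    · ext i
      rw [opM_apply, PiLp.smul_apply]
      exact congrFun h1 i

theorem rts_ne (hN : 0 < N) (A : Matrix (Fin N) (Fin N) ℝ) : (rts A).Nonempty := by
  have hd : (cm A).charpoly.degree ≠ 0 := by
    rw [charpoly_degree_eq_dim, Fintype.card_fin]
    exact_mod_cast hN.ne'
  obtain ⟨z, hz⟩ := IsAlgClosed.exists_root _ hd
  exact ⟨z, by rw [rts, Multiset.mem_toFinset, mem_roots (cm A).charpoly_monic.ne_zero]; exact hz⟩

end Pool.Agent.W660.TP
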