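import Pool.Agent.W660.TP.Den
import Pool.Agent.H906R3.CY.PF

/-! Cyclic functionals for real matrices with simple spectrum. -/

set_option autoImplicit false
open Polynomial Matrix

namespace Pool.Agent.W660.TP

variable {N : ℕ}

/-- complexification -/
noncomputable abbrev cm (A : Matrix (Fin N) (Fin N) ℝ) : Matrix (Fin N) (Fin N) ℂ :=
  A.map (algebraMap ℝ ℂ)

theorem sep_c (A : Matrix (Fin N) (Fin N) ℝ) (h : (xchi A).Separable) :
    (cm A).charpoly.Separable := by
  have h1 : (xchi (cm A)).Separable := by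
    rw [← xchi_map]
    exact h.map
  exact h1.of_mul_right

theorem eig_unique (B : Matrix (Fin N) (Fin N) ℂ) (hB : B.charpoly.Separable) (l : ℂ)
    (v w : Fin N → ℂ) (hv : v ≠ 0) (h1 : B.mulVec v = l • v) (h2 : B.mulVec w = l • w) :
    ∃ c : ℂ, w = c • v := by
  have h3 := LinearMap.finrank_eigenspace_le B.toLin' l
  rw [charpoly_toLin'] at h3
  have h4 := h3.trans (rootMultiplicity_le_one_of_separable hB l)
  rw [finrank_le_one_iff] at h4
  obtain ⟨v0, hv0⟩ := h4
  have m1 : v ∈ Module.End.eigenspace B.toLin' l := by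
    rw [Module.End.mem_eigenspace_iff, toLin'_apply]
    exact h1
  have m2 : w ∈ Module.End.eigenspace B.toLin' l := by
    rw [Module.End.mem_eigenspace_iff, toLin'_apply]
    exact h2
  obtain ⟨a, ha⟩ := hv0 ⟨v, m1⟩
  obtain ⟨b, hb⟩ := hv0 ⟨w, m2⟩
  have ha' : a • (v0 : Fin N → ℂ) = v := congrArg Subtype.val ha
  have hb' : b • (v0 : Fin N → ℂ) = w := congrArg Subtype.val hb
  have ha0 : a ≠ 0 := by
    rintro rfl
    rw [zero_smul] at ha'
    exact hv ha'.symm
  refine ⟨b * a⁻¹, ?_⟩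
  rw [← ha', ← hb', smul_smul, mul_assoc, inv_mul_cancel₀ ha0, mul_one]

theorem exists_z (A : Matrix (Fin N) (Fin N) ℝ) (hs : (xchi A).Separable) :
    ∃ z : Fin N → ℝ, (∀ i, 0 < z i) ∧ ∀ (l : ℂ) (w : Fin N → ℂ), w ≠ 0 →
      (cm A).mulVec w = l • w → ∑ i, (z i : ℂ) * w i ≠ 0 := by
  classical
  have hsc := sep_c A hs
  set Λ : Finset ℂ := (cm A).charpoly.roots.toFinset with hΛ
  have hmem : ∀ (l : ℂ) (w : Fin N → ℂ), w ≠ 0 → (cm A).mulVec w = l • w → l ∈ Λ := by
    intro l w hw h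
    rw [hΛ, Multiset.mem_toFinset, mem_roots (cm A).charpoly_monic.ne_zero, ← charpoly_toLin',
      ← Module.End.hasEigenvalue_iff_isRoot_charpoly]
    apply Module.End.hasEigenvalue_of_hasEigenvector (x := w)
    exact ⟨by rw [Module.End.mem_eigenspace_iff, toLin'_apply]; exact h, hw⟩
  have hw : ∀ l : ℂ, ∃ w : Fin N → ℂ, l ∈ Λ → w ≠ 0 ∧ (cm A).mulVec w = l • w := by
    intro l
    by_cases hl : l ∈ Λ
    · rw [hΛ, Multiset.mem_toFinset, mem_roots (cm A).charpoly_monic.ne_zero, ← charpoly_toLin',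
        ← Module.End.hasEigenvalue_iff_isRoot_charpoly] at hl
      obtain ⟨w, hw⟩ := hl.exists_hasEigenvector
      refine ⟨w, fun _ => ⟨hw.2, ?_⟩⟩
      have := hw.1
      rw [Module.End.mem_eigenspace_iff, toLin'_apply] at this
      exact this
    · exact ⟨0, fun h => absurd h hl⟩
  choose w hw using hw
  set g : ℂ → ℂ[X] := fun l => ∑ i : Fin N, C (w l i) * X ^ (i : ℕ) with hg
  have hg0 : ∀ l ∈ Λ, g l ≠ 0 := by
    intro l hl h
    apply (hw l hl).1
    funext i
    have h1 : (g l).coeff (i : ℕ) = w l i := by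
      rw [hg]
      simp only [finsetSum_coeff, coeff_C_mul_X_pow]
      rw [Finset.sum_eq_single i]
      · simp
      · intro j _ hj
        rw [if_neg]
        intro h
        exact hj (Fin.ext h.symm)
      · intro h
        exact absurd (Finset.mem_univ _) h
    rw [h, coeff_zero] at h1
    exact h1.symm
  have hG : ∏ l ∈ Λ, g l ≠ 0 := Finset.prod_ne_zero_iff.2 hg0
  obtain ⟨θ, hθ, hθr⟩ : ∃ θ ∈ Set.Ioi (0:ℝ),
      θ ∉ ((((∏ l ∈ Λ, g l).roots.toFinset).image Complex.re : Finset ℝ) : Set ℝ) :=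
    (Set.Ioi_infinite (0:ℝ)).exists_notMem_finset _
  refine ⟨fun i => θ ^ (i : ℕ), fun i => pow_pos hθ _, fun l v hv hl hz => ?_⟩
  have hlΛ := hmem l v hv hl
  obtain ⟨c, hc⟩ := eig_unique (cm A) hsc l v (w l) hv hl (hw l hlΛ).2
  apply hθr
  rw [Finset.mem_coe, Finset.mem_image]
  refine ⟨(θ : ℂ), ?_, Complex.ofReal_re _⟩
  rw [Multiset.mem_toFinset, mem_roots hG, IsRoot.def, eval_prod]
  refine Finset.prod_eq_zero hlΛ ?_
  rw [hg]
  simp only [eval_finsetSum, eval_mul, eval_C, eval_pow, eval_X]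
  have e : ∀ i, w l i * (θ : ℂ) ^ (i : ℕ) = c * (((θ ^ (i : ℕ) : ℝ) : ℂ) * v i) := by
    intro i
    rw [hc]
    push_cast
    simp only [Pi.smul_apply, smul_eq_mul]
    ring
  simp only [e]
  rw [← Finset.mul_sum, hz, mul_zero]

/-- `z` annihilates no orbit -/
def Cyc (A : Matrix (Fin N) (Fin N) ℝ) (z : Fin N → ℝ) : Prop :=
  ∀ u : Fin N → ℂ, (∀ n : ℕ, ∑ i, (z i : ℂ) * (((cm A) ^ n).mulVec u) i = 0) → u = 0

theorem cyc_of (A : Matrix (Fin N) (Fin N) ℝ) (z : Fin N → ℝ)
    (hz : ∀ (l : ℂ) (w : Fin N → ℂ), w ≠ 0 →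
      (cm A).mulVec w = l • w → ∑ i, (z i : ℂ) * w i ≠ 0) : Cyc A z := by
  intro u hu
  let W : Submodule ℂ (Fin N → ℂ) :=
    { carrier := {u | ∀ n : ℕ, ∑ i, (z i : ℂ) * (((cm A) ^ n).mulVec u) i = 0}
      add_mem' := by
        intro a b ha hb n
        have := congrArg₂ (· + ·) (ha n) (hb n)
        simp only [add_zero] at this
        rw [← this, ← Finset.sum_add_distrib]
        refine Finset.sum_congr rfl fun i _ => ?_
        rw [mulVec_add, Pi.add_apply]
        ring
      zero_mem' := by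
        intro n
        simp
      smul_mem' := by
        intro c a ha n
        have : ∑ i, (z i : ℂ) * (((cm A) ^ n).mulVec (c • a)) i
            = c * ∑ i, (z i : ℂ) * (((cm A) ^ n).mulVec a) i := by
          rw [Finset.mul_sum]
          refine Finset.sum_congr rfl fun i _ => ?_
          rw [mulVec_smul, Pi.smul_apply, smul_eq_mul]
          ring
        rw [this, ha n, mul_zero] }
  have huW : u ∈ W := hu
  have hinv : ∀ v ∈ W, (cm A).toLin' v ∈ W := by
    intro v hv n
    rw [toLin'_apply, mulVec_mulVec, ← pow_succ]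
    exact hv (n + 1)
  by_contra hne
  have : Nontrivial W := ⟨⟨⟨u, huW⟩, 0, fun h => hne (congrArg Subtype.val h)⟩⟩
  obtain ⟨l, hl⟩ := Module.End.exists_eigenvalue ((cm A).toLin'.restrict hinv)
  obtain ⟨w, hw⟩ := hl.exists_hasEigenvector
  have h1 : (cm A).mulVec (w : Fin N → ℂ) = l • (w : Fin N → ℂ) := by
    have h2 := hw.1
    rw [Module.End.mem_eigenspace_iff] at h2
    have h3 := congrArg Subtype.val h2
    exact h3
  apply hz l w (fun h => hw.2 (Subtype.ext h)) h1
  have := w.2 0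
  simpa using this

theorem surj_of (A : Matrix (Fin N) (Fin N) ℝ) (z : Fin N → ℝ) (hz : Cyc A z) (y : Fin N → ℝ) :
    ∃ q : ℝ[X], vecMul z (aeval A q) = y := by
  classical
  let L : ℝ[X] →ₗ[ℝ] (Fin N → ℝ) :=
    { toFun := fun q => vecMul z (aeval A q)
      map_add' := by
        intro a b
        rw [map_add, vecMul_add]
      map_smul' := by
        intro c a
        rw [map_smul, vecMul_smul]
        rfl }
  suffices h : LinearMap.range L = ⊤ by
    have : y ∈ LinearMap.range L := by rw [h]; trivial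
    exact this
  by_contra hne
  obtain ⟨f, hf0, hf⟩ := Submodule.exists_le_ker_of_lt_top _ (lt_top_iff_ne_top.2 hne)
  have hfy : ∀ y : Fin N → ℝ, f y = ∑ i, y i * f (Pi.single i 1) := by
    intro y
    conv_lhs => rw [← Finset.univ_sum_single y]
    rw [map_sum]
    refine Finset.sum_congr rfl fun i _ => ?_
    have : (Pi.single i (y i) : Fin N → ℝ) = y i • Pi.single i 1 := by
      rw [← Pi.single_smul, smul_eq_mul, mul_one]
    rw [this, map_smul, smul_eq_mul]
  have hu : (fun i => ((f (Pi.single i 1) : ℝ) : ℂ)) = 0 := by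
    apply hz
    intro n
    have h1 : f (vecMul z (A ^ n)) = 0 := by
      have : vecMul z (A ^ n) ∈ LinearMap.range L := ⟨X ^ n, by
        show vecMul z (aeval A (X ^ n)) = _
        rw [aeval_X_pow]⟩
      exact hf this
    rw [hfy] at h1
    have h2 : (cm A) ^ n = (A ^ n).map (algebraMap ℝ ℂ) := by
      have := map_pow (RingHom.mapMatrix (m := Fin N) (algebraMap ℝ ℂ)) A n
      exact this.symm
    have h3 : ∑ i, (z i : ℂ) * (((cm A) ^ n).mulVec fun i => ((f (Pi.single i 1) : ℝ) : ℂ)) i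
        = ((∑ i, vecMul z (A ^ n) i * f (Pi.single i 1) : ℝ) : ℂ) := by
      rw [h2]
      simp only [mulVec, vecMul, dotProduct, Matrix.map_apply]
      push_cast
      simp only [Finset.mul_sum, Finset.sum_mul]
      rw [Finset.sum_comm]
      refine Finset.sum_congr rfl fun i _ => Finset.sum_congr rfl fun j _ => ?_
      simp
      ring
    rw [h3, h1]
    simp
  apply hf0
  refine LinearMap.ext fun y => ?_
  rw [hfy]
  have h4 : ∀ i, f (Pi.single i 1) = 0 := by
    intro i
    have h5 : ((f (Pi.single i 1) : ℝ) : ℂ) = 0 := congrFun hu i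
    exact_mod_cast h5
  simp [h4]

end Pool.Agent.W660.TP
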