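import Pool.Agent.W660.TP.PFa

/-! Nonnegative intertwiners for positive matrices with simple spectrum. -/

set_option autoImplicit false
open Polynomial Matrix

namespace Pool.Agent.W660.TP

variable {N : ℕ}

theorem perron_pos (hN : 0 < N) (A : Matrix (Fin N) (Fin N) ℝ) (hA : ∀ i j, 0 < A i j) :
    ∃ (v : Fin N → ℝ) (r : ℝ), (∀ i, 0 < v i) ∧ A.mulVec v = r • v := by
  have : Nonempty (Fin N) := ⟨⟨0, hN⟩⟩
  obtain ⟨v, r, h1, -, -, h2, -⟩ := H906C.perron A (fun i j => (hA i j).le) 2 (by
    intro i j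
    rw [Finset.sum_range_succ, Finset.sum_range_one, pow_zero, pow_one, Matrix.add_apply]
    have : 0 ≤ (1 : Matrix (Fin N) (Fin N) ℝ) i j := by
      rw [Matrix.one_apply]
      split_ifs <;> norm_num
    linarith [hA i j]) ⟨⟨0, hN⟩, ⟨0, hN⟩, hA _ _⟩
  exact ⟨v, r, h1, h2⟩

theorem aeval_mulVec (A : Matrix (Fin N) (Fin N) ℝ) (v : Fin N → ℝ) (r : ℝ)
    (h : A.mulVec v = r • v) (q : ℝ[X]) : (aeval A q).mulVec v = q.eval r • v := by
  induction q using Polynomial.induction_on' with
  | add p q hp hq => rw [map_add, add_mulVec, hp, hq, eval_add, add_smul]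
  | monomial n a =>
    have hn : (A ^ n).mulVec v = r ^ n • v := by
      induction n with
      | zero => simp
      | succ n ih => rw [pow_succ, ← mulVec_mulVec, h, mulVec_smul, ih, smul_smul, pow_succ,
          mul_comm]
    rw [aeval_monomial, eval_monomial, ← Algebra.smul_def, smul_mulVec, hn, smul_smul]

/-- for a real matrix with separable characteristic polynomial real eigenvectors are unique -/
theorem eig_unique_real (A : Matrix (Fin N) (Fin N) ℝ) (hs : (xchi A).Separable) (r : ℝ)
    (v w : Fin N → ℝ) (hv : v ≠ 0) (h1 : A.mulVec v = r • v) (h2 : A.mulVec w = r • w) :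
    ∃ c : ℝ, w = c • v := by
  have hc : ∀ u : Fin N → ℝ, A.mulVec u = r • u →
      (cm A).mulVec (fun i => (u i : ℂ)) = (r : ℂ) • fun i => (u i : ℂ) := by
    intro u hu
    funext i
    have e : ((A.mulVec u i : ℝ) : ℂ) = (cm A).mulVec (fun i => (u i : ℂ)) i := by
      simp [mulVec, dotProduct, Matrix.map_apply]
    rw [← e, hu]
    simp
  obtain ⟨c, hc'⟩ := eig_unique (cm A) (sep_c A hs) (r : ℂ) (fun i => (v i : ℂ))
    (fun i => (w i : ℂ)) (by
      intro h
      apply hv
      funext i
      have h5 : ((v i : ℝ) : ℂ) = 0 := congrFun h i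
      show v i = 0
      exact_mod_cast h5) (hc v h1) (hc w h2)
  refine ⟨c.re, ?_⟩
  funext i
  have := congrArg Complex.re (congrFun hc' i)
  simpa using this

/-- the Perron projection is a polynomial in the matrix -/
theorem perron_proj (hN : 0 < N) (A : Matrix (Fin N) (Fin N) ℝ) (hA : ∀ i j, 0 < A i j)
    (hs : (xchi A).Separable) : ∃ (v : Fin N → ℝ) (r : ℝ) (π : ℝ[X]), (∀ i, 0 < v i) ∧
      A.mulVec v = r • v ∧ (∀ i j, 0 < (aeval A π) i j) ∧
      (∀ q : ℝ[X], aeval A q * aeval A π = q.eval r • aeval A π) ∧ π.eval r = 1 := by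
  obtain ⟨v, r, hv, hAv⟩ := perron_pos hN A hA
  obtain ⟨φ, r', hφ, hAφ⟩ := perron_pos hN Aᵀ (fun i j => hA j i)
  set i0 : Fin N := ⟨0, hN⟩
  have hdot : 0 < ∑ i, φ i * v i :=
    Finset.sum_pos (fun i _ => mul_pos (hφ i) (hv i)) ⟨i0, Finset.mem_univ _⟩
  have hφA : vecMul φ A = r' • φ := by
    rw [← mulVec_transpose]
    exact hAφ
  have hrr : r = r' := by
    have h1 : φ ⬝ᵥ (A.mulVec v) = r * ∑ i, φ i * v i := by
      rw [hAv, dotProduct_smul]
      rfl
    have h2 : φ ⬝ᵥ (A.mulVec v) = r' * ∑ i, φ i * v i := by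
      rw [dotProduct_mulVec, hφA, smul_dotProduct]
      rfl
    rw [h1] at h2
    exact mul_right_cancel₀ hdot.ne' h2
  subst hrr
  have hv0 : v ≠ 0 := fun h => by
    have := hv i0
    rw [h] at this
    exact lt_irrefl _ this
  have hroot : A.charpoly.IsRoot r := by
    rw [← charpoly_toLin', ← Module.End.hasEigenvalue_iff_isRoot_charpoly]
    apply Module.End.hasEigenvalue_of_hasEigenvector (x := v)
    exact ⟨by rw [Module.End.mem_eigenspace_iff, toLin'_apply]; exact hAv, hv0⟩
  obtain ⟨g, hg⟩ := dvd_iff_isRoot.2 hroot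
  have hsA : A.charpoly.Separable := hs.of_mul_right
  have hgr : g.eval r ≠ 0 := by
    intro h
    have h1 : (X - C r) ∣ g := dvd_iff_isRoot.2 h
    have h2 := hsA.squarefree
    obtain ⟨g', hg'⟩ := h1
    have h3 : (X - C r) * (X - C r) ∣ A.charpoly := ⟨g', by rw [hg, hg']; ring⟩
    exact (Polynomial.prime_X_sub_C r).not_isUnit (h2 _ h3)
  set π : ℝ[X] := C (g.eval r)⁻¹ * g with hπ
  have hπr : π.eval r = 1 := by
    rw [hπ, eval_mul, eval_C, inv_mul_cancel₀ hgr]
  have hzero : (A - r • 1) * aeval A π = 0 := by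
    have h1 : aeval A ((X - C r) * π) = 0 := by
      have : (X - C r) * π = C (g.eval r)⁻¹ * A.charpoly := by
        rw [hπ, hg]
        ring
      rw [this, map_mul, aeval_self_charpoly, mul_zero]
    rw [map_mul] at h1
    have h2 : aeval A (X - C r) = A - r • 1 := by
      rw [map_sub, aeval_X, aeval_C, Algebra.algebraMap_eq_smul_one]
    rw [h2] at h1
    exact h1
  have hcomm : aeval A π * A = A * aeval A π := by
    calc aeval A π * A = aeval A π * aeval A X := by rw [aeval_X]
      _ = aeval A (π * X) := (map_mul _ _ _).symm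
      _ = aeval A (X * π) := by rw [mul_comm π X]
      _ = aeval A X * aeval A π := map_mul _ _ _
      _ = A * aeval A π := by rw [aeval_X]
  have hAπ : A * aeval A π = r • aeval A π := by
    rw [sub_mul, smul_mul_assoc, one_mul, sub_eq_zero] at hzero
    exact hzero
  -- columns and rows
  have hcol : ∀ j, ∃ c : ℝ, ∀ i, (aeval A π) i j = c * v i := by
    intro j
    have h1 : A.mulVec (fun i => (aeval A π) i j) = r • fun i => (aeval A π) i j := by
      funext i
      have := congrFun (congrFun hAπ i) j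
      rw [mul_apply] at this
      exact this
    obtain ⟨c, hc⟩ := eig_unique_real A hs r v _ hv0 hAv h1
    exact ⟨c, fun i => congrFun hc i⟩
  have hs' : (xchi Aᵀ).Separable := by
    have : xchi Aᵀ = xchi A := by rw [xchi, xchi, charpoly_transpose]
    rw [this]
    exact hs
  have hφ0 : φ ≠ 0 := fun h => by
    have := hφ i0
    rw [h] at this
    exact lt_irrefl _ this
  have hrow : ∀ i, ∃ d : ℝ, ∀ j, (aeval A π) i j = d * φ j := by
    intro i
    have h1 : Aᵀ.mulVec (fun j => (aeval A π) i j) = r • fun j => (aeval A π) i j := by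
      funext j
      have := congrFun (congrFun (hcomm.trans hAπ) i) j
      rw [mul_apply] at this
      rw [mulVec_transpose]
      exact this
    obtain ⟨c, hc⟩ := eig_unique_real Aᵀ hs' r φ _ hφ0 hAφ h1
    exact ⟨c, fun j => congrFun hc j⟩
  choose c hc using hcol
  choose d hd using hrow
  set κ : ℝ := c i0 / φ i0 with hκ
  have hentry : ∀ i j, (aeval A π) i j = κ * (v i * φ j) := by
    intro i j
    have h1 : d i * φ i0 = c i0 * v i := by rw [← hd, ← hc]
    have h2 : d i = κ * v i := by
      rw [hκ]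
      have := (hφ i0).ne'
      field_simp
      linarith
    rw [hd i j, h2]
    ring
  have hκpos : 0 < κ := by
    have h1 : (aeval A π).mulVec v = v := by
      rw [aeval_mulVec A v r hAv, hπr, one_smul]
    have h2 := congrFun h1 i0
    simp only [mulVec, dotProduct, hentry] at h2
    have h3 : ∑ j, κ * (v i0 * φ j) * v j = κ * v i0 * ∑ j, φ j * v j := by
      rw [Finset.mul_sum]
      refine Finset.sum_congr rfl fun j _ => ?_
      ring
    rw [h3] at h2
    have h4 : κ * ∑ j, φ j * v j = 1 := by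
      have := (hv i0).ne'
      have h5 : v i0 * (κ * ∑ j, φ j * v j) = v i0 * 1 := by linarith
      exact mul_left_cancel₀ this h5
    by_contra hneg
    push Not at hneg
    nlinarith
  refine ⟨v, r, π, hv, hAv, fun i j => ?_, fun q => ?_, hπr⟩
  · rw [hentry]
    exact mul_pos hκpos (mul_pos (hv i) (hφ j))
  · ext i j
    rw [mul_apply, Matrix.smul_apply, smul_eq_mul]
    have h1 := congrFun (aeval_mulVec A v r hAv q) i
    simp only [mulVec, dotProduct, Pi.smul_apply, smul_eq_mul] at h1
    simp only [hentry]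
    have h3 : ∑ x, (aeval A q) i x * (κ * (v x * φ j)) = κ * φ j * ∑ x, (aeval A q) i x * v x := by
      rw [Finset.mul_sum]
      refine Finset.sum_congr rfl fun x _ => ?_
      ring
    rw [h3, h1]
    ring

end Pool.Agent.W660.TP
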