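import Pool.Agent.W660.TP.PFb

/-! Nonnegative intertwiners for positive matrices with simple spectrum. -/

set_option autoImplicit false
open Polynomial Matrix Filter Topology

namespace Pool.Agent.W660.TP

variable {N : ℕ}

theorem vecMul_c (z : Fin N → ℝ) (G : Matrix (Fin N) (Fin N) ℝ) (u : Fin N → ℂ) :
    ∑ i, ((vecMul z G i : ℝ) : ℂ) * u i = ∑ i, (z i : ℂ) * ((cm G).mulVec u) i := by
  simp only [mulVec, vecMul, dotProduct, Matrix.map_apply]
  push_cast
  simp only [Finset.mul_sum, Finset.sum_mul]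
  rw [Finset.sum_comm]
  refine Finset.sum_congr rfl fun i _ => Finset.sum_congr rfl fun j _ => ?_
  simp
  ring

theorem cm_mul (A B : Matrix (Fin N) (Fin N) ℝ) : cm (A * B) = cm A * cm B :=
  Matrix.map_mul

theorem cm_pow (A : Matrix (Fin N) (Fin N) ℝ) (n : ℕ) : cm (A ^ n) = (cm A) ^ n :=
  map_pow (RingHom.mapMatrix (m := Fin N) (algebraMap ℝ ℂ)) A n

theorem cm_one : cm (1 : Matrix (Fin N) (Fin N) ℝ) = 1 :=
  map_one (RingHom.mapMatrix (m := Fin N) (algebraMap ℝ ℂ))

theorem pf_main (hN : 0 < N) (A : Matrix (Fin N) (Fin N) ℝ) (hA : ∀ i j, 0 < A i j)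
    (hs : (xchi A).Separable) (s : Finset ℕ) (y : ℕ → Fin N → ℝ) (hy : ∀ k ∈ s, ∀ i, 0 ≤ y k i) :
    ∃ (z : Fin N → ℝ) (M : ℕ → Matrix (Fin N) (Fin N) ℝ), (∀ k ∈ s, vecMul z (M k) = y k) ∧
      (∀ k ∈ s, ∀ i j, 0 ≤ M k i j) ∧ (∀ k, M k * A = A * M k) ∧ Cyc A z := by
  classical
  obtain ⟨v, r, π, hv, hAv, hπ, hqπ, hπr⟩ := perron_proj hN A hA hs
  obtain ⟨z0, hz0, hz1⟩ := exists_z A hs
  have hcyc := cyc_of A z0 hz1
  have hq := fun k => surj_of A z0 hcyc (y k)
  choose q hq using hq
  set P : Matrix (Fin N) (Fin N) ℝ := aeval A π with hP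
  have hPP : P * P = P := by
    have := hqπ π
    rw [hπr, one_smul] at this
    exact this
  set i0 : Fin N := ⟨0, hN⟩
  have hzv : 0 < ∑ i, z0 i * v i :=
    Finset.sum_pos (fun i _ => mul_pos (hz0 i) (hv i)) ⟨i0, Finset.mem_univ _⟩
  have hqr : ∀ k, (q k).eval r * ∑ i, z0 i * v i = ∑ i, y k i * v i := by
    intro k
    have h1 : (vecMul z0 (aeval A (q k))) ⬝ᵥ v = ∑ i, y k i * v i := by
      rw [hq k]
      rfl
    rw [← dotProduct_mulVec, aeval_mulVec A v r hAv, dotProduct_smul] at h1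
    exact h1
  have hqpos : ∀ k ∈ s, y k ≠ 0 → 0 < (q k).eval r := by
    intro k hk hne
    have h1 : 0 < ∑ i, y k i * v i := by
      obtain ⟨j, hj⟩ := Function.ne_iff.1 hne
      refine Finset.sum_pos' (fun i _ => mul_nonneg (hy k hk i) (hv i).le) ⟨j, Finset.mem_univ _, ?_⟩
      exact mul_pos (lt_of_le_of_ne (hy k hk j) (Ne.symm hj)) (hv j)
    rw [← hqr k] at h1
    exact (mul_pos_iff_of_pos_right hzv).1 h1
  have hev : ∀ᶠ ε : ℝ in 𝓝[>] 0, ∀ k ∈ s, ∀ i ∈ (Finset.univ : Finset (Fin N)),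
      ∀ j ∈ (Finset.univ : Finset (Fin N)), y k ≠ 0 →
      0 < (q k).eval r * P i j + ε * (aeval A (q k) i j - (q k).eval r * P i j) := by
    rw [Filter.eventually_all_finset]
    intro k hk
    rw [Filter.eventually_all_finset]
    intro i _
    rw [Filter.eventually_all_finset]
    intro j _
    by_cases hne : y k = 0
    · exact Filter.Eventually.of_forall fun ε h => absurd hne h
    · have h1 : Tendsto (fun ε : ℝ => (q k).eval r * P i j
          + ε * (aeval A (q k) i j - (q k).eval r * P i j)) (𝓝[>] 0)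
          (𝓝 ((q k).eval r * P i j + 0 * (aeval A (q k) i j - (q k).eval r * P i j))) := by
        apply tendsto_nhdsWithin_of_tendsto_nhds
        exact ((tendsto_id (α := ℝ)).mul_const _).const_add _
      have h2 : 0 < (q k).eval r * P i j + 0 * (aeval A (q k) i j - (q k).eval r * P i j) := by
        rw [zero_mul, add_zero]
        exact mul_pos (hqpos k hk hne) (hπ i j)
      filter_upwards [h1.eventually (lt_mem_nhds h2)] with ε hε _
      exact hε
  obtain ⟨ε, hε, hε0⟩ := (hev.and (self_mem_nhdsWithin)).exists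
  replace hε0 : 0 < ε := hε0
  set F : Matrix (Fin N) (Fin N) ℝ := P + ε • (1 - P) with hF
  set G : Matrix (Fin N) (Fin N) ℝ := P + ε⁻¹ • (1 - P) with hG
  have hP1 : P * (1 - P) = 0 := by rw [mul_sub, mul_one, hPP, sub_self]
  have hP2 : (1 - P) * P = 0 := by rw [sub_mul, one_mul, hPP, sub_self]
  have hP3 : (1 - P) * (1 - P) = 1 - P := by rw [mul_sub, mul_one, hP2, sub_zero]
  have hGF : G * F = 1 := by
    rw [hF, hG, add_mul, mul_add, mul_add, smul_mul_assoc, smul_mul_assoc, mul_smul_comm,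
      mul_smul_comm, hPP, hP1, hP2, hP3, smul_smul, inv_mul_cancel₀ hε0.ne']
    simp
  have hFG : F * G = 1 := by
    rw [hF, hG, add_mul, mul_add, mul_add, smul_mul_assoc, smul_mul_assoc, mul_smul_comm,
      mul_smul_comm, hPP, hP1, hP2, hP3, smul_smul, mul_inv_cancel₀ hε0.ne']
    simp
  have hcP : ∀ p : ℝ[X], aeval A p * P = P * aeval A p := by
    intro p
    rw [hP, ← map_mul, ← map_mul, mul_comm]
  have hcG : ∀ p : ℝ[X], aeval A p * G = G * aeval A p := by
    intro p
    rw [hG, mul_add, add_mul, mul_smul_comm, smul_mul_assoc, mul_sub, sub_mul, mul_one, one_mul,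
      hcP]
  have hcF : ∀ p : ℝ[X], aeval A p * F = F * aeval A p := by
    intro p
    rw [hF, mul_add, add_mul, mul_smul_comm, smul_mul_assoc, mul_sub, sub_mul, mul_one, one_mul,
      hcP]
  have hAX : aeval A (X : ℝ[X]) = A := aeval_X A
  refine ⟨vecMul z0 G, fun k => if y k = 0 then 0 else aeval A (q k) * F, fun k hk => ?_,
    fun k hk i j => ?_, fun k => ?_, ?_⟩
  · dsimp only
    split_ifs with h
    · rw [h, vecMul_zero]
    · rw [vecMul_vecMul, ← mul_assoc, ← hcG, mul_assoc, hGF, mul_one, hq k]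
  · dsimp only
    split_ifs with h
    · exact le_rfl
    · have e : aeval A (q k) * F = (q k).eval r • P + ε • (aeval A (q k) - (q k).eval r • P) := by
        rw [hF, mul_add, mul_smul_comm, mul_sub, mul_one, hqπ]
      rw [e]
      have := hε k hk i (Finset.mem_univ _) j (Finset.mem_univ _) h
      exact this.le
  · dsimp only
    split_ifs with h
    · rw [zero_mul, mul_zero]
    · have h1 := hcF X
      rw [hAX] at h1
      have h2 : aeval A (q k) * A = A * aeval A (q k) := by
        calc aeval A (q k) * A = aeval A (q k) * aeval A (X : ℝ[X]) := by rw [hAX]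
          _ = aeval A (q k * X) := (map_mul _ _ _).symm
          _ = aeval A (X * q k) := by rw [mul_comm (q k) X]
          _ = aeval A (X : ℝ[X]) * aeval A (q k) := map_mul _ _ _
          _ = A * aeval A (q k) := by rw [hAX]
      rw [mul_assoc, ← h1, ← mul_assoc, h2, mul_assoc]
  · intro u hu
    have h1 : (cm G).mulVec u = 0 := by
      apply hcyc
      intro n
      have h2 := hu n
      rw [vecMul_c] at h2
      rw [← h2]
      refine Finset.sum_congr rfl fun i _ => ?_
      have h3 := hcG (X ^ n)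
      rw [aeval_X_pow] at h3
      rw [mulVec_mulVec, mulVec_mulVec, ← cm_pow, ← cm_mul, ← cm_mul, h3]
    have h4 : (cm F).mulVec ((cm G).mulVec u) = u := by
      rw [mulVec_mulVec, ← cm_mul, hFG, cm_one, one_mulVec]
    rw [← h4, h1, mulVec_zero]

end Pool.Agent.W660.TP
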