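import Pool.Agent.W660.TP.ApproxQ

/-! The refinement step and the starting step. -/

set_option autoImplicit false
open Filter Topology Polynomial ENNReal Matrix
open scoped ComplexOrder

namespace Pool.Agent.W660.TP

open Pool.Agent.W736.TC

variable {N : ℕ} {p : ℝ≥0∞} [Fact (1 ≤ p)]

/-- nonnegative functionals on `ℓ_p` -/
def PosFn (y : ell ℂ p →L[ℂ] ℂ) : Prop := ∀ x : ell ℂ p, (∀ n, 0 ≤ x n) → 0 ≤ y x

theorem single_nnv (i : Fin N) : NNv (PiLp.single p i (1:ℂ)) := by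
  intro k
  rw [PiLp.single_apply]
  split_ifs
  · exact zero_le_one
  · exact le_rfl

theorem nnf_app (f : ellm ℂ p N →L[ℂ] ℂ) (hf : NNf f) (v : ellm ℂ p N) (hv : NNv v) :
    0 ≤ f v := by
  rw [mkF_of f, mkF_apply]
  exact Finset.sum_nonneg fun i _ => mul_nonneg (hf i) (hv i)

theorem posFn_sum (htop : p ≠ ⊤) (s : Finset ℕ) (yk : ℕ → (ellm ℂ p N →L[ℂ] ℂ))
    (h : ∀ k ∈ s, NNf (yk k)) : PosFn (∑ k ∈ s, (yk k).comp (RQ p htop N k)) := by
  intro x hx
  rw [_root_.sum_apply]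
  exact Finset.sum_nonneg fun k hk => nnf_app _ (h k hk) _ (RQ_nn htop k x hx)

theorem nnf_smul (f : ellm ℂ p N →L[ℂ] ℂ) (hf : NNf f) (a : ℝ) (ha : 0 ≤ a) :
    NNf ((a : ℂ) • f) := by
  intro i
  rw [_root_.smul_apply, smul_eq_mul]
  exact mul_nonneg (Complex.zero_le_real.2 ha) (hf i)

theorem refine_stepP (h1p : 1 < p) (htop : p ≠ ⊤) (η B : ℝ) (hη : 0 < η)
    (hB0 : 0 ≤ B) : ∃ ρ : ℝ, 0 < ρ ∧ ∀ (U : Set (PosContr p)), IsOpen U → ∀ T ∈ U,
    ∀ (x : ell ℂ p) (y : ell ℂ p →L[ℂ] ℂ), ‖x‖ ≤ B → PosFn y → RR ρ T.op x y →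
    ∃ T' ∈ U, ∃ (x' : ell ℂ p) (y' : ell ℂ p →L[ℂ] ℂ), ‖x' - x‖ ≤ η ∧ ‖y' - y‖ ≤ η ∧
      PosFn y' ∧ ∀ ρ' : ℝ, 0 < ρ' → RR ρ' T'.op x' y' := by
  classical
  have hr : 1 < p.toReal := by
    rw [← ENNReal.toReal_one]
    exact (ENNReal.toReal_lt_toReal ENNReal.one_ne_top htop).2 h1p
  set pr : ℝ := p.toReal with hpr
  set q : ℝ := pr.conjExponent with hqd
  have hpq : pr.HolderConjugate q := Real.HolderConjugate.conjExponent hr
  have hp : 0 < pr := hpq.pos
  have hq : 0 < q := hpq.symm.pos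
  set m : ℝ := min ((η / 2) ^ pr) ((η / 2) ^ q) with hm
  have hm0 : 0 < m := lt_min (by positivity) (by positivity)
  set ρ : ℝ := m / (8 * (1 + B)) with hρ
  have hρ0 : 0 < ρ := by positivity
  refine ⟨ρ, hρ0, fun U hU T hT x y hxB hypos hRR => ?_⟩
  set c : ℝ := ρ * (1 + B) with hc
  have hc0 : 0 < c := by positivity
  have hcm : 8 * c = m := by
    rw [hc, hρ]
    field_simp
  have hcp : (8 * c) ^ (1 / pr) ≤ η / 2 := by
    rw [hcm]
    calc m ^ (1 / pr) ≤ ((η / 2) ^ pr) ^ (1 / pr) := by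
          gcongr
          exact min_le_left _ _
      _ = η / 2 := by
          rw [← Real.rpow_mul (by positivity), mul_one_div, div_self hp.ne', Real.rpow_one]
  have hcq : (8 * c) ^ (1 / q) ≤ η / 2 := by
    rw [hcm]
    calc m ^ (1 / q) ≤ ((η / 2) ^ q) ^ (1 / q) := by
          gcongr
          exact min_le_right _ _
      _ = η / 2 := by
          rw [← Real.rpow_mul (by positivity), mul_one_div, div_self hq.ne', Real.rpow_one]
  obtain ⟨N, A, hN, hA, hAs, htn, hs, hx, hy⟩ :=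
    approxP h1p htop (U ∩ {T' | RR ρ T'.op x y}) (hU.inter (isOpen_RRP ρ x y)) T ⟨hT, hRR⟩ x y
      (η / 2) (by positivity)
  have hB := blk (p := p) htop N
  set J := JJ p N with hJ
  set R := RQ p htop N with hR
  set t : ellm ℂ p N →L[ℂ] ellm ℂ p N := opM p N (cm A) with ht
  have hd : Diag t (rts A) := diag_opM A hAs
  -- first approximation
  set x0 : ellm ℂ p N := R 0 x with hx0
  set y0 : ellm ℂ p N →L[ℂ] ℂ := y.comp (J 0) with hy0
  have hPx : Pn ℂ p N x = J 0 x0 := (JR htop N x).symm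
  have hyP : y.comp (Pn ℂ p N) = y0.comp (R 0) := by
    ext1 v
    show y (Pn ℂ p N v) = y (J 0 (R 0 v))
    rw [JR htop N v]
  rw [hPx] at hx
  rw [hyP] at hy
  have hy0n : NNf y0 := fun i => hypos _ (JJ_nn 0 _ (single_nnv i))
  obtain ⟨h01, h01', -, hRR0⟩ := hs {0} (by simp)
  rw [Set.mem_ofPred_eq, mkP_op] at hRR0
  have hsmall : ∀ r : ℂ[X], ‖y0 ((aeval t r) x0)‖ ≤ c * ‖aeval t r‖ := by
    intro r
    set S : ell ℂ p →L[ℂ] ell ℂ p := (J 0).comp ((aeval t r).comp (R 0)) with hS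
    have hcomm : S.comp (bOp J R {0} t) = (bOp J R {0} t).comp S := by
      ext1 v
      show J 0 ((aeval t r) (R 0 (bOp J R {0} t v))) = bOp J R {0} t (J 0 ((aeval t r) (R 0 v)))
      rw [hB.R_bOp, if_pos (by simp), hB.bOp_J {0} t 0 (by simp)]
      congr 1
      have := aeval_comm t r Polynomial.X
      rw [aeval_X] at this
      exact congrArg (fun B : ellm ℂ p N →L[ℂ] ellm ℂ p N => B (R 0 v)) this
    have hSn : ‖S‖ ≤ ‖aeval t r‖ := by
      apply ContinuousLinearMap.opNorm_le_bound _ (norm_nonneg _)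
      intro v
      calc ‖J 0 ((aeval t r) (R 0 v))‖ ≤ ‖(aeval t r) (R 0 v)‖ := hB.J_le hp 0 _
        _ ≤ ‖aeval t r‖ * ‖R 0 v‖ := (aeval t r).le_opNorm _
        _ ≤ ‖aeval t r‖ * ‖v‖ := by gcongr; exact hB.R_le hp 0 v
    have h1 := RR.small hRR0 S hcomm
    have e : y (S x) = y0 ((aeval t r) x0) := rfl
    rw [e] at h1
    calc _ ≤ ρ * (1 + ‖x‖) * ‖S‖ := h1
      _ ≤ ρ * (1 + B) * ‖aeval t r‖ := by gcongr
      _ = c * ‖aeval t r‖ := by rw [hc]
  obtain ⟨n, wt, u, v, a1, a2, a3, a4, a6, a5⟩ := corr_pos htop (rts_ne hN A) hd x0 y0 c hc0 hsmall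
  -- far parts
  set uu : ℕ → ellm ℂ p N := fun k => match k with
    | 0 => 0
    | j + 1 => ((wt j ^ (1 / pr) : ℝ) : ℂ) • u j with huu
  set vv : ℕ → (ellm ℂ p N →L[ℂ] ℂ) := fun k => match k with
    | 0 => 0
    | j + 1 => ((wt j ^ (1 / q) : ℝ) : ℂ) • v j with hvv
  set yk : ℕ → (ellm ℂ p N →L[ℂ] ℂ) := fun k => if k = 0 then y0 else vv k with hyk
  set xx : ell ℂ p := ∑ k ∈ Finset.range (n + 1), J k (uu k) with hxx
  set yy : ell ℂ p →L[ℂ] ℂ := ∑ k ∈ Finset.range (n + 1), (vv k).comp (R k) with hyy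
  have hxxn : ‖xx‖ ≤ η / 2 := by
    refine (hB.sumJ_le hp (Finset.range (n + 1)) uu (8 * c) (by positivity) ?_).trans hcp
    rw [Finset.sum_range_succ']
    have e0 : ‖uu 0‖ ^ pr = 0 := by
      show ‖(0 : ellm ℂ p N)‖ ^ pr = 0
      rw [norm_zero, Real.zero_rpow hp.ne']
    rw [e0, add_zero]
    refine le_trans (Finset.sum_le_sum fun j _ => ?_) a2
    show ‖((wt j ^ (1 / pr) : ℝ) : ℂ) • u j‖ ^ pr ≤ wt j
    rw [norm_smul, Complex.norm_real, Real.norm_of_nonneg (Real.rpow_nonneg (a1 j) _)]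
    calc (wt j ^ (1 / pr) * ‖u j‖) ^ pr ≤ (wt j ^ (1 / pr) * 1) ^ pr := by
          have := a1 j
          gcongr
          exact a3 j
      _ = wt j := by
          rw [mul_one, ← Real.rpow_mul (a1 j), one_div, inv_mul_cancel₀ hp.ne', Real.rpow_one]
  have hyyn : ‖yy‖ ≤ η / 2 := by
    refine (hB.sumR_le hpq (Finset.range (n + 1)) vv (8 * c) (by positivity) ?_).trans hcq
    rw [Finset.sum_range_succ']
    have e0 : ‖vv 0‖ ^ q = 0 := by
      show ‖(0 : ellm ℂ p N →L[ℂ] ℂ)‖ ^ q = 0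
      rw [norm_zero, Real.zero_rpow hq.ne']
    rw [e0, add_zero]
    refine le_trans (Finset.sum_le_sum fun j _ => ?_) a2
    show ‖((wt j ^ (1 / q) : ℝ) : ℂ) • v j‖ ^ q ≤ wt j
    rw [norm_smul, Complex.norm_real, Real.norm_of_nonneg (Real.rpow_nonneg (a1 j) _)]
    calc (wt j ^ (1 / q) * ‖v j‖) ^ q ≤ (wt j ^ (1 / q) * 1) ^ q := by
          have := a1 j
          gcongr
          exact a4 j
      _ = wt j := by
          rw [mul_one, ← Real.rpow_mul (a1 j), one_div, inv_mul_cancel₀ hq.ne', Real.rpow_one]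
  have hykn : ∀ k, NNf (yk k) := by
    intro k
    cases k with
    | zero => exact hy0n
    | succ j =>
      show NNf (((wt j ^ (1 / q) : ℝ) : ℂ) • v j)
      exact nnf_smul _ (a6 j) _ (Real.rpow_nonneg (a1 j) _)
  set x' : ell ℂ p := J 0 x0 + xx with hx'
  set y' : ell ℂ p →L[ℂ] ℂ := ∑ k ∈ Finset.range (n + 1), (yk k).comp (R k) with hy'
  have hy'e : y' = y0.comp (R 0) + yy := by
    rw [hy', hyy, Finset.sum_range_succ', Finset.sum_range_succ']
    have e0 : (vv 0).comp (R 0) = 0 := by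
      show (0 : ellm ℂ p N →L[ℂ] ℂ).comp (R 0) = 0
      simp
    rw [e0, add_zero]
    rw [add_comm]
    rfl
  set s : Finset ℕ := Finset.range (n + 2) with hsdef
  have h0s : 0 ∈ s := Finset.mem_range.2 (by omega)
  have hks : ∀ k ∈ Finset.range (n + 1), k ∈ s := fun k hk =>
    Finset.mem_range.2 (by have := Finset.mem_range.1 hk; omega)
  have hxy : ∀ r : ℂ[X], y' ((aeval (bOp J R s t) r) x') = 0 := by
    intro r
    have e1 : (aeval (bOp J R s t) r) x' = J 0 ((aeval t r) x0)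
        + ∑ k ∈ Finset.range (n + 1), J k ((aeval t r) (uu k)) := by
      rw [hx', map_add, hB.aeval_J s t r 0 h0s, hxx, map_sum]
      congr 1
      exact Finset.sum_congr rfl fun k hk => hB.aeval_J s t r k (hks k hk) _
    have e2 : y' (J 0 ((aeval t r) x0)) = y0 ((aeval t r) x0) := by
      rw [hy', sumR_J hB, if_pos (by simp)]
      rfl
    have e3 : ∀ k ∈ Finset.range (n + 1), y' (J k ((aeval t r) (uu k)))
        = vv k ((aeval t r) (uu k)) := by
      intro k hk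
      rw [hy', sumR_J hB, if_pos hk]
      rcases Nat.eq_zero_or_pos k with rfl | hk0
      · have : uu 0 = 0 := rfl
        rw [this]
        simp
      · show (if k = 0 then y0 else vv k) _ = _
        rw [if_neg hk0.ne']
    rw [e1, map_add, e2, map_sum, Finset.sum_congr rfl e3, Finset.sum_range_succ']
    have e4 : vv 0 ((aeval t r) (uu 0)) = 0 := by
      show (0 : ellm ℂ p N →L[ℂ] ℂ) _ = 0
      simp
    rw [e4, add_zero]
    have e5 : ∀ j, vv (j + 1) ((aeval t r) (uu (j + 1))) = (wt j : ℂ) * v j ((aeval t r) (u j)) := by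
      intro j
      show (((wt j ^ (1 / q) : ℝ) : ℂ) • v j) ((aeval t r) (((wt j ^ (1 / pr) : ℝ) : ℂ) • u j)) = _
      rw [map_smul, _root_.smul_apply, map_smul, smul_eq_mul, smul_eq_mul, ← mul_assoc,
        ← Complex.ofReal_mul, ← Real.rpow_add' (a1 j)]
      · have : 1 / q + 1 / pr = 1 := by
          have := hpq.inv_add_inv_eq_one
          rw [one_div, one_div, add_comm]
          exact this
        rw [this, Real.rpow_one]
      · have : 1 / q + 1 / pr = 1 := by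
          have := hpq.inv_add_inv_eq_one
          rw [one_div, one_div, add_comm]
          exact this
        rw [this]
        exact one_ne_zero
    simp only [e5]
    exact a5 r
  obtain ⟨M, hM1, hM2⟩ := chain_pos hN hB A hA hAs s (Finset.range (n + 1))
    (fun k hk => hks k hk) (n + 1) (Finset.mem_range.2 (by omega)) (by simp) x' yk
    (fun k _ => hykn k) hxy
  obtain ⟨hle, hle', hU1, -⟩ := hs s h0s
  have hlt : ‖(mkP (bOp J R s t) hle hle').op‖ < 1 := (hB.bOp_le hp s t).trans_lt htn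
  have hNpos : PosOp ((J (n + 1)).comp (∑ k ∈ Finset.range (n + 1),
      (opM p N (cm (M k))).comp (R k))) := by
    have e : (J (n + 1)).comp (∑ k ∈ Finset.range (n + 1), (opM p N (cm (M k))).comp (R k))
        = ∑ k ∈ Finset.range (n + 1), (J (n + 1)).comp ((opM p N (cm (M k))).comp (R k)) := by
      ext1 v
      simp [_root_.sum_apply]
    rw [e]
    exact pos_sum _ _ fun k hk => pos_JMR htop _ _ _ (hM1 k hk)
  obtain ⟨κ, hκ, hk1, hk1', hk2⟩ := perturbP U hU (mkP (bOp J R s t) hle hle') hU1 hlt _ hNpos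
  refine ⟨_, hk2, x', y', ?_, ?_, posFn_sum htop _ yk (fun k _ => hykn k),
    fun ρ' hρ' => hM2 κ hκ ρ' hρ'⟩
  · calc ‖x' - x‖ = ‖xx - (x - J 0 x0)‖ := by rw [hx']; congr 1; abel
      _ ≤ ‖xx‖ + ‖x - J 0 x0‖ := norm_sub_le _ _
      _ ≤ η / 2 + η / 2 := add_le_add hxxn hx.le
      _ = η := by ring
  · calc ‖y' - y‖ = ‖yy - (y - y0.comp (R 0))‖ := by rw [hy'e]; congr 1; abel
      _ ≤ ‖yy‖ + ‖y - y0.comp (R 0)‖ := norm_sub_le _ _
      _ ≤ η / 2 + η / 2 := add_le_add hyyn hy.le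
      _ = η := by ring

end Pool.Agent.W660.TP
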