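import Pool.Agent.W660.TP.RefineP

/-! Typical positive contractions have hyperinvariant subspaces (strong* topology). -/

set_option autoImplicit false
open Filter Topology Polynomial ENNReal Matrix
open scoped ComplexOrder

namespace Pool.Agent.W660.TP

open Pool.Agent.W736.TC

variable {N : ℕ} {p : ℝ≥0∞} [Fact (1 ≤ p)]

/-- start with `x` near a given vector, `y` of norm one -/
theorem start_xP (h1p : 1 < p) (htop : p ≠ ⊤) (x : ell ℂ p) (η : ℝ) (hη : 0 < η)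
    (U : Set (PosContr p)) (hU : IsOpen U) (hne : U.Nonempty) :
    ∃ T' ∈ U, ∃ (x' : ell ℂ p) (y' : ell ℂ p →L[ℂ] ℂ), ‖x' - x‖ ≤ η ∧ ‖y'‖ = 1 ∧ PosFn y' ∧
      ∀ ρ' : ℝ, 0 < ρ' → RR ρ' T'.op x' y' := by
  classical
  have hp := pos_r (p := p) htop
  obtain ⟨T, hT⟩ := hne
  obtain ⟨N, A, hN, hA, hAs, htn, hs, hx, -⟩ := approxP h1p htop U hU T hT x 0 η hη
  have hB := blk (p := p) htop N
  set J := JJ p N with hJ
  set R := RQ p htop N with hR
  set t : ellm ℂ p N →L[ℂ] ellm ℂ p N := opM p N (cm A) with ht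
  set i0 : Fin N := ⟨0, hN⟩ with hi0
  set g : ellm ℂ p N →L[ℂ] ℂ := PiLp.proj (𝕜 := ℂ) p (fun _ : Fin N => ℂ) i0 with hg
  have hgn : NNf g := by
    intro i
    show 0 ≤ (PiLp.single p i (1:ℂ) : ellm ℂ p N) i0
    exact single_nnv i i0
  have hg1 : ‖g‖ ≤ 1 := by
    apply ContinuousLinearMap.opNorm_le_bound _ zero_le_one
    intro v
    rw [one_mul]
    exact coord_le v i0
  set x' : ell ℂ p := J 0 (R 0 x) with hx'
  set s : Finset ℕ := {0, 1, 2} with hsd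
  set y' : ell ℂ p →L[ℂ] ℂ := ∑ k ∈ ({1} : Finset ℕ), g.comp (R k) with hy'
  have hy'e : y' = g.comp (R 1) := by
    rw [hy', Finset.sum_singleton]
  have hxy : ∀ r : ℂ[X], y' ((aeval (bOp J R s t) r) x') = 0 := by
    intro r
    rw [hx', hB.aeval_J s t r 0 (by simp [hsd]), hy'e, ContinuousLinearMap.comp_apply,
      hB.rj' 1 0 (by omega), map_zero]
  obtain ⟨M, hM1, hM2⟩ := chain_pos hN hB A hA hAs s {1} (by simp [hsd]) 2 (by simp [hsd])
    (by simp) x' (fun _ => g) (fun k _ => hgn) hxy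
  obtain ⟨hle, hle', hU1⟩ := hs s (by simp [hsd])
  have hlt : ‖(mkP (bOp J R s t) hle hle').op‖ < 1 := (hB.bOp_le hp s t).trans_lt htn
  have hNpos : PosOp ((J 2).comp (∑ k ∈ ({1} : Finset ℕ),
      (opM p N (cm (M k))).comp (R k))) := by
    have e : (J 2).comp (∑ k ∈ ({1} : Finset ℕ), (opM p N (cm (M k))).comp (R k))
        = ∑ k ∈ ({1} : Finset ℕ), (J 2).comp ((opM p N (cm (M k))).comp (R k)) := by
      ext1 v
      simp
    rw [e]
    exact pos_sum _ _ fun k hk => pos_JMR htop _ _ _ (hM1 k hk)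
  obtain ⟨κ, hκ, hk1, hk1', hk2⟩ := perturbP U hU (mkP (bOp J R s t) hle hle') hU1 hlt _ hNpos
  refine ⟨_, hk2, x', y', ?_, ?_, posFn_sum htop _ _ (fun k _ => hgn),
    fun ρ' hρ' => hM2 κ hκ ρ' hρ'⟩
  · rw [norm_sub_rev, hx', JR htop N x]
    exact hx.le
  · rw [hy'e]
    apply le_antisymm
    · apply ContinuousLinearMap.opNorm_le_bound _ zero_le_one
      intro v
      rw [ContinuousLinearMap.comp_apply, one_mul]
      calc _ ≤ ‖g‖ * ‖R 1 v‖ := g.le_opNorm _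
        _ ≤ 1 * ‖v‖ := by gcongr; exact hB.R_le hp 1 v
        _ = ‖v‖ := one_mul _
    · have h1 := (g.comp (R 1)).le_opNorm (J 1 (PiLp.single p i0 (1:ℂ)))
      rw [ContinuousLinearMap.comp_apply, hB.rj] at h1
      have h2 : g (PiLp.single p i0 (1:ℂ)) = 1 := by
        show (PiLp.single p i0 (1:ℂ) : ellm ℂ p N) i0 = 1
        simp
      rw [h2, norm_one] at h1
      have h3 : ‖J 1 (PiLp.single p i0 (1:ℂ))‖ ≤ 1 := by
        refine (hB.J_le hp 1 _).trans ?_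
        rw [norm_sg, norm_one]
      calc (1:ℝ) ≤ ‖g.comp (R 1)‖ * ‖J 1 (PiLp.single p i0 (1:ℂ))‖ := h1
        _ ≤ ‖g.comp (R 1)‖ * 1 := by gcongr
        _ = ‖g.comp (R 1)‖ := mul_one _

theorem typ_xP (h1p : 1 < p) (htop : p ≠ ⊤) (x0 : ell ℂ p) (η : ℝ) (hη : 0 < η) :
    {T : PosContr p | ∃ E : Submodule ℂ (ell ℂ p), Hyp T.op E ∧ E ≠ ⊤ ∧ ∃ x ∈ E, ‖x - x0‖ ≤ η} ∈
      residual (PosContr p) := by
  set ε : ℝ := min (η / 2) (1 / 4) with hε
  have hε0 : 0 < ε := lt_min (by positivity) (by norm_num)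
  have hε1 : 2 * ε ≤ η := by
    have := min_le_left (η / 2) (1 / 4 : ℝ)
    linarith
  have hε2 : 2 * ε ≤ 1 / 2 := by
    have := min_le_right (η / 2) (1 / 4 : ℝ)
    linarith
  set B : ℝ := ‖x0‖ + 2 * ε with hBd
  have hB : 0 ≤ B := by positivity
  have hstep := fun k : ℕ => refine_stepP h1p htop (ε * (1 / 2) ^ (k + 1)) B (by positivity) hB
  choose ρ hρ0 hρ using hstep
  set σ : ℕ → ℝ := fun k => min (ρ k) ((1 / 2 : ℝ) ^ k) with hσ
  have hσ0 : ∀ k, 0 < σ k := fun k => lt_min (hρ0 k) (half_pow k).1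
  set r : ℕ → ℝ := fun k => ε * (2 - (1 / 2 : ℝ) ^ k) with hr
  have hr2 : ∀ k, r k ≤ 2 * ε := by
    intro k
    have := (half_pow k).1
    simp only [hr]
    nlinarith
  have hrs : ∀ k, r (k + 1) = r k + ε * (1 / 2) ^ (k + 1) := by
    intro k
    simp only [hr]
    rw [pow_succ]
    ring
  have key := scheme (PosContr p) (ell ℂ p × (ell ℂ p →L[ℂ] ℂ))
    (fun k T P => RR (σ k) T.op P.1 P.2 ∧ ‖P.1 - x0‖ ≤ r k ∧ 1 - r k ≤ ‖P.2‖ ∧ PosFn P.2)
    (fun k P P' => ‖P'.1 - P.1‖ ≤ ε * (1 / 2) ^ (k + 1) ∧ ‖P'.2 - P.2‖ ≤ ε * (1 / 2) ^ (k + 1))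
    ?_ ?_ ?_
  · refine Filter.mem_of_superset key ?_
    rintro T ⟨P, hP⟩
    obtain ⟨x', y', h1, h2, h3⟩ := limit T.op (fun k => (P k).1) (fun k => (P k).2) σ ε
      (squeeze_zero (fun k => (hσ0 k).le) (fun k => min_le_right _ _)
        (tendsto_pow_atTop_nhds_zero_of_lt_one (by norm_num) (by norm_num)))
      (fun k => (hP k).1.1)
      (fun k => (hP k).2.1.trans (by
        have := (half_pow k).1
        rw [pow_succ]
        nlinarith))
      (fun k => (hP k).2.2.trans (by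
        have := (half_pow k).1
        rw [pow_succ]
        nlinarith))
    refine ⟨EE T.op y', hyp_EE _ _, ?_, x', h3, ?_⟩
    · intro htop'
      have hy0 : y' = 0 := by
        ext v
        have hv : v ∈ EE T.op y' := by rw [htop']; trivial
        have := hv (ContinuousLinearMap.id ℂ (ell ℂ p)) (by
          rw [ContinuousLinearMap.id_comp, ContinuousLinearMap.comp_id])
        simpa using this
      have h6 : (1 / 2 : ℝ) ≤ ‖y'‖ := ge_of_tendsto' h2.norm fun k => by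
        have h5k := (hP k).1.2.2.1
        have := hr2 k
        linarith
      rw [hy0, norm_zero] at h6
      linarith
    · refine (le_of_tendsto' (h1.sub_const x0).norm fun k => ?_).trans hε1
      exact (hP k).1.2.1.trans (hr2 k)
  · intro k P
    by_cases h : ‖P.1 - x0‖ ≤ r k ∧ 1 - r k ≤ ‖P.2‖ ∧ PosFn P.2
    · convert isOpen_RRP (σ k) P.1 P.2 using 1
      ext T
      exact ⟨fun h => h.1, fun h' => ⟨h', h⟩⟩
    · convert isOpen_empty using 1
      ext T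
      simp only [Set.mem_ofPred_eq, Set.mem_empty_iff_false, iff_false]
      exact fun h' => h h'.2
  · intro U hU hne
    obtain ⟨T', hT', x', y', h1, h2, h3, h4⟩ := start_xP h1p htop x0 ε hε0 U hU hne
    have hr0 : r 0 = ε := by simp [hr]; ring
    refine ⟨T', hT', (x', y'), h4 _ (hσ0 0), by rw [hr0]; exact h1, ?_, h3⟩
    rw [hr0]
    show 1 - ε ≤ ‖y'‖
    rw [h2]
    linarith
  · rintro k ⟨x, y⟩ T ⟨h1, h2, h3, h4⟩ U hU hT
    have hxB : ‖x‖ ≤ B := by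
      have h2' : ‖x - x0‖ ≤ r k := h2
      calc ‖x‖ = ‖x0 + (x - x0)‖ := by rw [add_sub_cancel]
        _ ≤ ‖x0‖ + ‖x - x0‖ := norm_add_le _ _
        _ ≤ ‖x0‖ + 2 * ε := by linarith [hr2 k]
    obtain ⟨T', hT', x', y', h5, h6, h7, h8⟩ := hρ k U hU T hT x y hxB h4
      (h1.mono (min_le_left _ _))
    refine ⟨T', hT', (x', y'), ⟨h8 _ (hσ0 (k + 1)), ?_, ?_, h7⟩, h5, h6⟩
    · rw [hrs]
      show ‖x' - x0‖ ≤ _
      have h2' : ‖x - x0‖ ≤ r k := h2
      calc ‖x' - x0‖ = ‖(x - x0) + (x' - x)‖ := by congr 1; abel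
        _ ≤ ‖x - x0‖ + ‖x' - x‖ := norm_add_le _ _
        _ ≤ _ := add_le_add h2' h5
    · rw [hrs]
      show _ ≤ ‖y'‖
      have h3' : 1 - r k ≤ ‖y‖ := h3
      have : ‖y‖ ≤ ‖y'‖ + ‖y' - y‖ := by
        calc ‖y‖ = ‖y' - (y' - y)‖ := by congr 1; abel
          _ ≤ _ := norm_sub_le _ _
      linarith

/-- the set of the positive contractions whose proper closed hyperinvariant subspaces have dense
union -/
def Good (p : ℝ≥0∞) [Fact (1 ≤ p)] : Set (PosContr p) :=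
  {T : PosContr p | ∀ (x : ell ℂ p) (ε : ℝ), 0 < ε → ∃ E : Submodule ℂ (ell ℂ p),
    Hyp T.op E ∧ E ≠ ⊤ ∧ ∃ x' ∈ E, ‖x' - x‖ < ε}

theorem main_sots (h1p : 1 < p) (htop : p ≠ ⊤) : Good p ∈ residual (PosContr p) := by
  have hsep : TopologicalSpace.SeparableSpace (ell ℂ p) := sep_ell htop
  have h1 : {T : PosContr p | ∀ (i j : ℕ), ∃ E : Submodule ℂ (ell ℂ p), Hyp T.op E ∧ E ≠ ⊤ ∧
      ∃ x ∈ E, ‖x - TopologicalSpace.denseSeq (ell ℂ p) i‖ ≤ 1 / ((j : ℝ) + 1)} ∈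
      residual (PosContr p) := by
    have : {T : PosContr p | ∀ (i j : ℕ), ∃ E : Submodule ℂ (ell ℂ p), Hyp T.op E ∧ E ≠ ⊤ ∧
      ∃ x ∈ E, ‖x - TopologicalSpace.denseSeq (ell ℂ p) i‖ ≤ 1 / ((j : ℝ) + 1)}
      = ⋂ (i : ℕ) (j : ℕ), {T : PosContr p | ∃ E : Submodule ℂ (ell ℂ p), Hyp T.op E ∧ E ≠ ⊤ ∧
      ∃ x ∈ E, ‖x - TopologicalSpace.denseSeq (ell ℂ p) i‖ ≤ 1 / ((j : ℝ) + 1)} := by
      ext T
      simp
    rw [this, countable_iInter_mem]
    intro i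
    rw [countable_iInter_mem]
    intro j
    exact typ_xP h1p htop _ _ (by positivity)
  filter_upwards [h1] with T hT1
  intro x ε hε
  obtain ⟨i, hi⟩ := (TopologicalSpace.denseRange_denseSeq (ell ℂ p)).exists_dist_lt x
    (show (0:ℝ) < ε / 2 by positivity)
  obtain ⟨j, hj⟩ := exists_nat_one_div_lt (show (0:ℝ) < ε / 2 by positivity)
  obtain ⟨E, hE1, hE2, x', hx', hxx⟩ := hT1 i j
  refine ⟨E, hE1, hE2, x', hx', ?_⟩
  rw [dist_eq_norm, norm_sub_rev] at hi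
  calc ‖x' - x‖ = ‖(x' - TopologicalSpace.denseSeq (ell ℂ p) i)
        + (TopologicalSpace.denseSeq (ell ℂ p) i - x)‖ := by
        congr 1; abel
    _ ≤ ‖x' - TopologicalSpace.denseSeq (ell ℂ p) i‖
        + ‖TopologicalSpace.denseSeq (ell ℂ p) i - x‖ := norm_add_le _ _
    _ < ε := by linarith

end Pool.Agent.W660.TP
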