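import Pool.Agent.W660.TP.ApproxP

/-! Positive matrices of norm one attain their norm at a strictly positive vector. -/

set_option autoImplicit false
open Filter Topology Polynomial ENNReal Matrix
open scoped ComplexOrder

namespace Pool.Agent.W660.TP

open Pool.Agent.W736.TC

variable {N : ℕ} {p : ℝ≥0∞} [Fact (1 ≤ p)]

/-- a real vector as an element of the complex space -/
noncomputable def vc (p : ℝ≥0∞) (ξ : Fin N → ℝ) : ellm ℂ p N := WithLp.toLp p (fun i => (ξ i : ℂ))

theorem vc_apply (ξ : Fin N → ℝ) (i : Fin N) : vc p ξ i = (ξ i : ℂ) := rfl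

theorem vc_norm (htop : p ≠ ⊤) (ξ : Fin N → ℝ) (h : ∀ i, 0 ≤ ξ i) :
    ‖vc p ξ‖ ^ p.toReal = ∑ i, ξ i ^ p.toReal := by
  rw [ellm_norm (pos_r htop)]
  refine Finset.sum_congr rfl fun i _ => ?_
  rw [vc_apply, Complex.norm_real, Real.norm_of_nonneg (h i)]

theorem opM_vc (B : Matrix (Fin N) (Fin N) ℝ) (ξ : Fin N → ℝ) :
    opM p N (cm B) (vc p ξ) = vc p (B.mulVec ξ) := by
  ext i
  rw [opM_apply', vc_apply, mulVec, dotProduct]
  push_cast
  rfl

theorem attain0 (hN : 0 < N) (T : ellm ℂ p N →L[ℂ] ellm ℂ p N) :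
    ∃ v : ellm ℂ p N, ‖v‖ = 1 ∧ ‖T v‖ = ‖T‖ := by
  have hc : IsCompact (Metric.sphere (0 : ellm ℂ p N) 1) := isCompact_sphere _ _
  have hne : (Metric.sphere (0 : ellm ℂ p N) 1).Nonempty := by
    refine ⟨PiLp.single p ⟨0, hN⟩ (1:ℂ), ?_⟩
    rw [mem_sphere_zero_iff_norm, norm_sg, norm_one]
  obtain ⟨v, hv, hmax⟩ := hc.exists_isMaxOn hne (f := fun v => ‖T v‖) (by fun_prop)
  rw [mem_sphere_zero_iff_norm] at hv
  refine ⟨v, hv, le_antisymm ?_ ?_⟩
  · calc ‖T v‖ ≤ ‖T‖ * ‖v‖ := T.le_opNorm v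
      _ = ‖T‖ := by rw [hv, mul_one]
  · apply ContinuousLinearMap.opNorm_le_of_unit_norm (norm_nonneg _)
    intro w hw
    exact hmax (mem_sphere_zero_iff_norm.2 hw)

theorem attain (h1p : 1 < p) (htop : p ≠ ⊤) (hN : 0 < N) (B : Matrix (Fin N) (Fin N) ℝ)
    (hB : ∀ i j, 0 < B i j) (hB1 : ‖opM p N (cm B)‖ = 1) :
    ∃ ξ : Fin N → ℝ, (∀ i, 0 < ξ i) ∧ ∑ i, ξ i ^ p.toReal = 1 ∧
      ∑ i, (B.mulVec ξ i) ^ p.toReal = 1 := by
  have hr : 1 < p.toReal := by
    rw [← ENNReal.toReal_one]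
    exact (ENNReal.toReal_lt_toReal ENNReal.one_ne_top htop).2 h1p
  set r : ℝ := p.toReal with hrd
  have hr0 : 0 < r := by linarith
  obtain ⟨v, hv1, hv2⟩ := attain0 hN (opM p N (cm B))
  rw [hB1] at hv2
  set ξ : Fin N → ℝ := fun i => ‖v i‖ with hξ
  have hξ0 : ∀ i, 0 ≤ ξ i := fun i => norm_nonneg _
  have hs1 : ∑ i, ξ i ^ r = 1 := by
    have := ellm_norm (p := p) (pos_r htop) v
    rw [hv1, Real.one_rpow] at this
    exact this.symm
  have hBξ0 : ∀ (w : Fin N → ℝ), (∀ i, 0 ≤ w i) → ∀ i, 0 ≤ B.mulVec w i := fun w hw i => by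
    rw [mulVec, dotProduct]
    exact Finset.sum_nonneg fun j _ => mul_nonneg (hB i j).le (hw j)
  have hle : ∀ w : Fin N → ℝ, (∀ i, 0 ≤ w i) → ∑ i, (B.mulVec w i) ^ r ≤ ∑ i, w i ^ r := by
    intro w hw
    rw [← vc_norm htop w hw, ← vc_norm htop _ (hBξ0 w hw), ← opM_vc]
    refine Real.rpow_le_rpow (norm_nonneg _) ?_ hr0.le
    calc _ ≤ ‖opM p N (cm B)‖ * ‖vc p w‖ := ContinuousLinearMap.le_opNorm _ _
      _ = ‖vc p w‖ := by rw [hB1, one_mul]
  have hge : 1 ≤ ∑ i, (B.mulVec ξ i) ^ r := by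
    have h1 := ellm_norm (p := p) (pos_r htop) (opM p N (cm B) v)
    rw [hv2, Real.one_rpow] at h1
    rw [h1]
    refine Finset.sum_le_sum fun i _ => Real.rpow_le_rpow (norm_nonneg _) ?_ hr0.le
    rw [opM_apply']
    refine (norm_sum_le _ _).trans (le_of_eq ?_)
    refine Finset.sum_congr rfl fun j _ => ?_
    have : (cm B) i j = ((B i j : ℝ) : ℂ) := rfl
    rw [this, norm_mul, Complex.norm_real, Real.norm_of_nonneg (hB i j).le]
  have hs2 : ∑ i, (B.mulVec ξ i) ^ r = 1 := le_antisymm ((hle ξ hξ0).trans hs1.le) hge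
  have hξne : ∃ j, 0 < ξ j := by
    by_contra hcon
    push Not at hcon
    have : ∑ i, ξ i ^ r = 0 := Finset.sum_eq_zero fun i _ => by
      rw [le_antisymm (hcon i) (hξ0 i), Real.zero_rpow hr0.ne']
    rw [this] at hs1
    exact zero_ne_one hs1
  have hη : ∀ i, 0 < B.mulVec ξ i := by
    obtain ⟨j, hj⟩ := hξne
    intro i
    rw [mulVec, dotProduct]
    exact Finset.sum_pos' (fun k _ => mul_nonneg (hB i k).le (hξ0 k))
      ⟨j, Finset.mem_univ _, mul_pos (hB i j) hj⟩
  refine ⟨ξ, fun i => ?_, hs1, hs2⟩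
  by_contra hi
  have hi0 : ξ i = 0 := le_antisymm (not_lt.1 hi) (hξ0 i)
  set η : Fin N → ℝ := B.mulVec ξ with hηd
  set C : ℝ := r * η i ^ (r - 1) * B i i with hC
  have hC0 : 0 < C := by
    have := hη i
    have := hB i i
    positivity
  have key : ∀ ε : ℝ, 0 < ε → C * ε ≤ ε ^ r := by
    intro ε hε
    set w : Fin N → ℝ := fun j => ξ j + (if j = i then ε else 0) with hw
    have hw0 : ∀ j, 0 ≤ w j := fun j => by
      simp only [hw]
      split_ifs
      · linarith [hξ0 j]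
      · linarith [hξ0 j]
    have h1 : ∑ j, w j ^ r = 1 + ε ^ r := by
      rw [← hs1, ← Finset.add_sum_erase _ _ (Finset.mem_univ i),
        ← Finset.add_sum_erase _ _ (Finset.mem_univ i)]
      have e1 : w i ^ r = ε ^ r := by
        simp only [hw]
        rw [hi0]
        simp
      have e2 : ξ i ^ r = 0 := by rw [hi0, Real.zero_rpow hr0.ne']
      have e3 : ∑ j ∈ Finset.univ.erase i, w j ^ r = ∑ j ∈ Finset.univ.erase i, ξ j ^ r := by
        refine Finset.sum_congr rfl fun j hj => ?_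
        simp only [hw]
        rw [if_neg (Finset.ne_of_mem_erase hj), add_zero]
      rw [e1, e2, e3]
      ring
    have h2 : ∀ k, B.mulVec w k = η k + B k i * ε := by
      intro k
      simp only [hηd, mulVec, dotProduct, hw, mul_add, Finset.sum_add_distrib]
      congr 1
      simp
    have h3 : 1 + C * ε ≤ ∑ k, (B.mulVec w k) ^ r := by
      rw [← hs2, ← Finset.add_sum_erase _ _ (Finset.mem_univ i),
        ← Finset.add_sum_erase _ _ (Finset.mem_univ i)]
      have e1 : η i ^ r + C * ε ≤ (B.mulVec w i) ^ r := by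
        rw [h2]
        have hηi := hη i
        have hBi := hB i i
        have e4 : η i + B i i * ε = η i * (1 + B i i * ε / η i) := by
          field_simp
        have e5 := one_add_mul_self_le_rpow_one_add (s := B i i * ε / η i)
          (by have : 0 ≤ B i i * ε / η i := by positivity
              linarith) hr.le
        rw [e4, Real.mul_rpow hηi.le (by positivity)]
        calc η i ^ r + C * ε = η i ^ r * (1 + r * (B i i * ε / η i)) := by
              have e6 : η i ^ r = η i ^ (r - 1) * η i := by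
                rw [← Real.rpow_add_one hηi.ne']
                congr 1
                ring
              rw [hC, e6]
              field_simp
          _ ≤ η i ^ r * (1 + B i i * ε / η i) ^ r := by gcongr
      have e2 : ∑ k ∈ Finset.univ.erase i, η k ^ r ≤
          ∑ k ∈ Finset.univ.erase i, (B.mulVec w k) ^ r := by
        refine Finset.sum_le_sum fun k _ => ?_
        rw [h2]
        have := hη k
        have := hB k i
        exact Real.rpow_le_rpow (hη k).le (by nlinarith) hr0.le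
      linarith
    have h4 := hle w hw0
    linarith
  -- contradiction for small `ε`
  have hlim : Tendsto (fun ε : ℝ => ε ^ (r - 1)) (𝓝[>] 0) (𝓝 0) := by
    have h1 : ContinuousAt (fun ε : ℝ => ε ^ (r - 1)) 0 :=
      Real.continuousAt_rpow_const _ _ (Or.inr (by linarith))
    have h2 := h1.tendsto
    rw [Real.zero_rpow (by linarith)] at h2
    exact tendsto_nhdsWithin_of_tendsto_nhds h2
  obtain ⟨ε, hε1, hε0⟩ := ((hlim.eventually (gt_mem_nhds hC0)).and self_mem_nhdsWithin).exists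
  replace hε0 : 0 < ε := hε0
  have h5 := key ε hε0
  have h6 : ε ^ r = ε ^ (r - 1) * ε := by
    rw [← Real.rpow_add_one hε0.ne']
    congr 1
    ring
  rw [h6] at h5
  have h7 := le_of_mul_le_mul_right h5 hε0
  linarith

end Pool.Agent.W660.TP
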