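import Pool.Agent.W660.TP.WotA
import Pool.Agent.W660.TP.RefineP

/-! Positive functionals and absolute values in `ℓ_p`. -/

set_option autoImplicit false
open Filter Topology Polynomial ENNReal Matrix
open scoped ComplexOrder

namespace Pool.Agent.W660.TP

open Pool.Agent.W736.TC

variable {N : ℕ} {p : ℝ≥0∞} [Fact (1 ≤ p)]

/-- a sequence dominated by an element of `ℓ_p` -/
noncomputable def domSeq (htop : p ≠ ⊤) (v : ell ℂ p) (f : ℕ → ℂ) (h : ∀ n, ‖f n‖ ≤ ‖v n‖) :
    ell ℂ p :=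
  ⟨f, by
    have hp := pos_r (p := p) htop
    have h1 := (lp.memℓp v).summable hp
    apply memℓp_gen
    refine Summable.of_nonneg_of_le (fun n => by positivity) (fun n => ?_) h1
    exact Real.rpow_le_rpow (norm_nonneg _) (h n) hp.le⟩

theorem domSeq_apply (htop : p ≠ ⊤) (v : ell ℂ p) (f : ℕ → ℂ) (h : ∀ n, ‖f n‖ ≤ ‖v n‖) (n : ℕ) :
    domSeq htop v f h n = f n := rfl

theorem domSeq_norm (htop : p ≠ ⊤) (v : ell ℂ p) (f : ℕ → ℂ) (h : ∀ n, ‖f n‖ ≤ ‖v n‖) :
    ‖domSeq htop v f h‖ ≤ ‖v‖ := lp.norm_mono pos_p h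

/-- absolute value -/
noncomputable def absq (htop : p ≠ ⊤) (v : ell ℂ p) : ell ℂ p :=
  domSeq htop v (fun n => ((‖v n‖ : ℝ) : ℂ)) (fun n => by rw [Complex.norm_real, norm_norm])

/-- real part -/
noncomputable def req (htop : p ≠ ⊤) (v : ell ℂ p) : ell ℂ p :=
  domSeq htop v (fun n => (((v n).re : ℝ) : ℂ)) (fun n => by
    rw [Complex.norm_real]
    exact Complex.abs_re_le_norm _)

/-- imaginary part -/
noncomputable def imq (htop : p ≠ ⊤) (v : ell ℂ p) : ell ℂ p :=
  domSeq htop v (fun n => (((v n).im : ℝ) : ℂ)) (fun n => by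
    rw [Complex.norm_real]
    exact Complex.abs_im_le_norm _)

theorem absq_nn (htop : p ≠ ⊤) (v : ell ℂ p) (n : ℕ) : 0 ≤ absq htop v n :=
  Complex.zero_le_real.2 (norm_nonneg _)

theorem posFn_real (htop : p ≠ ⊤) (f : ell ℂ p →L[ℂ] ℂ) (hf : PosFn f) (u : ell ℂ p)
    (hu : ∀ n, (u n).im = 0) : (f u).im = 0 := by
  have h1 : 0 ≤ f (u + absq htop u) := by
    apply hf
    intro n
    have e : (u + absq htop u) n = u n + ((‖u n‖ : ℝ) : ℂ) := rfl
    rw [e, Complex.le_def]
    have h2 := Complex.abs_re_le_norm (u n)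
    have h3 := neg_abs_le (u n).re
    constructor
    · simp only [Complex.zero_re, Complex.add_re, Complex.ofReal_re]
      linarith
    · simp only [Complex.zero_im, Complex.add_im, Complex.ofReal_im, hu n, add_zero]
  have h2 : 0 ≤ f (absq htop u) := hf _ (absq_nn htop u)
  have h3 := (Complex.le_def.1 h1).2
  have h4 := (Complex.le_def.1 h2).2
  rw [map_add, Complex.add_im] at h3
  simp only [Complex.zero_im] at h3 h4
  linarith

theorem posFn_re_le (htop : p ≠ ⊤) (f : ell ℂ p →L[ℂ] ℂ) (hf : PosFn f) (v : ell ℂ p) :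
    (f v).re ≤ (f (absq htop v)).re := by
  have e : v = req htop v + Complex.I • imq htop v := by
    ext n
    have : (req htop v + Complex.I • imq htop v) n
        = (((v n).re : ℝ) : ℂ) + Complex.I * (((v n).im : ℝ) : ℂ) := rfl
    rw [this, mul_comm]
    exact (Complex.re_add_im _).symm
  have h1 : (f v).re = (f (req htop v)).re := by
    conv_lhs => rw [e]
    rw [map_add, map_smul, Complex.add_re, smul_eq_mul, Complex.mul_re, Complex.I_re, Complex.I_im,
      posFn_real htop f hf (imq htop v) (fun n => Complex.ofReal_im _)]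
    ring
  have h2 : 0 ≤ f (absq htop v - req htop v) := by
    apply hf
    intro n
    have e : (absq htop v - req htop v) n = ((‖v n‖ - (v n).re : ℝ) : ℂ) := by
      rw [Complex.ofReal_sub]
      rfl
    rw [e]
    exact Complex.zero_le_real.2 (sub_nonneg.2 (Complex.re_le_norm _))
  have h3 := (Complex.le_def.1 h2).1
  rw [map_sub, Complex.sub_re, Complex.zero_re] at h3
  linarith

theorem posFn_norm_le (htop : p ≠ ⊤) (f : ell ℂ p →L[ℂ] ℂ) (hf : PosFn f) (v : ell ℂ p) :
    ‖f v‖ ≤ (f (absq htop v)).re := by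
  obtain ⟨c, hc1, hc2⟩ := phase (f v)
  have h1 := posFn_re_le htop f hf (c • v)
  rw [map_smul, smul_eq_mul, hc2, Complex.ofReal_re] at h1
  have h2 : absq htop (c • v) = absq htop v := by
    ext n
    show ((‖c • v n‖ : ℝ) : ℂ) = ((‖v n‖ : ℝ) : ℂ)
    rw [norm_smul, hc1, one_mul]
  rwa [h2] at h1

theorem nn_norm_le {a b : ℂ} (ha : 0 ≤ a) (hab : 0 ≤ b - a) : ‖a‖ ≤ ‖b‖ := by
  obtain ⟨h1, h2⟩ := Complex.le_def.1 ha
  obtain ⟨h3, h4⟩ := Complex.le_def.1 hab
  simp only [Complex.zero_re, Complex.zero_im, Complex.sub_re, Complex.sub_im] at h1 h2 h3 h4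
  have e : ‖a‖ = a.re := by
    have : a = ((a.re : ℝ) : ℂ) := Complex.ext rfl (by simpa using h2.symm)
    conv_lhs => rw [this]
    rw [Complex.norm_real, Real.norm_of_nonneg h1]
  rw [e]
  calc a.re ≤ b.re := by linarith
    _ ≤ ‖b‖ := Complex.re_le_norm b

theorem posFn_mono (f : ell ℂ p →L[ℂ] ℂ) (hf : PosFn f) (u v : ell ℂ p)
    (h : ∀ n, 0 ≤ v n - u n) : (f u).re ≤ (f v).re := by
  have h1 : 0 ≤ f (v - u) := hf _ h
  have h2 := (Complex.le_def.1 h1).1
  rw [map_sub, Complex.sub_re, Complex.zero_re] at h2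
  linarith

end Pool.Agent.W660.TP
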