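import Pool.Agent.W660.TP.WotB

/-! Weak operator convergence to a positive block of norm one. -/

set_option autoImplicit false
open Filter Topology Polynomial ENNReal Matrix
open scoped ComplexOrder

namespace Pool.Agent.W660.TP

open Pool.Agent.W736.TC

variable {N : ℕ} {p : ℝ≥0∞} [Fact (1 ≤ p)]

/-- unit vectors -/
noncomputable abbrev ee (p : ℝ≥0∞) [Fact (1 ≤ p)] (i : ℕ) : ell ℂ p := lp.single p i (1:ℂ)

/-- the block operator -/
noncomputable abbrev TB (htop : p ≠ ⊤) (B : Matrix (Fin N) (Fin N) ℝ) : ell ℂ p →L[ℂ] ell ℂ p :=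
  (JJ p N 0).comp ((opM p N (cm B)).comp (RQ p htop N 0))

theorem J_norm (htop : p ≠ ⊤) (v : ellm ℂ p N) : ‖JJ p N 0 v‖ = ‖v‖ := by
  apply le_antisymm (J_le' htop 0 v)
  have h := R_le' htop 0 (JJ p N 0 v) (N := N)
  rwa [(blk htop N).rj] at h

theorem JJ_eq (v : ellm ℂ p N) : JJ p N 0 v = ∑ i : Fin N, v i • ee p i := by
  rw [Jm_apply]
  refine Finset.sum_congr rfl fun i _ => ?_
  have : (v i) • ee p i = lp.single p (i : ℕ) (v i) := by
    rw [← lp.single_smul, smul_eq_mul, mul_one]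
  rw [this]
  simp

theorem Pn_eq (v : ell ℂ p) : Pn ℂ p N v = ∑ i ∈ Finset.range N, v i • ee p i := by
  rw [Pn_apply]
  refine Finset.sum_congr rfl fun i _ => ?_
  rw [← lp.single_smul, smul_eq_mul, mul_one]

/-- coordinatewise convergence implies convergence of the truncations -/
theorem tendsto_Pn {ι : Type} {F : Filter ι} (f : ι → ell ℂ p) (z : ell ℂ p)
    (h : ∀ j < N, Tendsto (fun S => f S j) F (𝓝 (z j))) :
    Tendsto (fun S => Pn ℂ p N (f S)) F (𝓝 (Pn ℂ p N z)) := by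
  simp only [Pn_eq]
  refine tendsto_finsetSum _ fun j hj => ?_
  exact (h j (Finset.mem_range.1 hj)).smul_const _

theorem Pn_TB (htop : p ≠ ⊤) (B : Matrix (Fin N) (Fin N) ℝ) (v : ell ℂ p) :
    Pn ℂ p N (TB htop B v) = TB htop B v := by
  rw [← JR htop N]
  show JJ p N 0 (RQ p htop N 0 (JJ p N 0 (opM p N (cm B) (RQ p htop N 0 v)))) = _
  rw [(blk htop N).rj]
  rfl

theorem TB_Pn (htop : p ≠ ⊤) (B : Matrix (Fin N) (Fin N) ℝ) (v : ell ℂ p) :
    TB htop B (Pn ℂ p N v) = TB htop B v := by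
  rw [← JR htop N]
  show JJ p N 0 (opM p N (cm B) (RQ p htop N 0 (JJ p N 0 (RQ p htop N 0 v)))) = _
  rw [(blk htop N).rj]
  rfl

section
variable (h1p : 1 < p) (htop : p ≠ ⊤) (B : Matrix (Fin N) (Fin N) ℝ)
  (F : Filter (PosContr p))

theorem TB_J (ξ : Fin N → ℝ) : TB htop B (JJ p N 0 (vc p ξ)) = JJ p N 0 (vc p (B.mulVec ξ)) := by
  show JJ p N 0 (opM p N (cm B) (RQ p htop N 0 (JJ p N 0 (vc p ξ)))) = _
  rw [(blk htop N).rj, opM_vc]

theorem nn_J (ξ : Fin N → ℝ) (hξ : ∀ i, 0 ≤ ξ i) (n : ℕ) : 0 ≤ (JJ p N 0 (vc p ξ)) n :=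
  JJ_nn 0 _ (fun i => Complex.zero_le_real.2 (hξ i)) n

/-- values at the norming vector -/
theorem tendsto_xi (hF : ∀ i < N, ∀ j < N, Tendsto (fun S : PosContr p => S.op (ee p i) j) F
      (𝓝 (TB htop B (ee p i) j))) (ξ : Fin N → ℝ) (j : ℕ) (hj : j < N) :
    Tendsto (fun S : PosContr p => S.op (JJ p N 0 (vc p ξ)) j) F
      (𝓝 (TB htop B (JJ p N 0 (vc p ξ)) j)) := by
  have e : ∀ A : ell ℂ p →L[ℂ] ell ℂ p, A (JJ p N 0 (vc p ξ)) j
      = ∑ i : Fin N, (ξ i : ℂ) * A (ee p i) j := by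
    intro A
    rw [JJ_eq, map_sum, lp.coeFn_sum, Finset.sum_apply]
    refine Finset.sum_congr rfl fun i _ => ?_
    rw [map_smul]
    rfl
  simp only [e]
  exact tendsto_finsetSum _ fun i _ => (hF i i.2 j hj).const_mul _

theorem col_tendsto (hp1 : 0 < p.toReal) (ξ : Fin N → ℝ) (hξ : ∀ i, 0 < ξ i)
    (hξ1 : ∑ i, ξ i ^ p.toReal = 1) (hη : ∀ i, 0 ≤ B.mulVec ξ i)
    (hη1 : ∑ i, (B.mulVec ξ i) ^ p.toReal = 1)
    (hF : ∀ i < N, ∀ j < N, Tendsto (fun S : PosContr p => S.op (ee p i) j) F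
      (𝓝 (TB htop B (ee p i) j))) (i : ℕ) (hi : i < N) :
    Tendsto (fun S : PosContr p => S.op (ee p i)) F (𝓝 (TB htop B (ee p i))) := by
  set r : ℝ := p.toReal with hr
  set x0 : ell ℂ p := JJ p N 0 (vc p ξ) with hx0
  have hx0n : ‖x0‖ ^ r = 1 := by
    rw [hx0, J_norm htop, vc_norm htop ξ (fun i => (hξ i).le), hξ1]
  have hTx0 : TB htop B x0 = JJ p N 0 (vc p (B.mulVec ξ)) := TB_J htop B ξ
  have hTx0n : ‖TB htop B x0‖ ^ r = 1 := by
    rw [hTx0, J_norm htop, vc_norm htop _ hη, hη1]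
  -- truncations of `S x0`
  have h1 : Tendsto (fun S : PosContr p => Pn ℂ p N (S.op x0)) F (𝓝 (TB htop B x0)) := by
    have := tendsto_Pn (N := N) (F := F) (fun S : PosContr p => S.op x0) (TB htop B x0)
      (fun j hj => tendsto_xi htop B F hF ξ j hj)
    rwa [Pn_TB] at this
  have h2 : Tendsto (fun S : PosContr p => ‖Pn ℂ p N (S.op x0)‖ ^ r) F (𝓝 1) := by
    have := (h1.norm).rpow_const (p := r) (Or.inr hp1.le)
    rwa [hTx0n] at this
  have h3 : Tendsto (fun S : PosContr p => ‖S.op x0 - Pn ℂ p N (S.op x0)‖ ^ r) F (𝓝 0) := by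
    have h4 : Tendsto (fun S : PosContr p => 1 - ‖Pn ℂ p N (S.op x0)‖ ^ r) F (𝓝 0) := by
      have := h2.const_sub 1
      rwa [sub_self] at this
    refine squeeze_zero (fun S => by positivity) (fun S => ?_) h4
    have h5 := Pn_norm htop N (S.op x0)
    have h6 : ‖S.op x0‖ ^ r ≤ 1 := by
      rw [← hx0n]
      exact Real.rpow_le_rpow (norm_nonneg _) (S.app_le x0) hp1.le
    linarith
  have h4 : Tendsto (fun S : PosContr p => ‖S.op x0 - Pn ℂ p N (S.op x0)‖) F (𝓝 0) := by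
    have := h3.rpow_const (p := 1 / r) (Or.inr (by positivity))
    rw [Real.zero_rpow (by positivity)] at this
    refine this.congr fun S => ?_
    rw [← Real.rpow_mul (norm_nonneg _), mul_one_div, div_self hp1.ne', Real.rpow_one]
  -- the column
  set a : ℝ := ξ ⟨i, hi⟩ with ha
  have ha0 : 0 < a := hξ _
  have hdom : ∀ n, 0 ≤ (x0 - (a : ℂ) • ee p i) n := by
    intro n
    have e1 : x0 = ∑ k : Fin N, (ξ k : ℂ) • ee p k := by
      rw [hx0, JJ_eq]
      rfl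
    have e2 : x0 - (a : ℂ) • ee p i = ∑ k ∈ Finset.univ.erase (⟨i, hi⟩ : Fin N),
        (ξ k : ℂ) • ee p k := by
      rw [e1, ← Finset.add_sum_erase _ _ (Finset.mem_univ (⟨i, hi⟩ : Fin N))]
      rw [add_sub_cancel_left]
    rw [e2, lp.coeFn_sum, Finset.sum_apply]
    refine Finset.sum_nonneg fun k _ => ?_
    have : ((ξ k : ℂ) • ee p k) n = (ξ k : ℂ) * (ee p k) n := rfl
    rw [this]
    exact mul_nonneg (Complex.zero_le_real.2 (hξ k).le) (single_nn _ _ zero_le_one n)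
  have h5 : ∀ S : PosContr p, ‖S.op (ee p i) - Pn ℂ p N (S.op (ee p i))‖
      ≤ a⁻¹ * ‖S.op x0 - Pn ℂ p N (S.op x0)‖ := by
    intro S
    have h6 : ‖(a : ℂ) • (S.op (ee p i) - Pn ℂ p N (S.op (ee p i)))‖
        ≤ ‖S.op x0 - Pn ℂ p N (S.op x0)‖ := by
      apply lp.norm_mono pos_p
      intro n
      have e1 : ((a : ℂ) • (S.op (ee p i) - Pn ℂ p N (S.op (ee p i)))) n
          = (a : ℂ) * (S.op (ee p i) n - (Pn ℂ p N (S.op (ee p i))) n) := rfl
      have e2 : (S.op x0 - Pn ℂ p N (S.op x0)) n = S.op x0 n - (Pn ℂ p N (S.op x0)) n := rfl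
      rw [e1, e2, Pn_coord, Pn_coord]
      split_ifs with hn
      · simp
      · rw [sub_zero, sub_zero]
        apply nn_norm_le
        · exact mul_nonneg (Complex.zero_le_real.2 ha0.le)
            (S.pos _ (fun m => single_nn _ _ zero_le_one m) n)
        · have h7 := S.pos _ hdom n
          rw [map_sub, map_smul] at h7
          exact h7
    rw [norm_smul, Complex.norm_real, Real.norm_of_nonneg ha0.le] at h6
    calc ‖S.op (ee p i) - Pn ℂ p N (S.op (ee p i))‖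
        = a⁻¹ * (a * ‖S.op (ee p i) - Pn ℂ p N (S.op (ee p i))‖) := by
          rw [← mul_assoc, inv_mul_cancel₀ ha0.ne', one_mul]
      _ ≤ _ := by gcongr
  have h6 : Tendsto (fun S : PosContr p => S.op (ee p i) - Pn ℂ p N (S.op (ee p i))) F (𝓝 0) := by
    apply squeeze_zero_norm h5
    have := h4.const_mul a⁻¹
    rwa [mul_zero] at this
  have h7 : Tendsto (fun S : PosContr p => Pn ℂ p N (S.op (ee p i))) F
      (𝓝 (TB htop B (ee p i))) := by
    have := tendsto_Pn (N := N) (F := F) (fun S : PosContr p => S.op (ee p i))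
      (TB htop B (ee p i)) (fun j hj => hF i hi j hj)
    rwa [Pn_TB] at this
  have h8 := h7.add h6
  rw [add_zero] at h8
  refine h8.congr fun S => ?_
  abel

end

end Pool.Agent.W660.TP
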