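import Pool.Agent.W660.TP.WotC

/-! Weak operator convergence to a positive block of norm one: the adjoints. -/

set_option autoImplicit false
open Filter Topology Polynomial ENNReal Matrix
open scoped ComplexOrder

namespace Pool.Agent.W660.TP

open Pool.Agent.W736.TC

variable {N : ℕ} {p : ℝ≥0∞} [Fact (1 ≤ p)]

/-- coordinate functionals -/
noncomputable abbrev ev (p : ℝ≥0∞) [Fact (1 ≤ p)] (j : ℕ) : ell ℂ p →L[ℂ] ℂ :=
  lp.evalCLM ℂ (fun _ : ℕ => ℂ) p j

theorem ev_apply (j : ℕ) (v : ell ℂ p) : ev p j v = v j := rfl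

theorem row_tendsto (h1p : 1 < p) (htop : p ≠ ⊤) (B : Matrix (Fin N) (Fin N) ℝ)
    (F : Filter (PosContr p)) (ξ : Fin N → ℝ) (hξ : ∀ i, 0 < ξ i)
    (hξ1 : ∑ i, ξ i ^ p.toReal = 1) (hη : ∀ i, 0 < B.mulVec ξ i)
    (hη1 : ∑ i, (B.mulVec ξ i) ^ p.toReal = 1)
    (hF : ∀ i < N, ∀ j < N, Tendsto (fun S : PosContr p => S.op (ee p i) j) F
      (𝓝 (TB htop B (ee p i) j))) (j : ℕ) (hj : j < N) :
    Tendsto (fun S : PosContr p => (ev p j).comp S.op) F (𝓝 ((ev p j).comp (TB htop B))) := by
  classical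
  have hr1 : 1 < p.toReal := by
    rw [← ENNReal.toReal_one]
    exact (ENNReal.toReal_lt_toReal ENNReal.one_ne_top htop).2 h1p
  set r : ℝ := p.toReal with hr
  have hr0 : 0 < r := by linarith
  set q : ℝ := r.conjExponent with hqd
  have hpq : r.HolderConjugate q := Real.HolderConjugate.conjExponent hr1
  set b : Fin N → ℝ := fun k => (B.mulVec ξ k) ^ (r - 1) with hb
  have hb0 : ∀ k, 0 < b k := fun k => Real.rpow_pos_of_pos (hη k) _
  set x0 : ell ℂ p := JJ p N 0 (vc p ξ) with hx0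
  have hx0n : ‖x0‖ ^ r = 1 := by
    rw [hx0, J_norm htop, vc_norm htop ξ (fun i => (hξ i).le), hξ1]
  set y : ell ℂ p →L[ℂ] ℂ := ∑ k : Fin N, ((b k : ℝ) : ℂ) • ev p k with hy
  have hyv : ∀ v, y v = ∑ k : Fin N, (b k : ℂ) * v k := by
    intro v
    rw [hy, _root_.sum_apply]
    rfl
  -- the norm of `y`
  have hyn : ∀ v, ‖y v‖ ≤ ‖v‖ := by
    intro v
    have h1 : ∑ k : Fin N, ‖v k‖ ^ r ≤ ‖v‖ ^ r := by
      have h2 := ellm_norm (p := p) hr0 (RQ p htop N 0 v)
      have h3 : ∑ k : Fin N, ‖v k‖ ^ r = ‖RQ p htop N 0 v‖ ^ r := by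
        rw [h2]
        refine Finset.sum_congr rfl fun k _ => ?_
        rw [Rm_apply]
        simp [hr]
      rw [h3]
      exact Real.rpow_le_rpow (norm_nonneg _) (R_le' htop 0 v) hr0.le
    calc ‖y v‖ ≤ ∑ k : Fin N, ‖v k‖ * b k := by
          rw [hyv]
          refine (norm_sum_le _ _).trans (le_of_eq (Finset.sum_congr rfl fun k _ => ?_))
          rw [norm_mul, Complex.norm_real, Real.norm_of_nonneg (hb0 k).le, mul_comm]
      _ ≤ (∑ k : Fin N, |‖v k‖| ^ r) ^ (1 / r) * (∑ k : Fin N, |b k| ^ q) ^ (1 / q) :=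
          Real.inner_le_Lp_mul_Lq _ _ _ hpq
      _ = (∑ k : Fin N, ‖v k‖ ^ r) ^ (1 / r) * 1 := by
          congr 1
          · congr 1
            refine Finset.sum_congr rfl fun k _ => ?_
            rw [abs_of_nonneg (norm_nonneg _)]
          · have : ∑ k : Fin N, |b k| ^ q = 1 := by
              rw [← hη1]
              refine Finset.sum_congr rfl fun k _ => ?_
              rw [abs_of_pos (hb0 k), hb]
              simp only
              rw [← Real.rpow_mul (hη k).le, hpq.sub_one_mul_conj]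
            rw [this, Real.one_rpow]
      _ ≤ (‖v‖ ^ r) ^ (1 / r) * 1 := by gcongr
      _ = ‖v‖ := by
          rw [mul_one, ← Real.rpow_mul (norm_nonneg _), mul_one_div, div_self hr0.ne',
            Real.rpow_one]
  have hyx : Tendsto (fun S : PosContr p => (y (S.op x0)).re) F (𝓝 1) := by
    have h1 : Tendsto (fun S : PosContr p => y (S.op x0)) F (𝓝 (y (TB htop B x0))) := by
      simp only [hyv]
      exact tendsto_finsetSum _ fun k _ => (tendsto_xi htop B F hF ξ k k.2).const_mul _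
    have h2 : y (TB htop B x0) = 1 := by
      rw [hx0, TB_J, hyv]
      have e : ∀ k : Fin N, (JJ p N 0 (vc p (B.mulVec ξ))) k = (B.mulVec ξ k : ℂ) := by
        intro k
        have := Jm_coord (p := p) (ContinuousLinearMap.id ℂ ℂ) N 0 0 (vc p (B.mulVec ξ)) k
        rw [if_pos rfl, zero_mul, zero_add] at this
        exact this
      simp only [e]
      rw [← Complex.ofReal_one, ← hη1]
      push_cast
      refine Finset.sum_congr rfl fun k _ => ?_
      rw [← Complex.ofReal_mul]
      congr 1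
      rw [hb]
      simp only
      rw [← Real.rpow_add_one (hη k).ne']
      congr 1
      ring
    rw [h2] at h1
    have h3 := (Complex.continuous_re.tendsto _).comp h1
    rw [Complex.one_re] at h3
    exact h3
  set jj : Fin N := ⟨j, hj⟩ with hjj
  -- the main estimate
  have main : ∀ (S : PosContr p) (β : ℝ), 0 < β →
      ‖(ev p j).comp S.op - (ev p j).comp (TB htop B)‖ ≤
        ∑ i ∈ Finset.range N, ‖S.op (ee p i) j - TB htop B (ee p i) j‖
        + (b jj)⁻¹ * ((1 - (y (S.op x0)).re) / β + β ^ (r - 1)) := by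
    intro S β hβ
    have hyS : (y (S.op x0)).re ≤ 1 := by
      calc (y (S.op x0)).re ≤ ‖y (S.op x0)‖ := Complex.re_le_norm _
        _ ≤ ‖S.op x0‖ := hyn _
        _ ≤ ‖x0‖ := S.app_le _
        _ = 1 := by
            have h1 : ‖x0‖ ^ r = 1 ^ r := by rw [hx0n, Real.one_rpow]
            exact (Real.rpow_left_inj (norm_nonneg _) zero_le_one hr0.ne').1 h1
    have hnn : 0 ≤ (b jj)⁻¹ * ((1 - (y (S.op x0)).re) / β + β ^ (r - 1)) := by
      have := hb0 jj
      have : 0 ≤ 1 - (y (S.op x0)).re := by linarith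
      positivity
    apply ContinuousLinearMap.opNorm_le_of_unit_norm (add_nonneg (by positivity) hnn)
    intro v hv
    set u : ell ℂ p := absq htop (v - Pn ℂ p N v) with hu
    have hun : ‖u‖ ≤ 1 := by
      calc ‖u‖ ≤ ‖v - Pn ℂ p N v‖ := domSeq_norm _ _ _ _
        _ ≤ ‖v‖ := Pn_le' htop N v
        _ = 1 := hv
    have huc : ∀ n < N, u n = 0 := by
      intro n hn
      show ((‖(v - Pn ℂ p N v) n‖ : ℝ) : ℂ) = 0
      have : (v - Pn ℂ p N v) n = v n - (Pn ℂ p N v) n := rfl
      rw [this, Pn_coord, if_pos hn, sub_self, norm_zero, Complex.ofReal_zero]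
    have hPu : Pn ℂ p N u = 0 := by
      rw [Pn_eq]
      refine Finset.sum_eq_zero fun i hi => ?_
      rw [huc i (Finset.mem_range.1 hi), zero_smul]
    have hPx0 : Pn ℂ p N x0 = x0 := by
      rw [← JR htop N, hx0, (blk htop N).rj]
    -- norm of `x0 + β u`
    have h1 : ‖x0 + (β : ℂ) • u‖ ≤ 1 + β ^ r := by
      have h2 := Pn_norm htop N (x0 + (β : ℂ) • u)
      have h3 : Pn ℂ p N (x0 + (β : ℂ) • u) = x0 := by
        rw [map_add, map_smul, hPu, hPx0, smul_zero, add_zero]
      rw [h3, add_sub_cancel_left, hx0n, norm_smul, Complex.norm_real,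
        Real.norm_of_nonneg hβ.le] at h2
      have h4 : (β * ‖u‖) ^ r ≤ β ^ r := by
        apply Real.rpow_le_rpow (by positivity) _ hr0.le
        calc β * ‖u‖ ≤ β * 1 := by gcongr
          _ = β := mul_one _
      have h5 : ‖x0 + (β : ℂ) • u‖ ^ r ≤ 1 + β ^ r := by rw [h2]; linarith
      have h6 : 1 ≤ 1 + β ^ r := by
        have : 0 ≤ β ^ r := by positivity
        linarith
      calc ‖x0 + (β : ℂ) • u‖ = (‖x0 + (β : ℂ) • u‖ ^ r) ^ (1 / r) := by
            rw [← Real.rpow_mul (norm_nonneg _), mul_one_div, div_self hr0.ne', Real.rpow_one]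
        _ ≤ (1 + β ^ r) ^ (1 / r) := by gcongr
        _ ≤ (1 + β ^ r) ^ (1:ℝ) := by
            apply Real.rpow_le_rpow_of_exponent_le h6
            rw [div_le_one hr0]
            exact hr1.le
        _ = 1 + β ^ r := Real.rpow_one _
    have h2 : (y (S.op x0)).re + β * (y (S.op u)).re ≤ 1 + β ^ r := by
      have h3 : (y (S.op (x0 + (β : ℂ) • u))).re = (y (S.op x0)).re + β * (y (S.op u)).re := by
        rw [map_add, map_smul, map_add, map_smul, Complex.add_re, smul_eq_mul,
          Complex.re_ofReal_mul]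
      rw [← h3]
      calc _ ≤ ‖y (S.op (x0 + (β : ℂ) • u))‖ := Complex.re_le_norm _
        _ ≤ ‖S.op (x0 + (β : ℂ) • u)‖ := hyn _
        _ ≤ ‖x0 + (β : ℂ) • u‖ := S.app_le _
        _ ≤ _ := h1
    have h3 : (y (S.op u)).re ≤ (1 - (y (S.op x0)).re) / β + β ^ (r - 1) := by
      have h4 : β ^ r = β * β ^ (r - 1) := by
        rw [mul_comm, ← Real.rpow_add_one hβ.ne']
        congr 1
        ring
      rw [h4] at h2
      have h5 : β * (y (S.op u)).re ≤ β * ((1 - (y (S.op x0)).re) / β + β ^ (r - 1)) := by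
        rw [mul_add, mul_div_cancel₀ _ hβ.ne']
        linarith
      exact le_of_mul_le_mul_left h5 hβ
    -- the functional `e_j ∘ S` on the tail
    have hSu : ∀ n, 0 ≤ S.op u n := S.pos u (absq_nn htop _)
    have h4 : b jj * (S.op u j).re ≤ (y (S.op u)).re := by
      rw [hyv, Complex.re_sum]
      have e : ∀ k : Fin N, ((b k : ℂ) * S.op u k).re = b k * (S.op u k).re := fun k =>
        Complex.re_ofReal_mul _ _
      simp only [e]
      exact Finset.single_le_sum (f := fun k : Fin N => b k * (S.op u k).re)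
        (fun k _ => mul_nonneg (hb0 k).le (Complex.le_def.1 (hSu k)).1) (Finset.mem_univ jj)
    have h5 : ‖S.op (v - Pn ℂ p N v) j‖ ≤ (b jj)⁻¹ * ((1 - (y (S.op x0)).re) / β + β ^ (r - 1)) := by
      have hpf : PosFn ((ev p j).comp S.op) := fun x hx => S.pos x hx j
      have h6 := posFn_norm_le htop _ hpf (v - Pn ℂ p N v)
      have h7 : ‖S.op (v - Pn ℂ p N v) j‖ ≤ (S.op u j).re := h6
      refine h7.trans ?_
      have := hb0 jj
      calc (S.op u j).re = (b jj)⁻¹ * (b jj * (S.op u j).re) := by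
            rw [← mul_assoc, inv_mul_cancel₀ this.ne', one_mul]
        _ ≤ (b jj)⁻¹ * ((1 - (y (S.op x0)).re) / β + β ^ (r - 1)) := by
            gcongr
            exact h4.trans h3
    have h6 : ((ev p j).comp S.op - (ev p j).comp (TB htop B)) v
        = (∑ i ∈ Finset.range N, v i * (S.op (ee p i) j - TB htop B (ee p i) j))
          + S.op (v - Pn ℂ p N v) j := by
      have e1 : ∀ A : ell ℂ p →L[ℂ] ell ℂ p, A (Pn ℂ p N v) j
          = ∑ i ∈ Finset.range N, v i * A (ee p i) j := by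
        intro A
        rw [Pn_eq, map_sum, lp.coeFn_sum, Finset.sum_apply]
        refine Finset.sum_congr rfl fun i _ => ?_
        rw [map_smul]
        rfl
      have e2 : ((ev p j).comp S.op - (ev p j).comp (TB htop B)) v
          = S.op v j - TB htop B v j := rfl
      have e3 : S.op (v - Pn ℂ p N v) j = S.op v j - S.op (Pn ℂ p N v) j := by
        rw [map_sub]
        rfl
      rw [e2, e3, ← TB_Pn htop B v, e1 S.op, e1 (TB htop B)]
      simp only [mul_sub, Finset.sum_sub_distrib]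
      ring
    rw [h6]
    refine (norm_add_le _ _).trans (add_le_add ?_ h5)
    refine (norm_sum_le _ _).trans (Finset.sum_le_sum fun i _ => ?_)
    rw [norm_mul]
    have h7 : ‖v i‖ ≤ 1 := by
      rw [← hv]
      exact lp.norm_apply_le_norm pos_p v i
    calc _ ≤ 1 * ‖S.op (ee p i) j - TB htop B (ee p i) j‖ := by gcongr
      _ = _ := one_mul _
  -- conclusion
  rw [tendsto_iff_norm_sub_tendsto_zero, Metric.tendsto_nhds]
  intro ε hε
  have hbj := hb0 jj
  have hlim : Tendsto (fun β : ℝ => (b jj)⁻¹ * β ^ (r - 1)) (𝓝[>] 0) (𝓝 0) := by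
    have h1 : ContinuousAt (fun β : ℝ => β ^ (r - 1)) 0 :=
      Real.continuousAt_rpow_const _ _ (Or.inr (by linarith))
    have h2 := h1.tendsto
    rw [Real.zero_rpow (by linarith)] at h2
    have h3 := (tendsto_nhdsWithin_of_tendsto_nhds (s := Set.Ioi 0) h2).const_mul (b jj)⁻¹
    rwa [mul_zero] at h3
  obtain ⟨β, hβ1, hβ0⟩ := ((hlim.eventually (gt_mem_nhds (show 0 < ε / 3 by positivity))).and
    self_mem_nhdsWithin).exists
  replace hβ0 : 0 < β := hβ0
  have hl1 : Tendsto (fun S : PosContr p =>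
      ∑ i ∈ Finset.range N, ‖S.op (ee p i) j - TB htop B (ee p i) j‖) F (𝓝 0) := by
    have : (0:ℝ) = ∑ i ∈ Finset.range N, (0:ℝ) := by simp
    rw [this]
    refine tendsto_finsetSum _ fun i hi => ?_
    exact tendsto_iff_norm_sub_tendsto_zero.1 (hF i (Finset.mem_range.1 hi) j hj)
  have hl2 : Tendsto (fun S : PosContr p => (b jj)⁻¹ * ((1 - (y (S.op x0)).re) / β)) F (𝓝 0) := by
    have h1 := ((hyx.const_sub 1).div_const β).const_mul (b jj)⁻¹
    rwa [sub_self, zero_div, mul_zero] at h1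
  filter_upwards [hl1.eventually (gt_mem_nhds (show 0 < ε / 3 by positivity)),
    hl2.eventually (gt_mem_nhds (show 0 < ε / 3 by positivity))] with S h1 h2
  rw [Real.dist_eq, sub_zero, abs_of_nonneg (norm_nonneg _)]
  have h3 := main S β hβ0
  rw [mul_add] at h3
  linarith

end Pool.Agent.W660.TP
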