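import Pool.Agent.W660.TP.WotD
import Pool.Agent.W660.TP.ApproxQ

/-! Nonempty strong* open sets contain nonempty weak operator open sets: preparations. -/

set_option autoImplicit false
open Filter Topology Polynomial ENNReal Matrix
open scoped ComplexOrder

namespace Pool.Agent.W660.TP

open Pool.Agent.W736.TC

variable {N : ℕ} {p : ℝ≥0∞} [Fact (1 ≤ p)]

theorem Pn_comp' {m n : ℕ} (h : n ≤ m) (x : ell ℂ p) : Pn ℂ p m (Pn ℂ p n x) = Pn ℂ p n x := by
  ext1
  funext j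
  rw [Pn_coord, Pn_coord]
  split_ifs with h1 h2
  · rfl
  · rfl
  · omega
  · rfl

/-- an operator living on the first coordinates comes from its matrix -/
theorem op_block (htop : p ≠ ⊤) (T : ell ℂ p →L[ℂ] ell ℂ p) (h1 : ∀ v, Pn ℂ p N (T v) = T v)
    (h2 : ∀ v, T (Pn ℂ p N v) = T v) :
    (JJ p N 0).comp ((opM p N (fun i j => T (ee p j) i)).comp (RQ p htop N 0)) = T := by
  refine ContinuousLinearMap.ext fun v => ?_
  have e1 : ∀ i : ℕ, T (Pn ℂ p N v) i = ∑ j : Fin N, v j * T (ee p j) i := by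
    intro i
    rw [Pn_eq, map_sum, lp.coeFn_sum, Finset.sum_apply, Finset.sum_range]
    refine Finset.sum_congr rfl fun j _ => ?_
    rw [map_smul]
    rfl
  rw [← h2 v, ← h1 (Pn ℂ p N v), Pn_eq (T (Pn ℂ p N v)), Finset.sum_range]
  show JJ p N 0 (opM p N (fun i j => T (ee p j) i) (RQ p htop N 0 v)) = _
  rw [JJ_eq]
  refine Finset.sum_congr rfl fun i _ => ?_
  congr 1
  rw [opM_apply', e1]
  refine Finset.sum_congr rfl fun j _ => ?_
  rw [Rm_apply, mul_comm]
  simp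

theorem TB_le (htop : p ≠ ⊤) (B : Matrix (Fin N) (Fin N) ℝ) : ‖TB htop B‖ ≤ ‖opM p N (cm B)‖ := by
  apply ContinuousLinearMap.opNorm_le_bound _ (norm_nonneg _)
  intro v
  show ‖JJ p N 0 (opM p N (cm B) (RQ p htop N 0 v))‖ ≤ _
  rw [J_norm htop]
  refine ((opM p N (cm B)).le_opNorm _).trans ?_
  gcongr
  exact R_le' htop 0 v

theorem TB_ge (htop : p ≠ ⊤) (B : Matrix (Fin N) (Fin N) ℝ) : ‖opM p N (cm B)‖ ≤ ‖TB htop B‖ := by
  apply ContinuousLinearMap.opNorm_le_bound _ (norm_nonneg _)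
  intro v
  have h1 : TB htop B (JJ p N 0 v) = JJ p N 0 (opM p N (cm B) v) := by
    show JJ p N 0 (opM p N (cm B) (RQ p htop N 0 (JJ p N 0 v))) = _
    rw [(blk htop N).rj]
  calc ‖opM p N (cm B) v‖ = ‖TB htop B (JJ p N 0 v)‖ := by rw [h1, J_norm htop]
    _ ≤ ‖TB htop B‖ * ‖JJ p N 0 v‖ := ContinuousLinearMap.le_opNorm _ _
    _ = ‖TB htop B‖ * ‖v‖ := by rw [J_norm htop]

theorem TB_pos (htop : p ≠ ⊤) (B : Matrix (Fin N) (Fin N) ℝ) (hB : ∀ i j, 0 ≤ B i j) :
    PosOp (TB htop B) := pos_JMR htop 0 0 B hB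

theorem TB_add (htop : p ≠ ⊤) (A B : Matrix (Fin N) (Fin N) ℝ) :
    TB htop (A + B) = TB htop A + TB htop B := by
  have : cm (A + B) = cm A + cm B := by
    ext i j
    simp
  refine ContinuousLinearMap.ext fun v => ?_
  show JJ p N 0 (opM p N (cm (A + B)) (RQ p htop N 0 v)) = _
  rw [this, map_add, _root_.add_apply, map_add]
  rfl

theorem cm_smul (c : ℝ) (B : Matrix (Fin N) (Fin N) ℝ) : cm (c • B) = (c : ℂ) • cm B := by
  ext i j
  simp

theorem TB_smul (htop : p ≠ ⊤) (c : ℝ) (B : Matrix (Fin N) (Fin N) ℝ) :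
    TB htop (c • B) = (c : ℂ) • TB htop B := by
  refine ContinuousLinearMap.ext fun v => ?_
  show JJ p N 0 (opM p N (cm (c • B)) (RQ p htop N 0 v)) = _
  rw [cm_smul, map_smul, _root_.smul_apply, map_smul]
  rfl

/-- the matrix unit at the last coordinate -/
def lastE (K : ℕ) : Matrix (Fin (K + 1)) (Fin (K + 1)) ℝ :=
  fun i j => if i = Fin.last K ∧ j = Fin.last K then 1 else 0

theorem TB_lastE (htop : p ≠ ⊤) (K : ℕ) (v : ell ℂ p) :
    TB htop (lastE K) v = v K • ee p K := by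
  show JJ p (K+1) 0 (opM p (K+1) (cm (lastE K)) (RQ p htop (K+1) 0 v)) = _
  rw [JJ_eq, Finset.sum_eq_single (Fin.last K)]
  · have : (opM p (K+1) (cm (lastE K)) (RQ p htop (K+1) 0 v)) (Fin.last K) = v K := by
      rw [opM_apply', Finset.sum_eq_single (Fin.last K)]
      · rw [Rm_apply]
        simp [lastE]
      · intro j _ hj
        simp [lastE, hj]
      · intro h
        exact absurd (Finset.mem_univ _) h
    rw [this]
    rfl
  · intro i _ hi
    have : (opM p (K+1) (cm (lastE K)) (RQ p htop (K+1) 0 v)) i = 0 := by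
      rw [opM_apply']
      refine Finset.sum_eq_zero fun j _ => ?_
      simp [lastE, hi]
    rw [this, zero_smul]
  · intro h
    exact absurd (Finset.mem_univ _) h

theorem continuous_wot (x : ell ℂ p) (y : ell ℂ p →L[ℂ] ℂ) :
    @Continuous _ _ (wot p) _ (fun S : PosContr p => y (S.op x)) :=
  @Continuous.comp (PosContr p) (ell ℂ p × (ell ℂ p →L[ℂ] ℂ) → ℂ) ℂ (wot p) _ _ _ _
    (continuous_apply (A := fun _ : ell ℂ p × (ell ℂ p →L[ℂ] ℂ) => ℂ) (x, y))
    (@continuous_induced_dom _ _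
      (fun (T : PosContr p) (a : ell ℂ p × (ell ℂ p →L[ℂ] ℂ)) => a.2 (T.op a.1)) _)

/-- a neighbourhood for the weak operator topology -/
theorem wot_nhds (h1p : 1 < p) (htop : p ≠ ⊤) (hN : 0 < N) (B : Matrix (Fin N) (Fin N) ℝ)
    (hB : ∀ i j, 0 < B i j) (hB1 : ‖opM p N (cm B)‖ = 1) (T : PosContr p)
    (hT : T.op = TB htop B) (ε : ℝ) (hε : 0 < ε) :
    ∃ W : Set (PosContr p), IsOpen[wot p] W ∧ T ∈ W ∧ ∀ S ∈ W,
      (∀ i < N, ‖S.op (ee p i) - T.op (ee p i)‖ < ε) ∧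
      (∀ j < N, ‖(ev p j).comp S.op - (ev p j).comp T.op‖ < ε) := by
  obtain ⟨ξ, hξ, hξ1, hη1⟩ := attain h1p htop hN B hB hB1
  have hp1 : 0 < p.toReal := pos_r htop
  have hη : ∀ i, 0 < B.mulVec ξ i := by
    intro i
    have : Nonempty (Fin N) := ⟨⟨0, hN⟩⟩
    exact Finset.sum_pos (fun j _ => mul_pos (hB i j) (hξ j)) Finset.univ_nonempty
  have hF : ∀ i < N, ∀ j < N, Tendsto (fun S : PosContr p => S.op (ee p i) j)
      (@nhds _ (wot p) T) (𝓝 (TB htop B (ee p i) j)) := by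
    intro i _ j _
    rw [← hT]
    exact @Continuous.tendsto _ _ (wot p) _ _ (continuous_wot (ee p i) (ev p j)) T
  have h1 : ∀ i < N, ∀ᶠ S in @nhds _ (wot p) T, ‖S.op (ee p i) - T.op (ee p i)‖ < ε := by
    intro i hi
    have h2 := col_tendsto htop B (@nhds _ (wot p) T) hp1 ξ hξ hξ1 (fun i => (hη i).le) hη1 hF i hi
    filter_upwards [h2.eventually (Metric.ball_mem_nhds _ hε)] with S hS
    rw [hT, ← dist_eq_norm]
    exact hS
  have h2 : ∀ j < N, ∀ᶠ S in @nhds _ (wot p) T,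
      ‖(ev p j).comp S.op - (ev p j).comp T.op‖ < ε := by
    intro j hj
    have h2 := row_tendsto h1p htop B (@nhds _ (wot p) T) ξ hξ hξ1 hη hη1 hF j hj
    filter_upwards [h2.eventually (Metric.ball_mem_nhds _ hε)] with S hS
    rw [hT, ← dist_eq_norm]
    exact hS
  have h3 : {S : PosContr p | (∀ i ∈ Finset.range N, ‖S.op (ee p i) - T.op (ee p i)‖ < ε) ∧
      (∀ j ∈ Finset.range N, ‖(ev p j).comp S.op - (ev p j).comp T.op‖ < ε)}
      ∈ @nhds _ (wot p) T := by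
    have h4 := (Filter.eventually_all_finset (Finset.range N)
      (l := @nhds _ (wot p) T) (p := fun i S => ‖S.op (ee p i) - T.op (ee p i)‖ < ε)).2
      (fun i hi => h1 i (Finset.mem_range.1 hi))
    have h5 := (Filter.eventually_all_finset (Finset.range N)
      (l := @nhds _ (wot p) T) (p := fun j S => ‖(ev p j).comp S.op - (ev p j).comp T.op‖ < ε)).2
      (fun i hi => h2 i (Finset.mem_range.1 hi))
    exact h4.and h5
  obtain ⟨W, hW1, hW2, hW3⟩ := (@mem_nhds_iff _ (wot p) _ _).1 h3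
  exact ⟨W, hW2, hW3, fun S hS => ⟨fun i hi => (hW1 hS).1 i (Finset.mem_range.2 hi),
    fun j hj => (hW1 hS).2 j (Finset.mem_range.2 hj)⟩⟩

end Pool.Agent.W660.TP
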