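import Pool.Agent.W660.TP.WotE

/-! Nonempty strong* open sets contain nonempty weak operator open sets. -/

set_option autoImplicit false
open Filter Topology Polynomial ENNReal Matrix
open scoped ComplexOrder

namespace Pool.Agent.W660.TP

open Pool.Agent.W736.TC

variable {N : ℕ} {p : ℝ≥0∞} [Fact (1 ≤ p)]

theorem ofReal_re_nn {z : ℂ} (h : 0 ≤ z) : ((z.re : ℝ) : ℂ) = z :=
  Complex.ext rfl (by simpa using (Complex.le_def.1 h).2)

/-- the matrix with all entries equal to one -/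
def oneM (K : ℕ) : Matrix (Fin (K + 1)) (Fin (K + 1)) ℝ := fun _ _ => 1

theorem exists_norm_one (htop : p ≠ ⊤) (K : ℕ) (T1 : PosContr p)
    (hl : ∀ v, Pn ℂ p (K + 1) (T1.op v) = T1.op v) (hr : ∀ v, T1.op (Pn ℂ p (K + 1) v) = T1.op v)
    (hlt : ‖T1.op‖ < 1) (η : ℝ) (hη : 0 < η) :
    ∃ (B : Matrix (Fin (K + 1)) (Fin (K + 1)) ℝ) (s δ : ℝ), (∀ i j, 0 < B i j) ∧
      ‖opM p (K + 1) (cm B)‖ = 1 ∧ 0 < δ ∧
      TB htop B = T1.op + (s : ℂ) • TB htop (lastE K) + (δ : ℂ) • TB htop (oneM K) ∧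
      δ * ‖TB htop (oneM K)‖ ≤ η := by
  have hcoef : ∀ i j : ℕ, 0 ≤ T1.op (ee p j) i := fun i j =>
    T1.pos _ (fun m => single_nn _ _ zero_le_one m) i
  obtain ⟨A', hA'⟩ : ∃ A' : Matrix (Fin (K + 1)) (Fin (K + 1)) ℝ,
      ∀ i j, A' i j = (T1.op (ee p (j : ℕ)) (i : ℕ)).re := ⟨fun i j => _, fun i j => rfl⟩
  have hA'0 : ∀ i j, 0 ≤ A' i j := fun i j => by
    rw [hA']
    exact (Complex.le_def.1 (hcoef i j)).1
  have hTA' : TB htop A' = T1.op := by
    have h1 := op_block htop T1.op hl hr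
    have h2 : (fun i j : Fin (K + 1) => T1.op (ee p (j : ℕ)) (i : ℕ)) = cm A' := by
      funext i j
      have : (cm A') i j = ((A' i j : ℝ) : ℂ) := rfl
      rw [this, hA', ofReal_re_nn (hcoef i j)]
    rw [← h1]
    show _ = (JJ p (K + 1) 0).comp ((opM p (K + 1)
      (fun i j : Fin (K + 1) => T1.op (ee p (j : ℕ)) (i : ℕ))).comp (RQ p htop (K + 1) 0))
    rw [h2]
  have hA'1 : ‖opM p (K + 1) (cm A')‖ < 1 := by
    calc ‖opM p (K + 1) (cm A')‖ ≤ ‖TB htop A'‖ := TB_ge htop A'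
      _ = ‖T1.op‖ := by rw [hTA']
      _ < 1 := hlt
  set L : ℝ := ‖opM p (K + 1) (cm (oneM K))‖ with hL
  have hL0 : 0 ≤ L := norm_nonneg _
  set a : ℝ := ‖opM p (K + 1) (cm A')‖ with ha
  set δ : ℝ := min ((1 - a) / (L + 1)) (η / (L + 1)) with hδ
  have h1a : 0 < 1 - a := by linarith
  have hδ0 : 0 < δ := lt_min (by positivity) (by positivity)
  have hδ1 : δ * L ≤ 1 - a := by
    calc δ * L ≤ ((1 - a) / (L + 1)) * (L + 1) := by
          gcongr
          · exact min_le_left _ _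
          · linarith
      _ = 1 - a := by field_simp
  have hδ2 : δ * L ≤ η := by
    calc δ * L ≤ (η / (L + 1)) * (L + 1) := by
          gcongr
          · exact min_le_right _ _
          · linarith
      _ = η := by field_simp
  -- the family of matrices
  set B : ℝ → Matrix (Fin (K + 1)) (Fin (K + 1)) ℝ :=
    fun s => A' + s • lastE K + δ • oneM K with hB
  have hBe : ∀ s i j, B s i j = A' i j + s * lastE K i j + δ * 1 := fun s i j => rfl
  have hBpos : ∀ s, 0 ≤ s → ∀ i j, 0 < B s i j := by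
    intro s hs i j
    have h1 : 0 ≤ lastE K i j := by
      unfold lastE
      split_ifs <;> norm_num
    have h2 := mul_nonneg hs h1
    have h3 := hA'0 i j
    rw [hBe]
    linarith
  have hcmB : ∀ s, cm (B s) = cm A' + (s : ℂ) • cm (lastE K) + (δ : ℂ) • cm (oneM K) := by
    intro s
    rw [← cm_smul, ← cm_smul]
    ext i j
    simp [hB]
  have hopB : ∀ s, opM p (K + 1) (cm (B s)) = opM p (K + 1) (cm A')
      + (s : ℂ) • opM p (K + 1) (cm (lastE K)) + (δ : ℂ) • opM p (K + 1) (cm (oneM K)) := by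
    intro s
    rw [hcmB, map_add, map_add, map_smul, map_smul]
  have hcont : Continuous (fun s : ℝ => ‖opM p (K + 1) (cm (B s))‖) := by
    simp only [hopB]
    exact ((continuous_const.add (Complex.continuous_ofReal.smul continuous_const)).add
      continuous_const).norm
  have hB0 : ‖opM p (K + 1) (cm (B 0))‖ ≤ 1 := by
    have e0 : ((0:ℝ) : ℂ) • opM p (K + 1) (cm (lastE K)) = 0 := by
      rw [Complex.ofReal_zero]
      exact zero_smul ℂ (opM p (K + 1) (cm (lastE K)))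
    rw [hopB, e0, add_zero]
    refine (norm_add_le _ _).trans ?_
    rw [norm_smul, Complex.norm_real, Real.norm_of_nonneg hδ0.le]
    linarith
  have hB1 : 1 ≤ ‖opM p (K + 1) (cm (B 1))‖ := by
    set w : ellm ℂ p (K + 1) := PiLp.single p (Fin.last K) (1:ℂ) with hw
    have hwn : ‖w‖ = 1 := by rw [hw, norm_sg, norm_one]
    have h1 : opM p (K + 1) (cm (B 1)) w (Fin.last K)
        = ((B 1 (Fin.last K) (Fin.last K) : ℝ) : ℂ) := by
      rw [opM_apply', Finset.sum_eq_single (Fin.last K)]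
      · rw [hw, PiLp.single_eq_same, mul_one]
        rfl
      · intro j _ hj
        rw [hw, PiLp.single_eq_of_ne p hj, mul_zero]
      · intro h
        exact absurd (Finset.mem_univ _) h
    have h2 : (1:ℝ) ≤ B 1 (Fin.last K) (Fin.last K) := by
      have e2 : lastE K (Fin.last K) (Fin.last K) = 1 := by simp [lastE]
      rw [hBe, e2]
      have := hA'0 (Fin.last K) (Fin.last K)
      linarith
    calc (1:ℝ) ≤ B 1 (Fin.last K) (Fin.last K) := h2
      _ ≤ ‖opM p (K + 1) (cm (B 1)) w (Fin.last K)‖ := by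
          rw [h1, Complex.norm_real]
          exact le_abs_self _
      _ ≤ ‖opM p (K + 1) (cm (B 1)) w‖ := coord_le _ _
      _ ≤ ‖opM p (K + 1) (cm (B 1))‖ * ‖w‖ := ContinuousLinearMap.le_opNorm _ _
      _ = _ := by rw [hwn, mul_one]
  obtain ⟨s, ⟨hs0, _⟩, hs1⟩ := intermediate_value_Icc zero_le_one hcont.continuousOn ⟨hB0, hB1⟩
  refine ⟨B s, s, δ, hBpos s hs0, hs1, hδ0, ?_, ?_⟩
  · show TB htop (A' + s • lastE K + δ • oneM K) = _
    rw [TB_add, TB_add, TB_smul, TB_smul, hTA']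
  · refine le_trans ?_ hδ2
    gcongr
    exact TB_le htop (oneM K)

end Pool.Agent.W660.TP
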