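import Pool.Agent.W660.TP.WotF

/-! Nonempty strong* open sets contain nonempty weak operator open sets. -/

set_option autoImplicit false
open Filter Topology Polynomial ENNReal Matrix
open scoped ComplexOrder

namespace Pool.Agent.W660.TP

open Pool.Agent.W736.TC

variable {N : ℕ} {p : ℝ≥0∞} [Fact (1 ≤ p)]

theorem comp_le' (f : ell ℂ p →L[ℂ] ℂ) (R : PosContr p) : ‖f.comp R.op‖ ≤ ‖f‖ :=
  (ContinuousLinearMap.opNorm_comp_le _ _).trans
    (mul_le_of_le_one_right (norm_nonneg _) R.norm_le)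

/-- estimate for the operators -/
theorem est_col (htop : p ≠ ⊤) (K : ℕ) (S T T1 : PosContr p) (s δ ε C η ε1 : ℝ)
    (hT : T.op = T1.op + (s : ℂ) • TB htop (lastE K) + (δ : ℂ) • TB htop (oneM K))
    (hδ : 0 < δ) (hδη : δ * ‖TB htop (oneM K)‖ ≤ η) (hηC : η * C ≤ ε / 8)
    (hC : 0 ≤ C) (hε1 : K * (C * ε1) ≤ ε / 8)
    (hS : ∀ i < K + 1, ‖S.op (ee p i) - T.op (ee p i)‖ < ε1)
    (x : ell ℂ p) (hxC : ‖x‖ ≤ C) (hxK : ‖x - Pn ℂ p K x‖ < ε / 8) :
    ‖S.op x - T1.op x‖ < ε := by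
  set z : ell ℂ p := Pn ℂ p K x with hz
  have e1 : S.op x - T1.op x = S.op (x - z) + (S.op z - T.op z) + (T.op z - T1.op z)
      - T1.op (x - z) := by
    rw [map_sub, map_sub]
    abel
  have h1 : ‖S.op (x - z)‖ < ε / 8 := (S.app_le _).trans_lt hxK
  have h2 : ‖T1.op (x - z)‖ < ε / 8 := (T1.app_le _).trans_lt hxK
  have h3 : ‖S.op z - T.op z‖ ≤ ε / 8 := by
    have e2 : S.op z - T.op z = ∑ i ∈ Finset.range K, x i • (S.op (ee p i) - T.op (ee p i)) := by
      rw [hz, Pn_eq, map_sum, map_sum, ← Finset.sum_sub_distrib]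
      refine Finset.sum_congr rfl fun i _ => ?_
      rw [map_smul, map_smul, smul_sub]
    rw [e2]
    refine (norm_sum_le _ _).trans (le_trans ?_ hε1)
    calc ∑ i ∈ Finset.range K, ‖x i • (S.op (ee p i) - T.op (ee p i))‖
        ≤ ∑ _i ∈ Finset.range K, C * ε1 := by
          refine Finset.sum_le_sum fun i hi => ?_
          rw [norm_smul]
          have h4 : ‖x i‖ ≤ C := (lp.norm_apply_le_norm pos_p x i).trans hxC
          have h5 := (hS i (by have := Finset.mem_range.1 hi; omega)).le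
          gcongr
      _ = K * (C * ε1) := by rw [Finset.sum_const, Finset.card_range, nsmul_eq_mul]
  have h4 : ‖T.op z - T1.op z‖ ≤ ε / 8 := by
    have e2 : T.op z - T1.op z = (δ : ℂ) • TB htop (oneM K) z := by
      have e3 : T.op z = T1.op z + (s : ℂ) • TB htop (lastE K) z + (δ : ℂ) • TB htop (oneM K) z := by
        rw [hT]
        rfl
      have e4 : z K = 0 := by
        rw [hz, Pn_coord, if_neg (lt_irrefl K)]
      rw [e3, TB_lastE, e4, zero_smul, smul_zero, add_zero, add_sub_cancel_left]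
    rw [e2, norm_smul, Complex.norm_real, Real.norm_of_nonneg hδ.le]
    calc δ * ‖TB htop (oneM K) z‖ ≤ δ * (‖TB htop (oneM K)‖ * ‖z‖) := by
          gcongr
          exact ContinuousLinearMap.le_opNorm _ _
      _ = (δ * ‖TB htop (oneM K)‖) * ‖z‖ := by ring
      _ ≤ η * C := by
          have h5 : 0 ≤ δ * ‖TB htop (oneM K)‖ := by positivity
          have h6 : ‖z‖ ≤ C := (Pn_le htop K x).trans hxC
          exact mul_le_mul hδη h6 (norm_nonneg _) (h5.trans hδη)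
      _ ≤ ε / 8 := hηC
  have h5 : ‖S.op x - T1.op x‖
      ≤ ‖S.op (x - z)‖ + ‖S.op z - T.op z‖ + ‖T.op z - T1.op z‖ + ‖T1.op (x - z)‖ := by
    rw [e1]
    exact (norm_sub_le _ _).trans (add_le_add_left norm_add₃_le _)
  have h6 := norm_nonneg (S.op (x - z))
  linarith

/-- estimate for the adjoints -/
theorem est_row (htop : p ≠ ⊤) (K : ℕ) (S T T1 : PosContr p) (s δ ε C η ε1 : ℝ)
    (hT : T.op = T1.op + (s : ℂ) • TB htop (lastE K) + (δ : ℂ) • TB htop (oneM K))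
    (hδ : 0 < δ) (hδη : δ * ‖TB htop (oneM K)‖ ≤ η) (hηC : η * C ≤ ε / 8)
    (hC : 0 ≤ C) (hε1 : K * (C * ε1) ≤ ε / 8)
    (hS : ∀ i < K + 1, ‖(ev p i).comp S.op - (ev p i).comp T.op‖ < ε1)
    (y : ell ℂ p →L[ℂ] ℂ) (hyC : ‖y‖ ≤ C) (hyK : ‖y - y.comp (Pn ℂ p K)‖ < ε / 8) :
    ‖y.comp S.op - y.comp T1.op‖ < ε := by
  set z : ell ℂ p →L[ℂ] ℂ := y.comp (Pn ℂ p K) with hz
  have e1 : y.comp S.op - y.comp T1.op = (y - z).comp S.op + (z.comp S.op - z.comp T.op)
      + (z.comp T.op - z.comp T1.op) - (y - z).comp T1.op := by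
    rw [ContinuousLinearMap.sub_comp, ContinuousLinearMap.sub_comp]
    abel
  have h1 : ‖(y - z).comp S.op‖ < ε / 8 := (comp_le' _ _).trans_lt hyK
  have h2 : ‖(y - z).comp T1.op‖ < ε / 8 := (comp_le' _ _).trans_lt hyK
  have hzv : ∀ v, z v = ∑ i ∈ Finset.range K, y (ee p i) * v i := by
    intro v
    show y (Pn ℂ p K v) = _
    rw [Pn_eq, map_sum]
    refine Finset.sum_congr rfl fun i _ => ?_
    rw [map_smul, smul_eq_mul, mul_comm]
  have h3 : ‖z.comp S.op - z.comp T.op‖ ≤ ε / 8 := by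
    have e2 : z.comp S.op - z.comp T.op = ∑ i ∈ Finset.range K,
        y (ee p i) • ((ev p i).comp S.op - (ev p i).comp T.op) := by
      refine ContinuousLinearMap.ext fun v => ?_
      rw [_root_.sum_apply]
      show z (S.op v) - z (T.op v) = ∑ i ∈ Finset.range K, y (ee p i) * (S.op v i - T.op v i)
      rw [hzv, hzv, ← Finset.sum_sub_distrib]
      refine Finset.sum_congr rfl fun i _ => ?_
      ring
    rw [e2]
    refine (norm_sum_le _ _).trans (le_trans ?_ hε1)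
    calc ∑ i ∈ Finset.range K, ‖y (ee p i) • ((ev p i).comp S.op - (ev p i).comp T.op)‖
        ≤ ∑ _i ∈ Finset.range K, C * ε1 := by
          refine Finset.sum_le_sum fun i hi => ?_
          rw [norm_smul]
          have h4 : ‖y (ee p i)‖ ≤ C := by
            calc ‖y (ee p i)‖ ≤ ‖y‖ * ‖ee p i‖ := y.le_opNorm _
              _ = ‖y‖ := by rw [lp.norm_single (pos_iff_ne_zero.2 pos_p), norm_one, mul_one]
              _ ≤ C := hyC
          have h5 := (hS i (by have := Finset.mem_range.1 hi; omega)).le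
          gcongr
      _ = K * (C * ε1) := by rw [Finset.sum_const, Finset.card_range, nsmul_eq_mul]
  have h4 : ‖z.comp T.op - z.comp T1.op‖ ≤ ε / 8 := by
    have e2 : z.comp T.op - z.comp T1.op = (δ : ℂ) • z.comp (TB htop (oneM K)) := by
      refine ContinuousLinearMap.ext fun v => ?_
      have e3 : T.op v = T1.op v + (s : ℂ) • TB htop (lastE K) v + (δ : ℂ) • TB htop (oneM K) v := by
        rw [hT]
        rfl
      have e4 : z (ee p K) = 0 := by
        rw [hzv]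
        refine Finset.sum_eq_zero fun i hi => ?_
        have : (ee p K) i = 0 := by
          rw [lp.single_apply, Pi.single_apply, if_neg]
          exact (Finset.mem_range.1 hi).ne
        rw [this, mul_zero]
      show z (T.op v) - z (T1.op v) = (δ : ℂ) * z (TB htop (oneM K) v)
      rw [e3, map_add, map_add, map_smul, map_smul, TB_lastE, map_smul, e4]
      simp only [smul_eq_mul]
      ring
    have hPn : ‖Pn ℂ p K‖ ≤ 1 := (Pn ℂ p K).opNorm_le_bound zero_le_one fun x => by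
      rw [one_mul]
      exact Pn_le htop K x
    have hzC : ‖z‖ ≤ C := by
      calc ‖z‖ ≤ ‖y‖ * ‖Pn ℂ p K‖ := ContinuousLinearMap.opNorm_comp_le _ _
        _ ≤ ‖y‖ * 1 := by gcongr
        _ ≤ C := by rw [mul_one]; exact hyC
    rw [e2, norm_smul, Complex.norm_real, Real.norm_of_nonneg hδ.le]
    calc δ * ‖z.comp (TB htop (oneM K))‖ ≤ δ * (‖z‖ * ‖TB htop (oneM K)‖) := by
          gcongr
          exact ContinuousLinearMap.opNorm_comp_le _ _
      _ = (δ * ‖TB htop (oneM K)‖) * ‖z‖ := by ring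
      _ ≤ η * C := by
          have h5 : 0 ≤ δ * ‖TB htop (oneM K)‖ := by positivity
          exact mul_le_mul hδη hzC (norm_nonneg _) (h5.trans hδη)
      _ ≤ ε / 8 := hηC
  have h5 : ‖y.comp S.op - y.comp T1.op‖ ≤ ‖(y - z).comp S.op‖ + ‖z.comp S.op - z.comp T.op‖
      + ‖z.comp T.op - z.comp T1.op‖ + ‖(y - z).comp T1.op‖ := by
    rw [e1]
    exact (norm_sub_le _ _).trans (add_le_add_left norm_add₃_le _)
  have h6 := norm_nonneg ((y - z).comp S.op)
  linarith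

theorem exists_wot (h1p : 1 < p) (htop : p ≠ ⊤) (O : Set (PosContr p)) (hO : IsOpen[sots p] O)
    (hne : O.Nonempty) :
    ∃ W : Set (PosContr p), IsOpen[wot p] W ∧ W.Nonempty ∧ W ⊆ O := by
  classical
  obtain ⟨T0, hT0⟩ := hne
  obtain ⟨N, A, hN, hA, -, hA1, hAO, -, -⟩ := approxP h1p htop O hO T0 hT0 0 0 1 one_pos
  obtain ⟨h, h', hT1O⟩ := hAO {0} (Finset.mem_singleton_self 0)
  obtain ⟨T1, hT1⟩ : ∃ T1 : PosContr p,
      T1 = mkP (bOp (JJ p N) (RQ p htop N) {0} (opM p N (cm A))) h h' := ⟨_, rfl⟩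
  rw [← hT1] at hT1O
  have hT1op : T1.op = TB htop A := by
    rw [hT1, mkP_op, bOp, Finset.sum_singleton]
  obtain ⟨F, G, ε, hε, hFG⟩ := exists_nbhdP O hO T1 hT1O
  have hF' : ∀ᶠ n in atTop, ∀ x ∈ F, ‖x - Pn ℂ p n x‖ < ε / 8 := by
    rw [Filter.eventually_all_finset]
    intro x _
    have := (Pn_tendsto htop x).eventually (Metric.ball_mem_nhds x (show 0 < ε / 8 by positivity))
    filter_upwards [this] with n hn
    rw [dist_eq_norm, norm_sub_rev] at hn
    exact hn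
  have hG' : ∀ᶠ n in atTop, ∀ y ∈ G, ‖tl y n‖ < ε / 8 := by
    rw [Filter.eventually_all_finset]
    intro y _
    exact tl_tendsto h1p htop y _ (by positivity)
  obtain ⟨K, ⟨hFK, hGK⟩, hNK⟩ := ((hF'.and hG').and (eventually_ge_atTop N)).exists
  replace hGK : ∀ y ∈ G, ‖y - y.comp (Pn ℂ p K)‖ < ε / 8 := hGK
  have hl : ∀ v, Pn ℂ p (K + 1) (T1.op v) = T1.op v := by
    intro v
    rw [hT1op, ← Pn_TB, Pn_comp' (by omega)]
  have hr : ∀ v, T1.op (Pn ℂ p (K + 1) v) = T1.op v := by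
    intro v
    rw [hT1op, ← TB_Pn, Pn_comp (by omega), TB_Pn]
  have hlt : ‖T1.op‖ < 1 := by
    rw [hT1op]
    exact (TB_le htop A).trans_lt hA1
  obtain ⟨C, hC0, hCF, hCG⟩ : ∃ C : ℝ, 0 ≤ C ∧ (∀ x ∈ F, ‖x‖ ≤ C) ∧ (∀ y ∈ G, ‖y‖ ≤ C) := by
    refine ⟨∑ x ∈ F, ‖x‖ + ∑ y ∈ G, ‖y‖, by positivity, ?_, ?_⟩
    · intro x hx
      have h1 : ‖x‖ ≤ ∑ x ∈ F, ‖x‖ := Finset.single_le_sum (fun z _ => norm_nonneg z) hx
      have h2 : 0 ≤ ∑ y ∈ G, ‖y‖ := Finset.sum_nonneg fun y _ => norm_nonneg y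
      linarith
    · intro y hy
      have h1 : ‖y‖ ≤ ∑ y ∈ G, ‖y‖ :=
        Finset.single_le_sum (f := fun y : ell ℂ p →L[ℂ] ℂ => ‖y‖) (fun z _ => norm_nonneg z) hy
      have h2 : 0 ≤ ∑ x ∈ F, ‖x‖ := Finset.sum_nonneg fun y _ => norm_nonneg y
      linarith
  have hηC : ε / (8 * (C + 1)) * C ≤ ε / 8 := by
    calc ε / (8 * (C + 1)) * C ≤ ε / (8 * (C + 1)) * (C + 1) := by
          gcongr
          linarith
      _ = ε / 8 := by field_simp
  have hε1 : (K : ℝ) * (C * (ε / (8 * ((K + 1) * (C + 1))))) ≤ ε / 8 := by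
    calc (K : ℝ) * (C * (ε / (8 * ((K + 1) * (C + 1)))))
        ≤ (K + 1) * ((C + 1) * (ε / (8 * ((K + 1) * (C + 1))))) := by
          gcongr
          · linarith
          · linarith
      _ = ε / 8 := by field_simp
  obtain ⟨B, s, δ, hBpos, hBn, hδ0, hsum, hδη⟩ :=
    exists_norm_one htop K T1 hl hr hlt (ε / (8 * (C + 1))) (by positivity)
  have hTBle : ‖TB htop B‖ ≤ 1 := (TB_le htop B).trans hBn.le
  have hTBpos : PosOp (TB htop B) := TB_pos htop _ fun i j => (hBpos i j).le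
  obtain ⟨W, hWo, hTW, hW⟩ := wot_nhds h1p htop (Nat.succ_pos K) B hBpos hBn
    (mkP (TB htop B) hTBle hTBpos) rfl (ε / (8 * ((K + 1) * (C + 1)))) (by positivity)
  refine ⟨W, hWo, ⟨_, hTW⟩, fun S hS => hFG S (fun x hx => ?_) (fun y hy => ?_)⟩
  · exact est_col htop K S (mkP (TB htop B) hTBle hTBpos) T1 s δ ε C _ _ hsum hδ0 hδη hηC hC0 hε1
      (hW S hS).1 x (hCF x hx) (hFK x hx)
  · exact est_row htop K S (mkP (TB htop B) hTBle hTBpos) T1 s δ ε C _ _ hsum hδ0 hδη hηC hC0 hε1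
      (hW S hS).2 y (hCG y hy) (hGK y hy)

end Pool.Agent.W660.TP
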