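import Pool.Agent.W660.TP.WotG
import Pool.Agent.W660.TP.TypicalP
import Pool.Agent.W736.TC.Polish

/-! Transfer of residual sets to the topologies between the weak and the strong* topology. -/

set_option autoImplicit false
open Filter Topology ENNReal

namespace Pool.Agent.W660.TP

open Pool.Agent.W736.TC

variable {p : ℝ≥0∞} [Fact (1 ≤ p)]

/-- Let `t1` be finer than `t3`, and assume that every nonempty `t1`-open set contains a nonempty
`t3`-open set. If `t1` is a Baire topology, then so is every topology `t2` between them. -/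
theorem baire_between {X : Type} (t1 t2 t3 : TopologicalSpace X) (h12 : t1 ≤ t2) (h23 : t2 ≤ t3)
    (hπ : ∀ O : Set X, IsOpen[t1] O → O.Nonempty →
      ∃ W : Set X, IsOpen[t3] W ∧ W.Nonempty ∧ W ⊆ O)
    (hB : @BaireSpace X t1) : @BaireSpace X t2 := by
  refine @BaireSpace.mk X t2 ?_
  intro f hf hd
  have h1 : ∀ n, @Dense X t1 (f n) := by
    intro n
    refine (@dense_iff_inter_open X t1 (f n)).2 ?_
    intro O hO hne
    obtain ⟨W, hW, hWne, hWO⟩ := hπ O hO hne
    have h2 := (@dense_iff_inter_open X t2 (f n)).1 (hd n) W (h23 W hW) hWne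
    exact h2.mono (Set.inter_subset_inter_left _ hWO)
  have h2 := @BaireSpace.baire_property X t1 hB f (fun n => h12 _ (hf n)) h1
  refine (@dense_iff_inter_open X t2 _).2 ?_
  intro O hO hne
  exact (@dense_iff_inter_open X t1 _).1 h2 O (h12 _ hO) hne

/-- ... and every `t1`-residual set is `t2`-residual. -/
theorem residual_between {X : Type} (t1 t2 t3 : TopologicalSpace X) (h23 : t2 ≤ t3)
    (h12 : t1 ≤ t2)
    (hπ : ∀ O : Set X, IsOpen[t1] O → O.Nonempty →
      ∃ W : Set X, IsOpen[t3] W ∧ W.Nonempty ∧ W ⊆ O)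
    (s : Set X) (hs : s ∈ @residual X t1) : s ∈ @residual X t2 := by
  obtain ⟨S, hS1, hS2, hS3, hS4⟩ := (@mem_residual_iff X t1 s).1 hs
  refine (@mem_residual_iff X t2 s).2 ⟨(fun O => @interior X t2 O) '' S, ?_, ?_, hS3.image _, ?_⟩
  · rintro _ ⟨O, _, rfl⟩
    exact @isOpen_interior X t2 O
  · rintro _ ⟨O, hO, rfl⟩
    refine (@dense_iff_inter_open X t2 _).2 ?_
    intro V hV hne
    have h1 := (@dense_iff_inter_open X t1 _).1 (hS2 O hO) V (h12 _ hV) hne
    obtain ⟨W, hW, hWne, hWO⟩ := hπ (V ∩ O) (@IsOpen.inter X t1 _ _ (h12 _ hV) (hS1 O hO)) h1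
    obtain ⟨w, hw⟩ := hWne
    have h3 : W ⊆ @interior X t2 O :=
      @interior_maximal X t2 O W (hWO.trans Set.inter_subset_right) (h23 _ hW)
    exact ⟨w, (hWO hw).1, h3 hw⟩
  · intro x hx
    apply hS4
    intro O hO
    exact (@interior_subset X t2 O) (hx _ ⟨O, hO, rfl⟩)

theorem sep_C : TopologicalSpace.SeparableSpace (ℂ →L[ℂ] ℂ) :=
  sep_of (ι := Unit) (fun _ => ContinuousLinearMap.id ℂ ℂ) fun x ε hε =>
    ⟨x, by
      have : x = (x 1) • ContinuousLinearMap.id ℂ ℂ := by
        ext
        simp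
      rw [this]
      exact Submodule.smul_mem _ _ (Submodule.subset_span ⟨(), rfl⟩), by simpa using hε⟩

theorem polish_sots (h1p : 1 < p) (htop : p ≠ ⊤) : @PolishSpace (PosContr p) (sots p) := by
  have h1 : TopologicalSpace.SeparableSpace (ell ℂ p) := sep_ell htop
  have hC := sep_C
  have h2 : TopologicalSpace.SeparableSpace (ell ℂ p →L[ℂ] ℂ) := sep_dual h1p htop
  have h3 : PolishSpace (Contr (ell ℂ p)) := polish
  exact (isClosedEmbedding_toC (p := p)).polishSpace

theorem baire_sots (h1p : 1 < p) (htop : p ≠ ⊤) : @BaireSpace (PosContr p) (sots p) := by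
  have := polish_sots (p := p) h1p htop
  let := TopologicalSpace.upgradeIsCompletelyMetrizable (PosContr p)
  infer_instance

end Pool.Agent.W660.TP
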